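import Mathlib

/-!
Ext groups and adjunctions.
-/

set_option autoImplicit false

universe w w' v v' u u'

open CategoryTheory CategoryTheory.Limits CategoryTheory.Abelian

namespace Pool.Agent.Helper377_AG

variable {C : Type u} [Category.{v} C] [Abelian C] {D : Type u'} [Category.{v'} D] [Abelian D]
  [HasExt.{w} C] [HasExt.{w'} D]

/-- the comparison map of Ext groups of an adjunction with exact left adjoint -/
noncomputable def adjExt {F : C ⥤ D} {G : D ⥤ C} (adj : F ⊣ G) [F.Additive]
    [PreservesFiniteLimits F] [PreservesFiniteColimits F] (X : C) (Y : D) (n : ℕ) :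
    Ext.{w} X (G.obj Y) n →+ Ext.{w'} (F.obj X) Y n where
  toFun ξ := (ξ.mapExactFunctor F).comp (Ext.mk₀ (adj.counit.app Y)) (add_zero n)
  map_zero' := by simp
  map_add' ξ η := by simp

theorem adjExt_mk₀ {F : C ⥤ D} {G : D ⥤ C} (adj : F ⊣ G) [F.Additive]
    [PreservesFiniteLimits F] [PreservesFiniteColimits F] (X : C) (Y : D) (f : X ⟶ G.obj Y) :
    adjExt.{w, w'} adj X Y 0 (Ext.mk₀ f) = Ext.mk₀ ((adj.homEquiv X Y).symm f) := by
  change ((Ext.mk₀ f).mapExactFunctor F).comp (Ext.mk₀ (adj.counit.app Y)) (add_zero 0) = _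
  rw [Ext.mapExactFunctor_mk₀, Ext.mk₀_comp_mk₀, Adjunction.homEquiv_counit]

theorem adjExt_comp {F : C ⥤ D} {G : D ⥤ C} (adj : F ⊣ G) [F.Additive]
    [PreservesFiniteLimits F] [PreservesFiniteColimits F] {X X' : C} (Y : D) {a b n : ℕ}
    (α : Ext.{w} X X' a) (ξ : Ext.{w} X' (G.obj Y) b) (h : a + b = n) :
    adjExt.{w, w'} adj X Y n (α.comp ξ h) =
      (α.mapExactFunctor F).comp (adjExt.{w, w'} adj X' Y b ξ) h := by
  change ((α.comp ξ h).mapExactFunctor F).comp (Ext.mk₀ (adj.counit.app Y)) (add_zero n) = 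
    (α.mapExactFunctor F).comp ((ξ.mapExactFunctor F).comp (Ext.mk₀ (adj.counit.app Y))
      (add_zero b)) h
  rw [Ext.mapExactFunctor_comp, Ext.comp_assoc]
  omega

attribute [local instance] Ext.subsingleton_of_projective in
/-- The comparison map is bijective. -/
theorem adjExt_bijective {F : C ⥤ D} {G : D ⥤ C} (adj : F ⊣ G) [F.Additive]
    [PreservesFiniteLimits F] [PreservesFiniteColimits F] [EnoughProjectives C]
    [F.PreservesProjectiveObjects] (X : C) (Y : D) (n : ℕ) :
    Function.Bijective (adjExt.{w, w'} adj X Y n) := by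
  induction n generalizing X with
  | zero =>
    constructor
    · intro ξ η h
      obtain ⟨f, rfl⟩ := (Ext.mk₀_bijective _ _).2 ξ
      obtain ⟨g, rfl⟩ := (Ext.mk₀_bijective _ _).2 η
      rw [adjExt_mk₀, adjExt_mk₀] at h
      have := (Ext.mk₀_bijective _ _).1 h
      rw [(adj.homEquiv X Y).symm.injective this]
    · intro ζ
      obtain ⟨f, rfl⟩ := (Ext.mk₀_bijective _ _).2 ζ
      refine ⟨Ext.mk₀ (adj.homEquiv X Y f), ?_⟩
      rw [adjExt_mk₀, Equiv.symm_apply_apply]
  | succ n hn =>
    let P : ProjectivePresentation X := Classical.arbitrary _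
    let S := ShortComplex.mk _ _ (kernel.condition P.f)
    have : Projective (S.map F).X₂ := Functor.PreservesProjectiveObjects.projective_obj P.projective
    have hS : S.ShortExact := { exact := ShortComplex.exact_kernel P.f }
    refine AddMonoidHom.bijective_of_surjective_of_bijective_of_right_exact _ _ _ _
      (adjExt.{w, w'} adj S.X₂ Y n) (adjExt.{w, w'} adj S.X₁ Y n)
      (adjExt.{w, w'} adj S.X₃ Y (n + 1))
      ?_ ?_
      ((ShortComplex.ab_exact_iff_function_exact _).1
        (Ext.contravariant_sequence_exact₁' hS (G.obj Y) n (n + 1) (add_comm 1 n)))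
      ((ShortComplex.ab_exact_iff_function_exact _).1
        (Ext.contravariant_sequence_exact₁' (hS.map F) Y n (n + 1) (add_comm 1 n)))
      (hn _).surjective (hn _)
      (fun x₃ ↦ Ext.contravariant_sequence_exact₃ hS _ x₃ (by subsingleton) (add_comm 1 n))
      (fun y₃ ↦ Ext.contravariant_sequence_exact₃ (hS.map F) _ y₃ (by subsingleton) (add_comm 1 n))
    · ext ξ
      change (Ext.mk₀ (F.map S.f)).comp (adjExt.{w, w'} adj S.X₂ Y n ξ) (zero_add n) =
        adjExt.{w, w'} adj S.X₁ Y n ((Ext.mk₀ S.f).comp ξ (zero_add n))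
      rw [adjExt_comp, Ext.mapExactFunctor_mk₀]
    · ext ξ
      change ((hS.map_of_exact F).extClass).comp (adjExt.{w, w'} adj S.X₁ Y n ξ) (add_comm 1 n) =
        adjExt.{w, w'} adj S.X₃ Y (n + 1) (hS.extClass.comp ξ (add_comm 1 n))
      rw [adjExt_comp, Ext.mapExactFunctor_extClass]; rfl

end Pool.Agent.Helper377_AG
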