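import Pool.Agent.Helper377_AG.Defs

/-!
Consequences of a free coresolution `Chain A j N Q`.
-/

set_option autoImplicit false

open CategoryTheory
open scoped TensorProduct

namespace Pool.Agent.Helper377_AG

open Pool.Agent.Helper202_BG

section
variable {A : Type} [Ring A]

theorem PDLT.congr {M M' : ModuleCat.{0} A} (e : M ≃ₗ[A] M') {n : ℕ}
    (h : HasProjectiveDimensionLT M n) : HasProjectiveDimensionLT M' n :=
  hasProjectiveDimensionLT_of_iso e.toModuleIso n

theorem pdlt_free (s : ℕ) : PDLT A (Fin s → A) 1 := by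
  have h : Projective (ModuleCat.of A (Fin s → A)) :=
    ModuleCat.projective_of_free (Pi.basisFun A (Fin s))
  exact projective_iff_hasProjectiveDimensionLT_one.1 h

theorem pdlt_mono {M : ModuleCat.{0} A} {n m : ℕ} (hnm : n ≤ m)
    (h : HasProjectiveDimensionLT M n) : HasProjectiveDimensionLT M m :=
  hasProjectiveDimensionLT_of_ge M n m hnm

theorem Chain.pd {j : ℕ} : ∀ {m : ℕ} {N Q : ModuleCat.{0} A}, Chain A j N Q →
    HasProjectiveDimensionLT N (m + 1) → HasProjectiveDimensionLT Q (m + 1 + j) := by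
  induction j with
  | zero =>
    intro m N Q h hN
    obtain ⟨e⟩ := h
    exact PDLT.congr e hN
  | succ j ih =>
    intro m N Q h hN
    obtain ⟨s, i, hi, hc⟩ := h
    have h1 : SES i (LinearMap.range i).mkQ := SES.ofInj hi
    have h2 : HasProjectiveDimensionLT (ModuleCat.of A ((Fin s → A) ⧸ LinearMap.range i))
        (m + 1 + 1) :=
      h1.sh.hasProjectiveDimensionLT_X₃ (m + 1) hN (pdlt_mono (by omega) (pdlt_free s))
    have h3 := ih (m := m + 1) hc h2
    exact pdlt_mono (by omega) h3

/-- Iterated connecting maps. -/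
theorem Chain.conn {j : ℕ} : ∀ {N Q : ModuleCat.{0} A}, Chain A j N Q → ∀ i : ℕ,
    ∃ D : E A N A i →+ E A Q A (i + j), Function.Surjective D ∧
      ∀ (g : A →ₗ[A] A) (ξ : E A N A i), D (post g ξ) = post g (D ξ) := by
  induction j with
  | zero =>
    intro N Q h i
    obtain ⟨e⟩ := h
    refine ⟨⟨⟨fun ξ => pre e.symm.toLinearMap ξ, pre_zero _⟩, pre_add _⟩, ?_, ?_⟩
    · intro η
      refine ⟨pre e.toLinearMap η, ?_⟩
      change pre e.symm.toLinearMap (pre e.toLinearMap η) = η
      rw [← pre_comp]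
      have : e.toLinearMap ∘ₗ e.symm.toLinearMap = LinearMap.id := by ext x; simp
      rw [this, pre_id]
    · intro g ξ
      exact pre_post _ _ _
  | succ j ih =>
    intro N Q h i
    obtain ⟨s, f, hf, hc⟩ := h
    have h1 : SES f (LinearMap.range f).mkQ := SES.ofInj hf
    obtain ⟨D, hD, hD'⟩ := ih hc (i + 1)
    have hcast : i + 1 + j = i + (j + 1) := by omega
    refine ⟨⟨⟨fun ξ => hcast ▸ D (dr h1 ξ), ?_⟩, ?_⟩, ?_, ?_⟩
    · rw [dr_zero, map_zero]
      clear hD hD' D
      generalize i + (j + 1) = m at hcast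
      subst hcast
      rfl
    · intro ξ η
      change hcast ▸ D (dr h1 (ξ + η)) = (hcast ▸ D (dr h1 ξ)) + (hcast ▸ D (dr h1 η))
      rw [dr_add, map_add]
      generalize D (dr h1 ξ) = x
      generalize D (dr h1 η) = y
      clear hD hD' D
      generalize i + (j + 1) = m at hcast
      subst hcast
      rfl
    · intro η
      obtain ⟨η', hη'⟩ : ∃ η' : E A Q A (i + 1 + j), hcast ▸ η' = η := by
        clear hD hD' D
        generalize i + (j + 1) = m at hcast η
        subst hcast
        exact ⟨η, rfl⟩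
      obtain ⟨ζ, hζ⟩ := hD η'
      have hP : Module.Projective A (Fin s → A) := Module.Projective.of_free
      obtain ⟨ξ, hξ⟩ := con3 h1 ζ (E_proj _)
      refine ⟨ξ, ?_⟩
      change hcast ▸ D (dr h1 ξ) = η
      rw [hξ, hζ, hη']
    · intro g ξ
      change hcast ▸ D (dr h1 (post g ξ)) = post g (hcast ▸ D (dr h1 ξ))
      rw [← post_dr, hD']
      generalize D (dr h1 ξ) = x
      clear hD hD' D
      generalize i + (j + 1) = m at hcast
      subst hcast
      rfl

/-- Finite free modules and vanishing. -/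
theorem E_pi_zero {M : Type} [AddCommGroup M] [Module A M] {i : ℕ}
    (h : Subsingleton (E A M A i)) (s : ℕ) (ξ : E A M (Fin s → A) i) : ξ = 0 := by
  have h1 : (LinearMap.id : (Fin s → A) →ₗ[A] (Fin s → A)) =
      ∑ t, LinearMap.single A (fun _ => A) t ∘ₗ LinearMap.proj t := by
    ext t x
    simp
  have hs : ∀ (F : Finset (Fin s)) (g : Fin s → ((Fin s → A) →ₗ[A] (Fin s → A))),
      post (∑ t ∈ F, g t) ξ = ∑ t ∈ F, post (g t) ξ := by
    intro F g
    induction F using Finset.induction_on with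
    | empty => simp [zero_post]
    | insert a F ha ih => rw [Finset.sum_insert ha, Finset.sum_insert ha, add_post, ih]
  rw [← post_id ξ, h1, hs]
  apply Finset.sum_eq_zero
  intro t _
  rw [post_comp, Subsingleton.elim (post (LinearMap.proj t) ξ) 0, post_zero]

/-- Lifting a nonzero class to a nonzero homomorphism into the last cosyzygy. -/
theorem Chain.lift {M : Type} [AddCommGroup M] [Module A M] {j : ℕ} :
    ∀ {N Q : ModuleCat.{0} A}, Chain A j N Q →
    (∀ i, 1 ≤ i → i ≤ j → Subsingleton (E A M A i)) → ∀ y : E A M N j, y ≠ 0 →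
      ∃ f : M →ₗ[A] Q, f ≠ 0 := by
  induction j with
  | zero =>
    intro N Q h _ y hy
    obtain ⟨e⟩ := h
    obtain ⟨f, rfl⟩ := hom0_surj (V := M) (X := N) y
    refine ⟨e.toLinearMap ∘ₗ f, ?_⟩
    intro h0
    apply hy
    rw [hom0_eq_zero]
    ext x
    apply e.injective
    rw [LinearMap.zero_apply, map_zero]
    exact LinearMap.congr_fun h0 x
  | succ j ih =>
    intro N Q h hv y hy
    obtain ⟨s, f, hf, hc⟩ := h
    have h1 : SES f (LinearMap.range f).mkQ := SES.ofInj hf
    obtain ⟨ζ, hζ⟩ := cov1 h1 y (E_pi_zero (hv (j + 1) (by omega) le_rfl) s _)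
    refine ih hc (fun i hi hij => hv i hi (by omega)) ζ ?_
    rintro rfl
    apply hy
    rw [← hζ, dl_zero]

end

end Pool.Agent.Helper377_AG
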