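import Pool.Agent.Helper377_AG.Chain

/-!
The pairing between left and right modules (Task P from Task Q).
-/

set_option autoImplicit false

open CategoryTheory
open scoped TensorProduct

namespace Pool.Agent.Helper377_AG

open Pool.Agent.Helper202_BG

section
variable {A B : Type} [Ring A] [Ring B] (τ : Anti A B)

@[simp] theorem Anti.symm_f_apply (x : A) : τ.symm.f (τ.f x) = x := τ.f.symm_apply_apply x

@[simp] theorem Anti.f_symm_apply (y : B) : τ.f (τ.symm.f y) = y := τ.f.apply_symm_apply y

theorem mat_apply {r s : ℕ} (w : Fin s → Fin r → A) (β : Fin r → B) (t : Fin s) :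
    mat τ w β t = ∑ u, β u * τ.f (w t u) := rfl

/-- factorization of a homomorphism through a surjection -/
theorem exists_desc {X Y Z : Type} [AddCommGroup X] [Module A X] [AddCommGroup Y] [Module A Y]
    [AddCommGroup Z] [Module A Z] (p : X →ₗ[A] Y) (hp : Function.Surjective p) (f : X →ₗ[A] Z)
    (h : LinearMap.ker p ≤ LinearMap.ker f) : ∃ g : Y →ₗ[A] Z, g ∘ₗ p = f := by
  refine ⟨(LinearMap.ker p).liftQ f h ∘ₗ (p.quotKerEquivOfSurjective hp).symm.toLinearMap, ?_⟩
  ext x
  have : (p.quotKerEquivOfSurjective hp).symm (p x) = (LinearMap.ker p).mkQ x := by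
    apply (p.quotKerEquivOfSurjective hp).injective
    rw [LinearEquiv.apply_symm_apply]
    rfl
  simp [this]

/-- the homomorphism with coefficients `b` -/
def coef {r : ℕ} (b : Fin r → A) : (Fin r → A) →ₗ[A] A where
  toFun l := ∑ u, l u * b u
  map_add' l l' := by simp [add_mul, Finset.sum_add_distrib]
  map_smul' a l := by simp [mul_assoc, Finset.mul_sum]

theorem coef_apply {r : ℕ} (b : Fin r → A) (l : Fin r → A) : coef b l = ∑ u, l u * b u := rfl

theorem coef_single {r : ℕ} (b : Fin r → A) (u : Fin r) : coef b (Pi.single u 1) = b u := by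
  rw [coef_apply, Finset.sum_eq_single u]
  · simp
  · intro t _ ht
    simp [Pi.single_eq_of_ne ht]
  · simp

theorem exists_coef {r : ℕ} (f : (Fin r → A) →ₗ[A] A) : ∃ b, f = coef b := by
  refine ⟨fun u => f (Pi.single u 1), ?_⟩
  apply LinearMap.pi_ext'
  intro u
  ext
  simp [coef_single]

/-- If there are no homomorphisms `K → A`, then the dual of a presentation matrix is
injective. -/
theorem mat_injective {K : Type} [AddCommGroup K] [Module A K] {r s : ℕ} {v : Fin r → K}
    (hv : Submodule.span A (Set.range v) = ⊤) {w : Fin s → Fin r → A}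
    (hw : Submodule.span A (Set.range w) = LinearMap.ker (Fintype.linearCombination A v))
    (h0 : Subsingleton (E A K A 0)) : Function.Injective (mat τ w) := by
  rw [← LinearMap.ker_eq_bot, LinearMap.ker_eq_bot']
  intro β hβ
  have hp : Function.Surjective (Fintype.linearCombination A v) := by
    rw [← LinearMap.range_eq_top, Fintype.range_linearCombination, hv]
  obtain ⟨g, hg⟩ := exists_desc (Fintype.linearCombination A v) hp
    (coef fun u => τ.symm.f (β u)) (by
      rw [← hw, Submodule.span_le]
      rintro _ ⟨t, rfl⟩
      rw [SetLike.mem_coe, LinearMap.mem_ker, coef_apply]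
      apply τ.f.injective
      rw [map_sum, map_zero]
      have := congrFun hβ t
      rw [mat_apply] at this
      rw [Pi.zero_apply] at this
      rw [← this]
      apply Finset.sum_congr rfl
      intro u _
      rw [τ.mul, Anti.f_symm_apply])
  have hg0 : g = 0 := by
    rw [← hom0_eq_zero]
    exact Subsingleton.elim _ _
  funext u
  have : coef (fun u => τ.symm.f (β u)) (Pi.single u 1) = 0 := by
    rw [← hg, hg0]
    simp
  rw [coef_single] at this
  have := congrArg τ.f this
  rw [Anti.f_symm_apply, map_zero] at this
  exact this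

theorem post_sum {M X Y : Type} [AddCommGroup M] [Module A M] [AddCommGroup X] [Module A X]
    [AddCommGroup Y] [Module A Y] {n : ℕ} {ι : Type} (F : Finset ι) (g : X →ₗ[A] Y)
    (ξ : ι → E A M X n) : post g (∑ t ∈ F, ξ t) = ∑ t ∈ F, post g (ξ t) := by
  classical
  induction F using Finset.induction_on with
  | empty => simp [post_zero]
  | insert a F ha ih => rw [Finset.sum_insert ha, Finset.sum_insert ha, post_add, ih]

theorem sum_post {M X Y : Type} [AddCommGroup M] [Module A M] [AddCommGroup X] [Module A X]
    [AddCommGroup Y] [Module A Y] {n : ℕ} {ι : Type} (F : Finset ι) (g : ι → (X →ₗ[A] Y))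
    (ξ : E A M X n) : post (∑ t ∈ F, g t) ξ = ∑ t ∈ F, post (g t) ξ := by
  classical
  induction F using Finset.induction_on with
  | empty => simp [zero_post]
  | insert a F ha ih => rw [Finset.sum_insert ha, Finset.sum_insert ha, add_post, ih]

end

theorem taskP_of (hQ : TaskQ) : TaskP := by
  intro A B _ _ τ _ n V _ _ _ M _ _ hV hM φ hφ hφ0
  -- a generator with nonzero image
  obtain ⟨r, v, hv⟩ := Module.Finite.exists_fin (R := A) (M := V)
  have hp : Function.Surjective (Fintype.linearCombination A v) := by
    rw [← LinearMap.range_eq_top, Fintype.range_linearCombination, hv]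
  have hne : ∃ u, φ (v u) ≠ 0 := by
    by_contra hcon
    push Not at hcon
    apply hφ0
    ext x
    obtain ⟨l, rfl⟩ := hp x
    rw [Fintype.linearCombination_apply, map_sum]
    apply Finset.sum_eq_zero
    intro u _
    rw [hφ, hcon, post_zero]
  obtain ⟨u₀, hu₀⟩ := hne
  cases n with
  | zero =>
    obtain ⟨f, hf⟩ := hom0_surj (φ (v u₀))
    refine ⟨ModuleCat.of B B, ?_, f, ?_⟩
    · have h : Projective (ModuleCat.of B B) :=
        ModuleCat.projective_of_free (Module.Basis.singleton Unit B)
      exact projective_iff_hasProjectiveDimensionLT_one.1 h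
    · rintro rfl
      apply hu₀
      rw [← hf, hom0_zero]
  | succ j =>
    have hfg : (LinearMap.ker (Fintype.linearCombination A v)).FG := IsNoetherian.noetherian _
    obtain ⟨s, w, hw⟩ := Submodule.fg_iff_exists_fin_generating_family.1 hfg
    obtain ⟨Q, hc, -⟩ := hQ A B τ j V r v hv (fun i _ hij => hV i (by omega)) s w hw
    have hinj := mat_injective τ hv hw (hV 0 (by omega))
    have h1 : SES (mat τ w) (LinearMap.range (mat τ w)).mkQ := SES.ofInj hinj
    have hpd : HasProjectiveDimensionLT
        (ModuleCat.of B ((Fin s → B) ⧸ LinearMap.range (mat τ w))) (1 + 1) :=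
      h1.sh.hasProjectiveDimensionLT_X₃ 1 (pdlt_free r) (pdlt_mono (by omega) (pdlt_free s))
    refine ⟨Q, pdlt_mono (by omega) (hc.pd hpd), ?_⟩
    let x : E B M (Fin r → B) (j + 1) :=
      ∑ u, post (LinearMap.single B (fun _ => B) u) (φ (v u))
    have hx : post (LinearMap.proj u₀ : (Fin r → B) →ₗ[B] B) x = φ (v u₀) := by
      rw [post_sum, Finset.sum_eq_single u₀]
      · rw [← post_comp]
        have : (LinearMap.proj u₀ : (Fin r → B) →ₗ[B] B) ∘ₗ LinearMap.single B (fun _ => B) u₀
            = LinearMap.id := by
          ext; simp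
        rw [this, post_id]
      · intro t _ ht
        rw [← post_comp]
        have : (LinearMap.proj u₀ : (Fin r → B) →ₗ[B] B) ∘ₗ LinearMap.single B (fun _ => B) t
            = 0 := by
          ext; simp [Pi.single_eq_of_ne ht.symm]
        rw [this, zero_post]
      · simp
    have hx0 : post (mat τ w) x = 0 := by
      rw [post_sum]
      have key : ∀ u : Fin r, post (mat τ w) (post (LinearMap.single B (fun _ => B) u) (φ (v u)))
          = ∑ t, post (LinearMap.single B (fun _ => B) t) (φ (w t u • v u)) := by
        intro u
        rw [← post_comp]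
        have : mat τ w ∘ₗ LinearMap.single B (fun _ => B) u
            = ∑ t, LinearMap.single B (fun _ => B) t ∘ₗ rm (τ.f (w t u)) := by
          ext t
          rw [LinearMap.comp_apply, mat_apply, Finset.sum_eq_single u]
          · simp [Finset.sum_apply, Pi.single_apply]
          · intro u' _ hu'
            simp [Pi.single_eq_of_ne hu']
          · simp
        rw [this, sum_post]
        apply Finset.sum_congr rfl
        intro t _
        rw [post_comp, hφ]
      rw [Finset.sum_congr rfl fun u _ => key u, Finset.sum_comm]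
      apply Finset.sum_eq_zero
      intro t _
      rw [← post_sum, ← map_sum]
      have hwt : w t ∈ LinearMap.ker (Fintype.linearCombination A v) := by
        rw [← hw]
        exact Submodule.subset_span ⟨t, rfl⟩
      rw [LinearMap.mem_ker, Fintype.linearCombination_apply] at hwt
      rw [hwt, map_zero, post_zero]
    obtain ⟨ζ, hζ⟩ := cov1 h1 x hx0
    refine hc.lift (fun i hi hij => hM i (by omega)) ζ ?_
    rintro rfl
    apply hu₀
    rw [← hx, ← hζ, dl_zero, post_zero]

end Pool.Agent.Helper377_AG
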