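import Pool.Agent.Helper377_AG.T
import Pool.Agent.Helper377_AG.P

/-!
Task D: the dimension formula.
-/

set_option autoImplicit false

open CategoryTheory CategoryTheory.Limits
open scoped TensorProduct

namespace Pool.Agent.Helper377_AG

open Pool.Agent.Helper202_BG

section free
variable (k A : Type) [Field k] [Ring A] [HopfAlgebra k A]
variable (V : Type) [AddCommGroup V] [Module A V] [Module k V] [IsScalarTower k A V]

/-- `a ⊗ v ↦ a₁ ⊗ a₂ v` -/
noncomputable def tw : A ⊗[k] V →ₗ[k] A ⊗[k] V :=
  TensorProduct.lift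
    { toFun := fun a => (op k A A V (cop k A a)) ∘ₗ TensorProduct.mk k A V 1
      map_add' := fun a b => by ext; simp
      map_smul' := fun c a => by ext; simp }

/-- `a ⊗ v ↦ a₁ ⊗ S(a₂) v` -/
noncomputable def tw' : A ⊗[k] V →ₗ[k] A ⊗[k] V :=
  TensorProduct.lift
    { toFun := fun a => (op k A A V (LinearMap.lTensor A (an k A) (cop k A a))) ∘ₗ
        TensorProduct.mk k A V 1
      map_add' := fun a b => by ext; simp
      map_smul' := fun c a => by ext; simp }

theorem tw_tmul (a : A) (v : V) : tw k A V (a ⊗ₜ[k] v) = op k A A V (cop k A a) (1 ⊗ₜ[k] v) := by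
  simp [tw]

theorem tw'_tmul (a : A) (v : V) : tw' k A V (a ⊗ₜ[k] v) =
    op k A A V (LinearMap.lTensor A (an k A) (cop k A a)) (1 ⊗ₜ[k] v) := by
  simp [tw']

theorem tw_op (t : A ⊗[k] A) (v : V) :
    tw k A V (op k A A V t (1 ⊗ₜ[k] v)) = op k A A V (mulR k A t) (1 ⊗ₜ[k] v) := by
  induction t with
  | zero => simp
  | add x y hx hy => simp only [map_add, LinearMap.add_apply, hx, hy]
  | tmul c d =>
    rw [op_tmul, smul_eq_mul, mul_one, tw_tmul, mulR_tmul, map_mul, Module.End.mul_apply, op_tmul,
      one_smul]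

theorem tw'_op (t : A ⊗[k] A) (v : V) :
    tw' k A V (op k A A V t (1 ⊗ₜ[k] v)) = op k A A V (mulL k A t) (1 ⊗ₜ[k] v) := by
  induction t with
  | zero => simp
  | add x y hx hy => simp only [map_add, LinearMap.add_apply, hx, hy]
  | tmul c d =>
    rw [op_tmul, smul_eq_mul, mul_one, tw'_tmul, mulL_tmul, map_mul, Module.End.mul_apply, op_tmul,
      one_smul]

theorem tw'_tw (x : A ⊗[k] V) : tw' k A V (tw k A V x) = x := by
  induction x with
  | zero => simp
  | add x y hx hy => simp only [map_add, hx, hy]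
  | tmul a v => rw [tw_tmul, tw'_op, mulL_cop, op_tmul, one_smul, smul_eq_mul, mul_one]

theorem tw_tw' (x : A ⊗[k] V) : tw k A V (tw' k A V x) = x := by
  induction x with
  | zero => simp
  | add x y hx hy => simp only [map_add, hx, hy]
  | tmul a v => rw [tw'_tmul, tw_op, mulR_cop, op_tmul, one_smul, smul_eq_mul, mul_one]

end free

section hom
variable (k A : Type) [Field k] [Ring A] [HopfAlgebra k A]
variable (U : Type) [AddCommGroup U] [Module A U] [Module k U] [IsScalarTower k A U]
  [FiniteDimensional k U]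
variable (N : Type) [AddCommGroup N] [Module A N] [Module k N] [IsScalarTower k A N]

/-- `a ⊗ φ ↦ (v ↦ φ(v) a n₀)` -/
noncomputable def KK (n₀ : N) : A ⊗[k] DM k A U →ₗ[k] (U →ₗ[k] N) :=
  dualTensorHom k U N ∘ₗ (TensorProduct.comm k N (Module.Dual k U)).toLinearMap ∘ₗ
    TensorProduct.map ((LinearMap.toSpanSingleton A N n₀).restrictScalars k)
      (DM.fn k A U).toLinearMap

omit [FiniteDimensional k U] in
theorem KK_tmul (n₀ : N) (a : A) (φ : DM k A U) (v : U) :
    KK k A U N n₀ (a ⊗ₜ[k] φ) v = DM.fn k A U φ v • (a • n₀) := by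
  simp [KK]

theorem KK_bij (n₀ : N) (hn : Function.Bijective (fun a : A => a • n₀)) :
    Function.Bijective (KK k A U N n₀) := by
  let e1 : A ≃ₗ[k] N := LinearEquiv.ofBijective
    ((LinearMap.toSpanSingleton A N n₀).restrictScalars k) hn
  have h : KK k A U N n₀ = ((TensorProduct.congr e1 (DM.fn k A U)).trans
      ((TensorProduct.comm k N (Module.Dual k U)).trans (dualTensorHomEquiv k U N))).toLinearMap := by
    ext a φ
    rfl
  rw [h]
  exact LinearEquiv.bijective _

omit [FiniteDimensional k U] in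
theorem KK_op (n₀ : N) (t : A ⊗[k] A) (φ : DM k A U) :
    KK k A U N n₀ (op k A A (DM k A U) t (1 ⊗ₜ[k] φ)) =
      hop k A U N t (KK k A U N n₀ (1 ⊗ₜ[k] φ)) := by
  induction t with
  | zero => simp
  | add x y hx hy => simp only [map_add, LinearMap.add_apply, hx, hy]
  | tmul c d =>
    ext v
    rw [op_tmul, KK_tmul, hop_tmul, KK_tmul, DM.fn_smul, one_smul, smul_eq_mul, mul_one,
      smul_comm]

/-- The module of linear maps into a free module of rank one is free. -/
theorem HM_free (n₀ : N) (hn : Function.Bijective (fun a : A => a • n₀)) :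
    Nonempty ((Fin (Module.finrank k U) → A) ≃ₗ[A] HM k A U N) := by
  let b := (Module.finBasis k U).dualBasis.map (DM.fn k A U).symm
  let bA := Algebra.TensorProduct.basis A b
  let f : Fin (Module.finrank k U) → HM k A U N := fun i =>
    (HM.fn k A U N).symm (KK k A U N n₀ (1 ⊗ₜ[k] b i))
  have key : ∀ β : Fin (Module.finrank k U) → A, Fintype.linearCombination A f β =
      (HM.fn k A U N).symm (KK k A U N n₀ (tw k A (DM k A U) (bA.equivFun.symm β))) := by
    intro β
    rw [Fintype.linearCombination_apply, Module.Basis.equivFun_symm_apply, map_sum, map_sum,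
      map_sum]
    apply Finset.sum_congr rfl
    intro i _
    apply (HM.fn k A U N).injective
    rw [HM.fn_smul, LinearEquiv.apply_symm_apply, LinearEquiv.apply_symm_apply, ← KK_op,
      ← tw_tmul]
    congr 2
    rw [Algebra.TensorProduct.basis_apply, TensorProduct.smul_tmul', smul_eq_mul, mul_one]
  refine ⟨LinearEquiv.ofBijective (Fintype.linearCombination A f) ?_⟩
  have h1 : Function.Bijective (tw k A (DM k A U)) :=
    Function.bijective_iff_has_inverse.2 ⟨tw' k A (DM k A U), tw'_tw k A _, tw_tw' k A _⟩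
  have h2 : (Fintype.linearCombination A f : _ → HM k A U N) =
      (HM.fn k A U N).symm ∘ (KK k A U N n₀) ∘ (tw k A (DM k A U)) ∘ bA.equivFun.symm := by
    funext β
    exact key β
  rw [h2]
  exact (LinearEquiv.bijective _).comp ((KK_bij k A U N n₀ hn).comp
    (h1.comp (LinearEquiv.bijective _)))

end hom

section ext
variable {k A : Type} [Field k] [Ring A] [Algebra k A]

theorem post_smul {M X Y : Type} [AddCommGroup M] [Module A M] [AddCommGroup X] [Module A X]
    [AddCommGroup Y] [Module A Y] {n : ℕ} (g : X →ₗ[A] Y) (c : k) (ξ : E A M X n) :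
    post g (c • ξ) = c • post g ξ :=
  Abelian.Ext.smul_comp _ _ _ _

theorem pre_smul {M M' X : Type} [AddCommGroup M] [Module A M] [AddCommGroup X] [Module A X]
    [AddCommGroup M'] [Module A M'] {n : ℕ} (g : M' →ₗ[A] M) (c : k) (ξ : E A M X n) :
    pre g (c • ξ) = c • pre g ξ :=
  Abelian.Ext.comp_smul _ _ _ _

variable (k)

/-- transport in the first variable -/
noncomputable def preEquiv {M M' X : Type} [AddCommGroup M] [Module A M] [AddCommGroup X]
    [Module A X] [AddCommGroup M'] [Module A M'] (e : M' ≃ₗ[A] M) (n : ℕ) :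
    E A M X n ≃ₗ[k] E A M' X n where
  toFun := pre e.toLinearMap
  invFun := pre e.symm.toLinearMap
  map_add' := pre_add _
  map_smul' c ξ := pre_smul _ c ξ
  left_inv ξ := by
    rw [← pre_comp]
    have : e.toLinearMap ∘ₗ e.symm.toLinearMap = LinearMap.id := by ext x; simp
    rw [this, pre_id]
  right_inv ξ := by
    rw [← pre_comp]
    have : e.symm.toLinearMap ∘ₗ e.toLinearMap = LinearMap.id := by ext x; simp
    rw [this, pre_id]

/-- transport in the second variable -/
noncomputable def postEquiv {M X X' : Type} [AddCommGroup M] [Module A M] [AddCommGroup X]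
    [Module A X] [AddCommGroup X'] [Module A X'] (e : X ≃ₗ[A] X') (n : ℕ) :
    E A M X n ≃ₗ[k] E A M X' n where
  toFun := post e.toLinearMap
  invFun := post e.symm.toLinearMap
  map_add' := post_add _
  map_smul' c ξ := post_smul _ c ξ
  left_inv ξ := by
    rw [← post_comp]
    have : e.symm.toLinearMap ∘ₗ e.toLinearMap = LinearMap.id := by ext x; simp
    rw [this, post_id]
  right_inv ξ := by
    rw [← post_comp]
    have : e.toLinearMap ∘ₗ e.symm.toLinearMap = LinearMap.id := by ext x; simp
    rw [this, post_id]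

/-- finite free modules in the second variable -/
noncomputable def piEquiv (M : Type) [AddCommGroup M] [Module A M] (d n : ℕ) :
    E A M (Fin d → A) n ≃ₗ[k] (Fin d → E A M A n) where
  toFun ξ t := post (LinearMap.proj t) ξ
  invFun η := ∑ t, post (LinearMap.single A (fun _ => A) t) (η t)
  map_add' ξ η := by
    funext t
    exact post_add _ _ _
  map_smul' c ξ := by
    funext t
    exact post_smul _ _ _
  left_inv ξ := by
    have h1 : (LinearMap.id : (Fin d → A) →ₗ[A] (Fin d → A)) =
        ∑ t, LinearMap.single A (fun _ => A) t ∘ₗ LinearMap.proj t := by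
      ext t x
      simp
    conv_rhs => rw [← post_id ξ, h1, sum_post]
    apply Finset.sum_congr rfl
    intro t _
    rw [post_comp]
  right_inv η := by
    funext u
    change post (LinearMap.proj u) (∑ t, post (LinearMap.single A (fun _ => A) t) (η t)) = η u
    rw [post_sum, Finset.sum_eq_single u]
    · rw [← post_comp]
      have : (LinearMap.proj u : (Fin d → A) →ₗ[A] A) ∘ₗ LinearMap.single A (fun _ => A) u
          = LinearMap.id := by
        ext; simp
      rw [this, post_id]
    · intro t _ ht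
      rw [← post_comp]
      have : (LinearMap.proj u : (Fin d → A) →ₗ[A] A) ∘ₗ LinearMap.single A (fun _ => A) t
          = 0 := by
        ext; simp [Pi.single_eq_of_ne ht.symm]
      rw [this, zero_post]
    · simp

end ext

section trivial
variable {k A : Type} [Field k] [Ring A] (χ : A →+* k)

/-- elements of the trivial module -/
def Tr.mk (c : k) : Tr χ := c

/-- the scalar of an element of the trivial module -/
def Tr.val (x : Tr χ) : k := x

theorem Tr.mk_val (x : Tr χ) : Tr.mk χ (Tr.val χ x) = x := rfl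

theorem Tr.smul_mk (a : A) (c : k) : a • Tr.mk χ c = Tr.mk χ (χ a * c) := rfl

theorem Tr.mk_inj {c d : k} (h : Tr.mk χ c = Tr.mk χ d) : c = d := h

theorem Tr.mk_zero : Tr.mk χ 0 = 0 := rfl

end trivial

section final

open scoped ModuleCat

variable (k A : Type) [Field k] [Ring A] [HopfAlgebra k A]

variable (U : Type) [AddCommGroup U] [Module A U] [Module k U] [IsScalarTower k A U]

/-- `k ⊗ U ≅ U` -/
theorem unit_iso {W : Type} [AddCommGroup W] [Module A W] [Module k W] [IsScalarTower k A W]
    (z : W) (hz : z ≠ 0) (hinv : ∀ a : A, a • z = (Coalgebra.counit (R := k) a : k) • z)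
    (hspan : ∀ x : W, ∃ c : k, x = c • z) : Nonempty (U ≃ₗ[A] TP k A W U) := by
  obtain ⟨j, hj, hinj⟩ := exists_emb z hz hinv U
  refine ⟨LinearEquiv.ofBijective j ⟨hinj, ?_⟩⟩
  intro y
  obtain ⟨y, rfl⟩ := (TP.mk k A W U).surjective y
  induction y with
  | zero => exact ⟨0, by simp⟩
  | add x y hx hy =>
    obtain ⟨a, ha⟩ := hx
    obtain ⟨b, hb⟩ := hy
    exact ⟨a + b, by rw [map_add, map_add, ha, hb]⟩
  | tmul w u =>
    obtain ⟨c, rfl⟩ := hspan w
    exact ⟨c • u, by rw [hj, TP.tm, TensorProduct.smul_tmul]⟩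

theorem unit_iso' (T : ModuleCat.{0} A) (z : T) (hz : z ≠ 0)
    (hinv : ∀ a : A, a • z = (algebraMap k A (Coalgebra.counit (R := k) a)) • z)
    (hspan : ∀ x : T, ∃ c : k, x = (algebraMap k A c) • z) :
    Nonempty (U ≃ₗ[A] (TF k A U).obj T) :=
  unit_iso k A U z hz hinv hspan

theorem HM_free' [FiniteDimensional k U] (N : ModuleCat.{0} A) (n₀ : N)
    (hn : Function.Bijective (fun a : A => a • n₀)) :
    Nonempty ((Fin (Module.finrank k U) → A) ≃ₗ[A] (HF k A U).obj N) :=
  HM_free k A U N n₀ hn

/-- the comparison map for the adjunction, as a linear equivalence -/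
noncomputable def adjEquiv (X Y : ModuleCat.{0} A) (n : ℕ) :
    Abelian.Ext.{0} X ((HF k A U).obj Y) n ≃ₗ[k] Abelian.Ext.{0} ((TF k A U).obj X) Y n :=
  LinearEquiv.ofBijective
    { toFun := adjExt (adjTH k A U) X Y n
      map_add' := map_add _
      map_smul' := fun c ξ => by
        change ((c • ξ).mapExactFunctor (TF k A U)).comp (Abelian.Ext.mk₀ _) (add_zero n) =
          c • (ξ.mapExactFunctor (TF k A U)).comp (Abelian.Ext.mk₀ _) (add_zero n)
        rw [Functor.mapExactFunctor_smul, Abelian.Ext.smul_comp] }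
    (adjExt_bijective (adjTH k A U) X Y n)

theorem dim_formula [FiniteDimensional k U] (n : ℕ) :
    Nonempty (E A U A n ≃ₗ[k] (Fin (Module.finrank k U) → E A (Tr (eps k A)) A n)) := by
  have hc : ∀ c : k, eps k A (algebraMap k A c) = c := fun c =>
    (Bialgebra.counitAlgHom k A).commutes c
  obtain ⟨e1⟩ := unit_iso' k A U (ModuleCat.of A (Tr (eps k A))) (Tr.mk (eps k A) 1)
      (fun h => one_ne_zero (Tr.mk_inj (eps k A) (h.trans (Tr.mk_zero (eps k A)).symm))) (by
      intro a
      change a • Tr.mk (eps k A) 1 = (algebraMap k A (Coalgebra.counit (R := k) a)) •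
        Tr.mk (eps k A) 1
      rw [Tr.smul_mk, Tr.smul_mk, hc]
      rfl) (by
      intro x
      refine ⟨Tr.val (eps k A) x, ?_⟩
      change Tr.mk (eps k A) (Tr.val (eps k A) x) =
        (algebraMap k A (Tr.val (eps k A) x)) • Tr.mk (eps k A) 1
      rw [Tr.smul_mk, hc, mul_one])
  obtain ⟨e2⟩ := HM_free' k A U (ModuleCat.of A A) (1 : A) (by
      have : (fun a : A => a • (1 : A)) = id := by funext a; simp
      change Function.Bijective (fun a : A => a • (1 : A))
      rw [this]
      exact Function.bijective_id)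
  let T : ModuleCat.{0} A := ModuleCat.of A (Tr (eps k A))
  let R : ModuleCat.{0} A := ModuleCat.of A A
  have f1 : E A U A n ≃ₗ[k] Abelian.Ext.{0} ((TF k A U).obj T) R n :=
    (preEquiv k (M := (TF k A U).obj T) (M' := U) (X := A) e1 n).symm
  have f2 := (adjEquiv k A U T R n).symm
  have f3 : E A (Tr (eps k A)) (Fin (Module.finrank k U) → A) n ≃ₗ[k]
      Abelian.Ext.{0} T ((HF k A U).obj R) n :=
    postEquiv k (M := Tr (eps k A)) (X' := (HF k A U).obj R) e2 n
  exact ⟨f1.trans (f2.trans (f3.symm.trans (piEquiv k _ _ n)))⟩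

end final

theorem taskD : TaskD := by
  intro k B _ _ _ U _ _ _ _ _ n
  exact dim_formula k B U n

end Pool.Agent.Helper377_AG
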