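import Pool.Agent.Helper202_BG.ExtTools

/-!
A criterion for noetherian Hopf algebras to be Artin-Schelter Gorenstein: definitions and the
statements of the tasks.

`E A V X n` is the group `Ext^n_A(V, X)`, `post g` and `pre f` are composition with module
homomorphisms, see `Helper202_BG.Defs` and `Helper202_BG.ExtTools`.
-/

set_option autoImplicit false

open CategoryTheory
open scoped TensorProduct

namespace Pool.Agent.Helper377_AG

open Pool.Agent.Helper202_BG

/-- anti-isomorphisms of rings; left modules over `B` are right modules over `A` -/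
structure Anti (A B : Type) [Ring A] [Ring B] where
  /-- the additive bijection -/
  f : A ≃+ B
  /-- it reverses products -/
  mul : ∀ x y, f (x * y) = f y * f x

/-- the inverse anti-isomorphism -/
def Anti.symm {A B : Type} [Ring A] [Ring B] (τ : Anti A B) : Anti B A where
  f := τ.f.symm
  mul x y := by
    apply τ.f.injective
    rw [τ.mul]
    simp

theorem Anti.one {A B : Type} [Ring A] [Ring B] (τ : Anti A B) : τ.f 1 = 1 := by
  have h : ∀ y : B, τ.f 1 * y = y := by
    intro y
    obtain ⟨x, rfl⟩ := τ.f.surjective y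
    rw [← τ.mul, mul_one]
  have := h 1
  rwa [mul_one] at this

/-- right multiplication by `a`, as a homomorphism of left modules -/
abbrev rm {A : Type} [Ring A] (a : A) : A →ₗ[A] A := LinearMap.toSpanSingleton A A a

/-- projective dimension less than `n` -/
abbrev PDLT (A M : Type) [Ring A] [AddCommGroup M] [Module A M] (n : ℕ) : Prop :=
  HasProjectiveDimensionLT (ModuleCat.of A M) n

/-- injective dimension less than `n` -/
abbrev IDLT (A M : Type) [Ring A] [AddCommGroup M] [Module A M] (n : ℕ) : Prop :=
  HasInjectiveDimensionLT (ModuleCat.of A M) n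

/-- the map `β ↦ (∑ u, β u * τ (w t u))_t` of free left modules over `B` -/
def mat {A B : Type} [Ring A] [Ring B] (τ : Anti A B) {r s : ℕ} (w : Fin s → Fin r → A) :
    (Fin r → B) →ₗ[B] (Fin s → B) where
  toFun β t := ∑ u, β u * τ.f (w t u)
  map_add' β γ := by
    funext t
    simp [add_mul, Finset.sum_add_distrib]
  map_smul' b β := by
    funext t
    simp [mul_assoc, Finset.mul_sum]

/-- `Chain A j N Q`: the module `Q` is the `j`-th cosyzygy of `N` in an exact sequence
`0 → N → A^{s₁} → ⋯ → A^{s_j} → Q → 0`. -/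
def Chain (A : Type) [Ring A] : ℕ → ModuleCat.{0} A → ModuleCat.{0} A → Prop
  | 0, N, Q => Nonempty (N ≃ₗ[A] Q)
  | j + 1, N, Q => ∃ (s : ℕ) (i : N →ₗ[A] (Fin s → A)), Function.Injective i ∧
      Chain A j (ModuleCat.of A ((Fin s → A) ⧸ LinearMap.range i)) Q

/-- the trivial module: `k` with `A` acting through a character `χ` -/
def Tr {k A : Type} [Field k] [Ring A] (_ : A →+* k) : Type := k

noncomputable instance {k A : Type} [Field k] [Ring A] (χ : A →+* k) : AddCommGroup (Tr χ) :=
  inferInstanceAs (AddCommGroup k)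

noncomputable instance {k A : Type} [Field k] [Ring A] (χ : A →+* k) : Module A (Tr χ) :=
  Module.compHom k χ

noncomputable instance {k A : Type} [Field k] [Ring A] (χ : A →+* k) : Module k (Tr χ) :=
  inferInstanceAs (Module k k)

/-- the counit as a ring homomorphism -/
noncomputable abbrev eps (k A : Type) [Field k] [Ring A] [HopfAlgebra k A] : A →+* k :=
  (Bialgebra.counitAlgHom k A : A →ₐ[k] k).toRingHom

/-! ### Statements of tasks -/

/-- Task Q. A presentation `A^s → A^r → K → 0` (with matrix `w`), dualized. -/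
def TaskQ : Prop :=
  ∀ (A B : Type) [Ring A] [Ring B] (τ : Anti A B) [IsNoetherianRing A] (j : ℕ)
    (K : Type) [AddCommGroup K] [Module A K] (r : ℕ) (v : Fin r → K),
    Submodule.span A (Set.range v) = ⊤ →
    (∀ i, 1 ≤ i → i ≤ j → Subsingleton (E A K A i)) →
    ∀ (s : ℕ) (w : Fin s → Fin r → A),
      Submodule.span A (Set.range w) = LinearMap.ker (Fintype.linearCombination A v) →
      ∃ Q : ModuleCat.{0} B,
        Chain B j (ModuleCat.of B ((Fin s → B) ⧸ LinearMap.range (mat τ w))) Q ∧
        ∃ ι : E A K A (j + 1) →+ Q, Function.Injective ι ∧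
          ∀ (a : A) (ξ : E A K A (j + 1)), ι (post (rm a) ξ) = τ.f a • ι ξ

/-- Task P. The pairing between the two sides. -/
def TaskP : Prop :=
  ∀ (A B : Type) [Ring A] [Ring B] (τ : Anti A B) [IsNoetherianRing A] (n : ℕ)
    (V : Type) [AddCommGroup V] [Module A V] [Module.Finite A V]
    (M : Type) [AddCommGroup M] [Module B M],
    (∀ i, i < n → Subsingleton (E A V A i)) →
    (∀ i, i < n → Subsingleton (E B M B i)) →
    ∀ φ : V →+ E B M B n, (∀ (a : A) (v : V), φ (a • v) = post (rm (τ.f a)) (φ v)) → φ ≠ 0 →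
      ∃ Q : ModuleCat.{0} B, HasProjectiveDimensionLT Q (n + 1) ∧ ∃ f : M →ₗ[B] Q, f ≠ 0

/-- Task T. A module of finite projective dimension with a nonzero finite-dimensional
submodule bounds the projective dimension of all injective modules. -/
def TaskT : Prop :=
  ∀ (k B : Type) [Field k] [Ring B] [HopfAlgebra k B] (n : ℕ)
    (Q : Type) [AddCommGroup Q] [Module B Q] [Module k Q] [IsScalarTower k B Q],
    PDLT B Q (n + 1) →
    ∀ U : Submodule B Q, U ≠ ⊥ → FiniteDimensional k U →
    ∀ (I : Type) [AddCommGroup I] [Module B I], Module.Injective B I → PDLT B I (n + 1)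

/-- Task I. If all injective right modules have projective dimension at most `n`, then the
left module `A` has injective dimension at most `n`. -/
def TaskI : Prop :=
  ∀ (k A B : Type) [Field k] [Ring A] [Algebra k A] [Ring B] [Algebra k B] (τ : Anti A B),
    (∀ (c : k) (a : A), τ.f (c • a) = c • τ.f a) → IsNoetherianRing A →
    ∀ n : ℕ, (∀ (I : Type) [AddCommGroup I] [Module B I], Module.Injective B I →
      PDLT B I (n + 1)) → IDLT A A (n + 1)

/-- Task D. The dimension formula. -/
def TaskD : Prop :=
  ∀ (k B : Type) [Field k] [Ring B] [HopfAlgebra k B]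
    (U : Type) [AddCommGroup U] [Module B U] [Module k U] [IsScalarTower k B U]
    [FiniteDimensional k U] (n : ℕ),
    Nonempty (E B U B n ≃ₗ[k] (Fin (Module.finrank k U) → E B (Tr (eps k B)) B n))

/-- the action of `A ⊗ B` on `A` by left multiplication and (through `τ`) right multiplication -/
noncomputable def regHom {k A B : Type} [Field k] [Ring A] [Algebra k A] [Ring B] [Algebra k B]
    (τ : Anti A B) (hτ : ∀ (c : k) (a : A), τ.f (c • a) = c • τ.f a) :
    A ⊗[k] B →ₐ[k] Module.End k A :=
  Algebra.TensorProduct.lift (Algebra.lmul k A)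
    (AlgHom.ofLinearMap
      { toFun := fun b => LinearMap.mulRight k (τ.symm.f b)
        map_add' := fun b c => by ext; simp [mul_add]
        map_smul' := fun c b => by
          have h : τ.symm.f (c • b) = c • τ.symm.f b := by
            apply τ.f.injective
            rw [hτ]
            simp [Anti.symm]
          ext; simp [h] }
      (by ext; simp [Anti.one τ.symm])
      (fun b c => by ext; simp [τ.symm.mul, mul_assoc]))
    (fun a b => by
      rw [commute_iff_eq]
      ext x
      simp [mul_assoc])

theorem regHom_tmul {k A B : Type} [Field k] [Ring A] [Algebra k A] [Ring B] [Algebra k B]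
    (τ : Anti A B) (hτ : ∀ (c : k) (a : A), τ.f (c • a) = c • τ.f a) (a : A) (b : B) (x : A) :
    regHom τ hτ (a ⊗ₜ[k] b) x = a * (x * τ.symm.f b) := by
  rw [regHom, Algebra.TensorProduct.lift_tmul]
  rfl

/-- the regular bimodule `A` as a left module over `A ⊗ B` -/
def Reg {k A B : Type} [Field k] [Ring A] [Algebra k A] [Ring B] [Algebra k B]
    (τ : Anti A B) (_ : ∀ (c : k) (a : A), τ.f (c • a) = c • τ.f a) : Type := A

noncomputable instance {k A B : Type} [Field k] [Ring A] [Algebra k A] [Ring B] [Algebra k B]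
    (τ : Anti A B) (hτ : ∀ (c : k) (a : A), τ.f (c • a) = c • τ.f a) :
    AddCommGroup (Reg τ hτ) :=
  inferInstanceAs (AddCommGroup A)

noncomputable instance {k A B : Type} [Field k] [Ring A] [Algebra k A] [Ring B] [Algebra k B]
    (τ : Anti A B) (hτ : ∀ (c : k) (a : A), τ.f (c • a) = c • τ.f a) :
    Module (A ⊗[k] B) (Reg τ hτ) :=
  letI : Module (Module.End k A) (Reg τ hτ) := inferInstanceAs (Module (Module.End k A) A)
  Module.compHom (Reg τ hτ) (regHom τ hτ).toRingHom

/-- Task S0. Ext with values in free modules of arbitrary rank. -/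
def TaskS0 : Prop :=
  ∀ (A : Type) [Ring A] [IsNoetherianRing A] (K : Type) [AddCommGroup K] [Module A K]
    [Module.Finite A K] (ι : Type) [Nonempty ι] (i : ℕ),
    Subsingleton (E A K A i) ↔ Subsingleton (E A K (ι →₀ A) i)

/-- Task S1. The groups `Ext_A(k, A)` and `Ext_{A ⊗ B}(A, A ⊗ B)`. -/
def TaskS1 : Prop :=
  ∀ (k A B : Type) [Field k] [Ring A] [HopfAlgebra k A] [Ring B] [Algebra k B]
    (τ : Anti A B) (hτ : ∀ (c : k) (a : A), τ.f (c • a) = c • τ.f a) (i : ℕ),
    ∃ (ι : Type) (_ : Nonempty ι),
      (Subsingleton (E A (Tr (eps k A)) (ι →₀ A) i) ↔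
        Subsingleton (E (A ⊗[k] B) (Reg τ hτ) (A ⊗[k] B) i))

/-- Task S2. Transport of Ext along isomorphisms of rings. -/
def TaskS2 : Prop :=
  ∀ (R S : Type) [Ring R] [Ring S] (σ : R ≃+* S)
    (M : Type) [AddCommGroup M] [Module R M] (M' : Type) [AddCommGroup M'] [Module S M']
    (N : Type) [AddCommGroup N] [Module R N] (N' : Type) [AddCommGroup N'] [Module S N']
    (f : M ≃+ M') (g : N ≃+ N'),
    (∀ (r : R) (x : M), f (r • x) = σ r • f x) → (∀ (r : R) (x : N), g (r • x) = σ r • g x) →
    ∀ i : ℕ, Subsingleton (E R M N i) ↔ Subsingleton (E S M' N' i)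

/-- Task S. Symmetry of the vanishing. -/
def TaskS : Prop :=
  ∀ (k A B : Type) [Field k] [Ring A] [HopfAlgebra k A] [Ring B] [HopfAlgebra k B]
    (τ : Anti A B), (∀ (c : k) (a : A), τ.f (c • a) = c • τ.f a) →
    IsNoetherianRing A → IsNoetherianRing B →
    (∀ i : ℕ, Subsingleton (E A (Tr (eps k A)) A i) ↔ Subsingleton (E B (Tr (eps k B)) B i))

end Pool.Agent.Helper377_AG
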