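import Mathlib

/-!
The opposite co-opposite Hopf algebra.
-/

set_option autoImplicit false

open scoped TensorProduct

namespace Pool.Agent.Helper377_AG

section
variable (k H : Type) [Field k] [Ring H] [HopfAlgebra k H]

/-- the identity map to the opposite ring, linear over `k` -/
noncomputable abbrev opl : H ≃ₗ[k] Hᵐᵒᵖ := MulOpposite.opLinearEquiv k

/-- `a ⊗ b ↦ op b ⊗ op a` -/
noncomputable def opsw : H ⊗[k] H ≃ₗ[k] Hᵐᵒᵖ ⊗[k] Hᵐᵒᵖ :=
  (TensorProduct.congr (opl k H) (opl k H)).trans (TensorProduct.comm k Hᵐᵒᵖ Hᵐᵒᵖ)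

theorem opsw_tmul (a b : H) : opsw k H (a ⊗ₜ[k] b) = MulOpposite.op b ⊗ₜ[k] MulOpposite.op a := rfl

theorem opsw_mul (s t : H ⊗[k] H) : opsw k H (s * t) = opsw k H t * opsw k H s := by
  induction s with
  | zero => simp
  | add x y hx hy => simp only [add_mul, mul_add, map_add, hx, hy]
  | tmul a b =>
    induction t with
    | zero => simp
    | add x y hx hy => simp only [add_mul, mul_add, map_add, hx, hy]
    | tmul c d =>
      rw [Algebra.TensorProduct.tmul_mul_tmul, opsw_tmul, opsw_tmul, opsw_tmul,
        Algebra.TensorProduct.tmul_mul_tmul]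
      rfl

/-- the coproduct -/
noncomputable def ocomul : Hᵐᵒᵖ →ₗ[k] Hᵐᵒᵖ ⊗[k] Hᵐᵒᵖ :=
  (opsw k H).toLinearMap ∘ₗ Coalgebra.comul ∘ₗ (opl k H).symm.toLinearMap

/-- the counit -/
noncomputable def ocounit : Hᵐᵒᵖ →ₗ[k] k := Coalgebra.counit ∘ₗ (opl k H).symm.toLinearMap

theorem ocomul_op (h : H) : ocomul k H (MulOpposite.op h) = opsw k H (Coalgebra.comul h) := rfl

theorem ocounit_op (h : H) : ocounit k H (MulOpposite.op h) = Coalgebra.counit h := rfl

/-- reversal of three factors -/
noncomputable def rev3 : H ⊗[k] (H ⊗[k] H) ≃ₗ[k] Hᵐᵒᵖ ⊗[k] (Hᵐᵒᵖ ⊗[k] Hᵐᵒᵖ) :=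
  (TensorProduct.congr (opl k H) (opsw k H)).trans
    ((TensorProduct.comm k Hᵐᵒᵖ (Hᵐᵒᵖ ⊗[k] Hᵐᵒᵖ)).trans (TensorProduct.assoc k _ _ _))

theorem assoc_r (t : H ⊗[k] H) :
    TensorProduct.assoc k _ _ _ (LinearMap.rTensor Hᵐᵒᵖ (ocomul k H) (opsw k H t)) =
      rev3 k H (LinearMap.lTensor H Coalgebra.comul t) := by
  induction t with
  | zero => simp
  | add x y hx hy => simp only [map_add, hx, hy]
  | tmul a b =>
    rw [opsw_tmul, LinearMap.rTensor_tmul, ocomul_op, LinearMap.lTensor_tmul]
    rfl

theorem lten (t : H ⊗[k] H) :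
    LinearMap.lTensor Hᵐᵒᵖ (ocomul k H) (opsw k H t) =
      rev3 k H (TensorProduct.assoc k _ _ _ (LinearMap.rTensor H Coalgebra.comul t)) := by
  induction t with
  | zero => simp
  | add x y hx hy => simp only [map_add, hx, hy]
  | tmul a b =>
    rw [opsw_tmul, LinearMap.lTensor_tmul, ocomul_op, LinearMap.rTensor_tmul]
    generalize (Coalgebra.comul a : H ⊗[k] H) = s
    induction s with
    | zero => simp
    | add x y hx hy =>
      simp only [map_add, TensorProduct.tmul_add, TensorProduct.add_tmul, hx, hy]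
    | tmul p q => rfl

/-- the opposite co-opposite coalgebra -/
@[reducible] noncomputable def opCopCoalg : Coalgebra k Hᵐᵒᵖ where
  comul := ocomul k H
  counit := ocounit k H
  coassoc := by
    ext h
    induction h using MulOpposite.rec'
    rename_i h
    change TensorProduct.assoc k _ _ _ (LinearMap.rTensor Hᵐᵒᵖ (ocomul k H)
      (ocomul k H (MulOpposite.op h))) =
      LinearMap.lTensor Hᵐᵒᵖ (ocomul k H) (ocomul k H (MulOpposite.op h))
    rw [ocomul_op, assoc_r, lten, Coalgebra.coassoc_apply]
  rTensor_counit_comp_comul := by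
    ext h
    induction h using MulOpposite.rec'
    rename_i h
    change LinearMap.rTensor Hᵐᵒᵖ (ocounit k H) (ocomul k H (MulOpposite.op h)) =
      1 ⊗ₜ[k] MulOpposite.op h
    have key : ∀ t : H ⊗[k] H, LinearMap.rTensor Hᵐᵒᵖ (ocounit k H) (opsw k H t) =
        TensorProduct.comm k Hᵐᵒᵖ k (LinearMap.rTensor k (opl k H).toLinearMap
          (LinearMap.lTensor H Coalgebra.counit t)) := by
      intro t
      induction t with
      | zero => simp
      | add x y hx hy => simp only [map_add, hx, hy]
      | tmul a b => rfl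
    rw [ocomul_op, key, Coalgebra.lTensor_counit_comul]
    rfl
  lTensor_counit_comp_comul := by
    ext h
    induction h using MulOpposite.rec'
    rename_i h
    change LinearMap.lTensor Hᵐᵒᵖ (ocounit k H) (ocomul k H (MulOpposite.op h)) =
      MulOpposite.op h ⊗ₜ[k] 1
    have key : ∀ t : H ⊗[k] H, LinearMap.lTensor Hᵐᵒᵖ (ocounit k H) (opsw k H t) =
        TensorProduct.comm k k Hᵐᵒᵖ (LinearMap.lTensor k (opl k H).toLinearMap
          (LinearMap.rTensor H Coalgebra.counit t)) := by
      intro t
      induction t with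
      | zero => simp
      | add x y hx hy => simp only [map_add, hx, hy]
      | tmul a b => rfl
    rw [ocomul_op, key, Coalgebra.rTensor_counit_comul]
    rfl

/-- the opposite co-opposite bialgebra -/
@[reducible] noncomputable def opCopBialg : Bialgebra k Hᵐᵒᵖ :=
  letI := opCopCoalg k H
  { toAlgebra := inferInstance
    toCoalgebra := opCopCoalg k H
    counit_one := by
      change ocounit k H (MulOpposite.op 1) = 1
      rw [ocounit_op, Bialgebra.counit_one]
    mul_compr₂_counit := by
      ext a b
      induction a using MulOpposite.rec'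
      induction b using MulOpposite.rec'
      rename_i a b
      change ocounit k H (MulOpposite.op (b * a)) =
        ocounit k H (MulOpposite.op a) * ocounit k H (MulOpposite.op b)
      rw [ocounit_op, ocounit_op, ocounit_op, Bialgebra.counit_mul, mul_comm]
    comul_one := by
      change ocomul k H (MulOpposite.op 1) = 1
      rw [ocomul_op, Bialgebra.comul_one]
      rfl
    mul_compr₂_comul := by
      ext a b
      induction a using MulOpposite.rec'
      induction b using MulOpposite.rec'
      rename_i a b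
      change ocomul k H (MulOpposite.op (b * a)) =
        ocomul k H (MulOpposite.op a) * ocomul k H (MulOpposite.op b)
      rw [ocomul_op, ocomul_op, ocomul_op, Bialgebra.comul_mul, opsw_mul] }

/-- the antipode -/
noncomputable def oan : Hᵐᵒᵖ →ₗ[k] Hᵐᵒᵖ :=
  (opl k H).toLinearMap ∘ₗ HopfAlgebra.antipode k ∘ₗ (opl k H).symm.toLinearMap

/-- the opposite co-opposite Hopf algebra -/
@[reducible] noncomputable def opCop : HopfAlgebra k Hᵐᵒᵖ :=
  letI := opCopBialg k H
  { antipode := oan k H
    mul_antipode_rTensor_comul := by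
      ext h
      induction h using MulOpposite.rec'
      rename_i h
      change LinearMap.mul' k Hᵐᵒᵖ (LinearMap.rTensor Hᵐᵒᵖ (oan k H)
        (ocomul k H (MulOpposite.op h))) = algebraMap k Hᵐᵒᵖ (ocounit k H (MulOpposite.op h))
      have key : ∀ t : H ⊗[k] H, LinearMap.mul' k Hᵐᵒᵖ (LinearMap.rTensor Hᵐᵒᵖ (oan k H)
          (opsw k H t)) = MulOpposite.op (LinearMap.mul' k H
            (LinearMap.lTensor H (HopfAlgebra.antipode k) t)) := by
        intro t
        induction t with
        | zero => simp
        | add x y hx hy => simp only [map_add, hx, hy, MulOpposite.op_add]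
        | tmul a b => rfl
      rw [ocomul_op, key, HopfAlgebra.mul_antipode_lTensor_comul_apply]
      rfl
    mul_antipode_lTensor_comul := by
      ext h
      induction h using MulOpposite.rec'
      rename_i h
      change LinearMap.mul' k Hᵐᵒᵖ (LinearMap.lTensor Hᵐᵒᵖ (oan k H)
        (ocomul k H (MulOpposite.op h))) = algebraMap k Hᵐᵒᵖ (ocounit k H (MulOpposite.op h))
      have key : ∀ t : H ⊗[k] H, LinearMap.mul' k Hᵐᵒᵖ (LinearMap.lTensor Hᵐᵒᵖ (oan k H)
          (opsw k H t)) = MulOpposite.op (LinearMap.mul' k H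
            (LinearMap.rTensor H (HopfAlgebra.antipode k) t)) := by
        intro t
        induction t with
        | zero => simp
        | add x y hx hy => simp only [map_add, hx, hy, MulOpposite.op_add]
        | tmul a b => rfl
      rw [ocomul_op, key, HopfAlgebra.mul_antipode_rTensor_comul_apply]
      rfl }

end

end Pool.Agent.Helper377_AG
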