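import Pool.Agent.Helper377_AG.Main
import Pool.Agent.Helper377_AG.OpCop

/-!
The criterion in terms of objects of module categories.
-/

set_option autoImplicit false

open CategoryTheory
open scoped TensorProduct

namespace Pool.Agent.Helper377_AG

open Pool.Agent.Helper202_BG

section cat
variable (k : Type) [Field k] {A : Type} [Ring A] [Algebra k A]

/-- (AS1) and (AS2) with `d` -/
def ASG (T R : ModuleCat.{0} A) (d : ℕ) : Prop :=
  injectiveDimension R = d ∧ Module.finrank k (Abelian.Ext.{0} T R d) = 1 ∧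
    ∀ i : ℕ, i ≠ d → Subsingleton (Abelian.Ext.{0} T R i)

/-- The first nonzero Ext group has a nonzero finite-dimensional stable subspace. -/
def Crit (T R : ModuleCat.{0} A) (n : ℕ) : Prop :=
  (∀ i : ℕ, i < n → Subsingleton (Abelian.Ext.{0} T R i)) ∧
    ∃ U : Submodule k (Abelian.Ext.{0} T R n), U ≠ ⊥ ∧ FiniteDimensional k U ∧
      ∀ (g : R ⟶ R) (ξ : Abelian.Ext.{0} T R n), ξ ∈ U →
        ξ.comp (Abelian.Ext.mk₀ g) (add_zero n) ∈ U

variable {k}

/-- transport of Ext along isomorphisms -/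
noncomputable def extIso (k : Type) [Field k] {A : Type} [Ring A] [Algebra k A]
    {T T' R R' : ModuleCat.{0} A} (eT : T ≅ T') (eR : R ≅ R') (n : ℕ) :
    Abelian.Ext.{0} T R n ≃ₗ[k] Abelian.Ext.{0} T' R' n where
  toFun ξ := (Abelian.Ext.mk₀ eT.inv).comp (ξ.comp (Abelian.Ext.mk₀ eR.hom) (add_zero n))
    (zero_add n)
  invFun ξ := (Abelian.Ext.mk₀ eT.hom).comp (ξ.comp (Abelian.Ext.mk₀ eR.inv) (add_zero n))
    (zero_add n)
  map_add' ξ η := by simp
  map_smul' c ξ := by simp
  left_inv ξ := by simp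
  right_inv ξ := by simp

theorem ASG.iso {T T' R R' : ModuleCat.{0} A} (eT : T ≅ T') (eR : R ≅ R') {d : ℕ}
    (h : ASG k T R d) : ASG k T' R' d := by
  obtain ⟨h1, h2, h3⟩ := h
  refine ⟨by rw [← injectiveDimension_eq_of_iso eR, h1], ?_, ?_⟩
  · rw [← (extIso k eT eR d).finrank_eq, h2]
  · intro i hi
    have := h3 i hi
    exact (extIso k eT eR i).symm.toEquiv.subsingleton

theorem Crit.iso {T T' R R' : ModuleCat.{0} A} (eT : T ≅ T') (eR : R ≅ R') {n : ℕ}
    (h : Crit k T R n) : Crit k T' R' n := by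
  obtain ⟨h1, U, hU0, hUf, hU⟩ := h
  refine ⟨fun i hi => ?_, U.map (extIso k eT eR n).toLinearMap, ?_, ?_, ?_⟩
  · have := h1 i hi
    exact (extIso k eT eR i).symm.toEquiv.subsingleton
  · exact ((Submodule.map_injective_of_injective (extIso k eT eR n).injective).ne_iff'
      (Submodule.map_bot _)).2 hU0
  · infer_instance
  · rintro g _ ⟨ξ, hξ, rfl⟩
    refine ⟨_, hU (eR.hom ≫ g ≫ eR.inv) ξ hξ, ?_⟩
    simp [extIso]

end cat

section pair
variable {k A B : Type} [Field k] [Ring A] [HopfAlgebra k A] [Ring B] [HopfAlgebra k B]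
variable (τ : Anti A B) (hτ : ∀ (c : k) (a : A), τ.f (c • a) = c • τ.f a)

/-- the trivial object -/
noncomputable abbrev TrO (k A : Type) [Field k] [Ring A] [HopfAlgebra k A] : ModuleCat.{0} A :=
  ModuleCat.of A (Tr (eps k A))

theorem asg_crit {T R : ModuleCat.{0} A} {d : ℕ} (h : ASG k T R d) : Crit k T R d := by
  obtain ⟨-, h2, h3⟩ := h
  refine ⟨fun i hi => h3 i hi.ne, ⊤, ?_, ?_, fun _ _ _ => Submodule.mem_top⟩
  · have : Nontrivial (Abelian.Ext.{0} T R d) := Module.nontrivial_of_finrank_pos (R := k) (by omega)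
    exact top_ne_bot
  · have : FiniteDimensional k (Abelian.Ext.{0} T R d) :=
      Module.finite_of_finrank_pos (by omega)
    infer_instance

include hτ in
theorem crit_main (hA : IsNoetherianRing A) (hB : IsNoetherianRing B) (n : ℕ)
    (h : Crit k (TrO k A) (ModuleCat.of A A) n) :
    ASG k (TrO k A) (ModuleCat.of A A) n ∧ ASG k (TrO k B) (ModuleCat.of B B) n := by
  obtain ⟨hX, U, hU0, hUf, hU⟩ := h
  obtain ⟨hA1, hB1, hY, hYn⟩ := main_pair τ hτ hA hB n hX U hU0 hUf
    (fun a ξ hξ => hU (ModuleCat.ofHom (rm a)) ξ hξ)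
  have hYf : FiniteDimensional k (E B (Tr (eps k B)) B n) :=
    Module.finite_of_finrank_pos (by omega)
  have hYnt : Nontrivial (E B (Tr (eps k B)) B n) :=
    Module.nontrivial_of_finrank_pos (R := k) (by omega)
  obtain ⟨-, -, -, hXn⟩ := main_pair τ.symm (anti_symm_smul τ hτ) hB hA n hY ⊤ top_ne_bot
    inferInstance (fun _ _ _ => Submodule.mem_top)
  have hXnt : Nontrivial (E A (Tr (eps k A)) A n) :=
    Module.nontrivial_of_finrank_pos (R := k) (by omega)
  refine ⟨⟨?_, hXn, ?_⟩, ⟨?_, hYn, ?_⟩⟩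
  · apply le_antisymm
    · exact (injectiveDimension_le_iff _ n).2 hA1
    · rw [injectiveDimension_ge_iff]
      intro hc
      have := HasInjectiveDimensionLT.subsingleton (ModuleCat.of A A) n n le_rfl (TrO k A)
      exact (not_subsingleton_iff_nontrivial.2 hXnt) this
  · intro i hi
    rcases lt_or_gt_of_ne hi with h | h
    · exact hX i h
    · exact HasInjectiveDimensionLT.subsingleton (ModuleCat.of A A) (n + 1) i h (TrO k A)
  · apply le_antisymm
    · exact (injectiveDimension_le_iff _ n).2 hB1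
    · rw [injectiveDimension_ge_iff]
      intro hc
      have := HasInjectiveDimensionLT.subsingleton (ModuleCat.of B B) n n le_rfl (TrO k B)
      exact (not_subsingleton_iff_nontrivial.2 hYnt) this
  · intro i hi
    rcases lt_or_gt_of_ne hi with h | h
    · exact hY i h
    · exact HasInjectiveDimensionLT.subsingleton (ModuleCat.of B B) (n + 1) i h (TrO k B)

include hτ in
theorem tfae_pair (hA : IsNoetherianRing A) (hB : IsNoetherianRing B) (n : ℕ) :
    List.TFAE [
      ASG k (TrO k A) (ModuleCat.of A A) n ∧ ASG k (TrO k B) (ModuleCat.of B B) n,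
      ASG k (TrO k A) (ModuleCat.of A A) n,
      ASG k (TrO k B) (ModuleCat.of B B) n,
      Crit k (TrO k A) (ModuleCat.of A A) n,
      Crit k (TrO k B) (ModuleCat.of B B) n] := by
  tfae_have 1 → 2 := fun h => h.1
  tfae_have 1 → 3 := fun h => h.2
  tfae_have 2 → 4 := asg_crit
  tfae_have 3 → 5 := asg_crit
  tfae_have 4 → 1 := crit_main τ hτ hA hB n
  tfae_have 5 → 1 := fun h => (crit_main τ.symm (anti_symm_smul τ hτ) hB hA n h).symm
  tfae_finish

end pair

end Pool.Agent.Helper377_AG
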