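import Pool.Agent.Helper377_AG.Defs
import Pool.Agent.Helper377_AG.Adj
import Pool.Agent.Helper202_BG.Ten

/-!
Tensor products and spaces of linear maps of modules over a Hopf algebra.
-/

set_option autoImplicit false

open CategoryTheory
open scoped TensorProduct

namespace Pool.Agent.Helper377_AG

open Pool.Agent.Helper202_BG

section ids
variable (k A : Type) [Field k] [Ring A] [HopfAlgebra k A]

/-- the coproduct -/
noncomputable abbrev cop : A →ₐ[k] A ⊗[k] A := Bialgebra.comulAlgHom k A

/-- the antipode -/
noncomputable abbrev an : A →ₗ[k] A := HopfAlgebra.antipode k (A := A)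

/-- `a ⊗ b ↦ a₁ ⊗ a₂ b` -/
noncomputable def mulR : A ⊗[k] A →ₗ[k] A ⊗[k] A :=
  LinearMap.lTensor A (LinearMap.mul' k A) ∘ₗ
    (TensorProduct.assoc k A A A).toLinearMap ∘ₗ LinearMap.rTensor A (cop k A).toLinearMap

/-- `a ⊗ b ↦ a₁ ⊗ S(a₂) b` -/
noncomputable def mulL : A ⊗[k] A →ₗ[k] A ⊗[k] A :=
  LinearMap.lTensor A (LinearMap.mul' k A ∘ₗ LinearMap.rTensor A (an k A)) ∘ₗ
    (TensorProduct.assoc k A A A).toLinearMap ∘ₗ LinearMap.rTensor A (cop k A).toLinearMap

theorem mulR_tmul (a b : A) : mulR k A (a ⊗ₜ[k] b) = cop k A a * (1 ⊗ₜ[k] b) := by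
  rw [mulR, LinearMap.comp_apply, LinearMap.comp_apply, LinearMap.rTensor_tmul]
  change (LinearMap.lTensor A (LinearMap.mul' k A))
    ((TensorProduct.assoc k A A A) (cop k A a ⊗ₜ[k] b)) = _
  generalize cop k A a = t
  induction t with
  | zero => simp
  | add x y hx hy => simp only [TensorProduct.add_tmul, map_add, hx, hy, add_mul]
  | tmul p q => simp

theorem mulL_tmul (a b : A) :
    mulL k A (a ⊗ₜ[k] b) = LinearMap.lTensor A (an k A) (cop k A a) * (1 ⊗ₜ[k] b) := by
  rw [mulL, LinearMap.comp_apply, LinearMap.comp_apply, LinearMap.rTensor_tmul]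
  change (LinearMap.lTensor A (LinearMap.mul' k A ∘ₗ LinearMap.rTensor A (an k A)))
    ((TensorProduct.assoc k A A A) (cop k A a ⊗ₜ[k] b)) = _
  generalize cop k A a = t
  induction t with
  | zero => simp
  | add x y hx hy => simp only [TensorProduct.add_tmul, map_add, hx, hy, add_mul]
  | tmul p q => simp

theorem assoc_cop (x : A) :
    (TensorProduct.assoc k A A A) (LinearMap.rTensor A (cop k A).toLinearMap (cop k A x)) =
      LinearMap.lTensor A (cop k A).toLinearMap (cop k A x) :=
  Coalgebra.coassoc_apply x

theorem lTensor_counit (x : A) :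
    LinearMap.lTensor A (Algebra.linearMap k A ∘ₗ Coalgebra.counit) (cop k A x) = x ⊗ₜ[k] 1 := by
  rw [LinearMap.lTensor_comp, LinearMap.comp_apply]
  have := Coalgebra.lTensor_counit_comul (R := k) x
  change LinearMap.lTensor A Coalgebra.counit (cop k A x) = _ at this
  rw [this]
  simp

/-- `a₁ ⊗ a₂ S(a₃) = a ⊗ 1` -/
theorem mulR_cop (x : A) :
    mulR k A (LinearMap.lTensor A (an k A) (cop k A x)) = x ⊗ₜ[k] 1 := by
  have h1 : ∀ t : A ⊗[k] A, mulR k A (LinearMap.lTensor A (an k A) t) =
      LinearMap.lTensor A (LinearMap.mul' k A ∘ₗ LinearMap.lTensor A (an k A))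
        ((TensorProduct.assoc k A A A) (LinearMap.rTensor A (cop k A).toLinearMap t)) := by
    intro t
    induction t with
    | zero => simp
    | add x y hx hy => simp only [map_add, hx, hy]
    | tmul p q =>
      rw [LinearMap.lTensor_tmul, mulR_tmul, LinearMap.rTensor_tmul]
      change cop k A p * (1 ⊗ₜ[k] an k A q) =
        (LinearMap.lTensor A (LinearMap.mul' k A ∘ₗ LinearMap.lTensor A (an k A)))
          ((TensorProduct.assoc k A A A) (cop k A p ⊗ₜ[k] q))
      generalize cop k A p = t
      induction t with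
      | zero => simp
      | add x y hx hy => simp only [TensorProduct.add_tmul, map_add, ← hx, ← hy, add_mul]
      | tmul p q => simp
  rw [h1, assoc_cop, ← LinearMap.comp_apply, ← LinearMap.lTensor_comp, LinearMap.comp_assoc]
  have h2 : LinearMap.mul' k A ∘ₗ LinearMap.lTensor A (an k A) ∘ₗ (cop k A).toLinearMap =
      Algebra.linearMap k A ∘ₗ Coalgebra.counit := HopfAlgebra.mul_antipode_lTensor_comul
  rw [h2, lTensor_counit]

/-- `a₁ ⊗ S(a₂) a₃ = a ⊗ 1` -/
theorem mulL_cop (x : A) : mulL k A (cop k A x) = x ⊗ₜ[k] 1 := by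
  rw [mulL, LinearMap.comp_apply, LinearMap.comp_apply]
  change LinearMap.lTensor A (LinearMap.mul' k A ∘ₗ LinearMap.rTensor A (an k A))
    ((TensorProduct.assoc k A A A) (LinearMap.rTensor A (cop k A).toLinearMap (cop k A x))) = _
  rw [assoc_cop, ← LinearMap.comp_apply, ← LinearMap.lTensor_comp, LinearMap.comp_assoc]
  have h2 : LinearMap.mul' k A ∘ₗ LinearMap.rTensor A (an k A) ∘ₗ (cop k A).toLinearMap =
      Algebra.linearMap k A ∘ₗ Coalgebra.counit := HopfAlgebra.mul_antipode_rTensor_comul
  rw [h2, lTensor_counit]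

end ids

section mods
variable (k A : Type) [Field k] [Ring A] [HopfAlgebra k A]
variable (M : Type) [AddCommGroup M] [Module A M] [Module k M] [IsScalarTower k A M]
variable (V : Type) [AddCommGroup V] [Module A V] [Module k V] [IsScalarTower k A V]
variable (N : Type) [AddCommGroup N] [Module A N] [Module k N] [IsScalarTower k A N]

/-- the diagonal action -/
noncomputable def tact : A →ₐ[k] Module.End k (M ⊗[k] V) := (op k A M V).comp (cop k A)

/-- the tensor product as a module over the Hopf algebra -/
def TP (k A M V : Type) [Field k] [Ring A] [HopfAlgebra k A] [AddCommGroup M] [Module A M]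
    [Module k M] [IsScalarTower k A M] [AddCommGroup V] [Module A V] [Module k V]
    [IsScalarTower k A V] : Type := M ⊗[k] V

noncomputable instance : AddCommGroup (TP k A M V) := inferInstanceAs (AddCommGroup (M ⊗[k] V))

noncomputable instance : Module k (TP k A M V) := inferInstanceAs (Module k (M ⊗[k] V))

noncomputable instance : Module A (TP k A M V) :=
  Module.compHom (M ⊗[k] V) (tact k A M V).toRingHom

/-- the identification with the tensor product -/
noncomputable def TP.mk : M ⊗[k] V ≃ₗ[k] TP k A M V := LinearEquiv.refl k (M ⊗[k] V)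

theorem TP.smul_mk (a : A) (x : M ⊗[k] V) :
    a • TP.mk k A M V x = TP.mk k A M V (op k A M V (cop k A a) x) := rfl

instance : IsScalarTower k A (TP k A M V) where
  smul_assoc c a x := by
    obtain ⟨x, rfl⟩ := (TP.mk k A M V).surjective x
    rw [TP.smul_mk, TP.smul_mk, map_smul, map_smul, LinearMap.smul_apply, map_smul]

/-- left multiplication on the space of linear maps -/
noncomputable def hL : A →ₐ[k] Module.End k (V →ₗ[k] N) :=
  AlgHom.ofLinearMap
    { toFun := fun a =>
        { toFun := fun f => (Algebra.lsmul k k N a) ∘ₗ f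
          map_add' := fun f g => by ext; simp
          map_smul' := fun c f => by ext x; exact smul_comm a c (f x) }
      map_add' := fun a b => by ext; simp
      map_smul' := fun c a => by ext; simp }
    (by ext; simp)
    (fun a b => by ext; simp)

/-- right multiplication through the antipode on the space of linear maps -/
noncomputable def hR : A →ₐ[k] Module.End k (V →ₗ[k] N) :=
  AlgHom.ofLinearMap
    { toFun := fun b =>
        { toFun := fun f => f ∘ₗ (Algebra.lsmul k k V (an k A b))
          map_add' := fun f g => by ext; simp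
          map_smul' := fun c f => by ext; simp }
      map_add' := fun a b => by ext; simp
      map_smul' := fun c a => by ext; simp }
    (by ext; simp)
    (fun a b => by ext; simp [HopfAlgebra.antipode_mul_antidistrib])

/-- the action of `A ⊗ A` on the space of linear maps -/
noncomputable def hop : A ⊗[k] A →ₐ[k] Module.End k (V →ₗ[k] N) :=
  Algebra.TensorProduct.lift (hL k A V N) (hR k A V N) (fun a b => by
    rw [commute_iff_eq]
    ext f v
    rfl)

theorem hop_tmul (a b : A) (f : V →ₗ[k] N) (v : V) :
    hop k A V N (a ⊗ₜ[k] b) f v = a • f (an k A b • v) := by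
  rw [hop, Algebra.TensorProduct.lift_tmul]
  rfl

/-- the space of linear maps as a module over the Hopf algebra -/
def HM (k A V N : Type) [Field k] [Ring A] [HopfAlgebra k A] [AddCommGroup V] [Module A V]
    [Module k V] [IsScalarTower k A V] [AddCommGroup N] [Module A N] [Module k N]
    [IsScalarTower k A N] : Type := V →ₗ[k] N

noncomputable instance : AddCommGroup (HM k A V N) := inferInstanceAs (AddCommGroup (V →ₗ[k] N))

noncomputable instance : Module k (HM k A V N) := inferInstanceAs (Module k (V →ₗ[k] N))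

noncomputable instance : Module A (HM k A V N) :=
  Module.compHom (V →ₗ[k] N) ((hop k A V N).comp (cop k A)).toRingHom

/-- the underlying linear map -/
noncomputable def HM.fn : HM k A V N ≃ₗ[k] (V →ₗ[k] N) := LinearEquiv.refl k (V →ₗ[k] N)

theorem HM.fn_smul (a : A) (f : HM k A V N) :
    HM.fn k A V N (a • f) = hop k A V N (cop k A a) (HM.fn k A V N f) := rfl

instance : IsScalarTower k A (HM k A V N) where
  smul_assoc c a x := by
    apply (HM.fn k A V N).injective
    rw [HM.fn_smul, map_smul, map_smul, map_smul, HM.fn_smul, LinearMap.smul_apply]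

variable {k A M V N}

/-- the evaluation `c ⊗ d ↦ c f(d v)` -/
noncomputable def kap (f : V →ₗ[k] N) (v : V) : A ⊗[k] A →ₗ[k] N :=
  TensorProduct.lift
    { toFun := fun c => (Algebra.lsmul k k N c) ∘ₗ f ∘ₗ
        ((LinearMap.toSpanSingleton A V v).restrictScalars k)
      map_add' := fun c d => by ext; simp
      map_smul' := fun c d => by ext; simp }

theorem kap_tmul (f : V →ₗ[k] N) (v : V) (c d : A) :
    kap f v (c ⊗ₜ[k] d) = c • f (d • v) := by
  simp [kap]

theorem hop_apply (t : A ⊗[k] A) (f : V →ₗ[k] N) (v : V) :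
    hop k A V N t f v = kap f v (LinearMap.lTensor A (an k A) t) := by
  induction t with
  | zero => simp
  | add x y hx hy => simp only [map_add, LinearMap.add_apply, hx, hy]
  | tmul a b => rw [hop_tmul, LinearMap.lTensor_tmul, kap_tmul]

theorem kap_lin (F : M ⊗[k] V →ₗ[k] N)
    (hF : ∀ (a : A) (x : M ⊗[k] V), F (op k A M V (cop k A a) x) = a • F x) (m : M) (v : V)
    (t : A ⊗[k] A) :
    kap (F ∘ₗ TensorProduct.mk k M V m) v t = F (op k A M V (mulR k A t) (m ⊗ₜ[k] v)) := by
  induction t with
  | zero => simp
  | add x y hx hy => simp only [map_add, LinearMap.add_apply, hx, hy]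
  | tmul a b =>
    rw [kap_tmul, mulR_tmul, map_mul]
    change _ = F (op k A M V (cop k A a) (op k A M V (1 ⊗ₜ[k] b) (m ⊗ₜ[k] v)))
    rw [hF, op_tmul, one_smul]
    rfl

theorem kap_lin' (G : M →ₗ[k] (V →ₗ[k] N))
    (hG : ∀ (a : A) (m : M), G (a • m) = hop k A V N (cop k A a) (G m)) (m : M) (v : V)
    (t : A ⊗[k] A) :
    TensorProduct.lift G (op k A M V t (m ⊗ₜ[k] v)) = kap (G m) v (mulL k A t) := by
  induction t with
  | zero => simp
  | add x y hx hy => simp only [map_add, LinearMap.add_apply, hx, hy]
  | tmul a b =>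
    rw [op_tmul, TensorProduct.lift.tmul, hG, hop_apply, mulL_tmul]
    generalize LinearMap.lTensor A (an k A) (cop k A a) = t
    induction t with
    | zero => simp
    | add x y hx hy => simp only [map_add, add_mul, hx, hy]
    | tmul p q =>
      rw [Algebra.TensorProduct.tmul_mul_tmul, kap_tmul, kap_tmul, mul_one, mul_smul]

end mods

end Pool.Agent.Helper377_AG
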