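import Pool.Agent.Helper377_AG.Hopf

/-!
The adjunction between tensor products and spaces of linear maps over a Hopf algebra.
-/

set_option autoImplicit false

open CategoryTheory CategoryTheory.Limits
open scoped TensorProduct

namespace Pool.Agent.Helper377_AG

open Pool.Agent.Helper202_BG

section mods
variable {k A : Type} [Field k] [Ring A] [HopfAlgebra k A]
variable {M : Type} [AddCommGroup M] [Module A M] [Module k M] [IsScalarTower k A M]
variable {M' : Type} [AddCommGroup M'] [Module A M'] [Module k M'] [IsScalarTower k A M']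
variable {V : Type} [AddCommGroup V] [Module A V] [Module k V] [IsScalarTower k A V]
variable {N : Type} [AddCommGroup N] [Module A N] [Module k N] [IsScalarTower k A N]
variable {N' : Type} [AddCommGroup N'] [Module A N'] [Module k N'] [IsScalarTower k A N']

/-- pure tensors -/
noncomputable abbrev TP.tm (k A : Type) [Field k] [Ring A] [HopfAlgebra k A]
    {M : Type} [AddCommGroup M] [Module A M] [Module k M] [IsScalarTower k A M]
    {V : Type} [AddCommGroup V] [Module A V] [Module k V] [IsScalarTower k A V]
    (m : M) (v : V) : TP k A M V := TP.mk k A M V (m ⊗ₜ[k] v)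

theorem TP.hom_ext {F G : TP k A M V →ₗ[A] N}
    (h : ∀ (m : M) (v : V), F (TP.tm k A m v) = G (TP.tm k A m v)) : F = G := by
  have h1 : (F.restrictScalars k) ∘ₗ (TP.mk k A M V).toLinearMap =
      (G.restrictScalars k) ∘ₗ (TP.mk k A M V).toLinearMap :=
    TensorProduct.ext' h
  ext x
  obtain ⟨x, rfl⟩ := (TP.mk k A M V).surjective x
  exact LinearMap.congr_fun h1 x

theorem HM.ext {f g : HM k A V N} (h : ∀ v, HM.fn k A V N f v = HM.fn k A V N g v) : f = g :=
  (HM.fn k A V N).injective (LinearMap.ext h)

/-- currying -/
noncomputable def curryH (F : TP k A M V →ₗ[A] N) : M →ₗ[A] HM k A V N where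
  toFun m := (HM.fn k A V N).symm ((F.restrictScalars k ∘ₗ (TP.mk k A M V).toLinearMap) ∘ₗ
    TensorProduct.mk k M V m)
  map_add' m m' := by
    apply HM.ext
    intro v
    simp
  map_smul' a m := by
    apply HM.ext
    intro v
    rw [RingHom.id_apply, HM.fn_smul, LinearEquiv.apply_symm_apply, LinearEquiv.apply_symm_apply,
      hop_apply, kap_lin, mulR_cop, op_tmul, one_smul]
    · rfl
    · intro a x
      exact F.map_smul a (TP.mk k A M V x)

theorem curryH_apply (F : TP k A M V →ₗ[A] N) (m : M) (v : V) :
    HM.fn k A V N (curryH F m) v = F (TP.tm k A m v) := rfl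

/-- uncurrying -/
noncomputable def uncurryH (G : M →ₗ[A] HM k A V N) : TP k A M V →ₗ[A] N where
  toFun x := TensorProduct.lift ((HM.fn k A V N).toLinearMap ∘ₗ G.restrictScalars k)
    ((TP.mk k A M V).symm x)
  map_add' x y := by rw [map_add, map_add]
  map_smul' a x := by
    obtain ⟨x, rfl⟩ := (TP.mk k A M V).surjective x
    rw [RingHom.id_apply, TP.smul_mk, LinearEquiv.symm_apply_apply, LinearEquiv.symm_apply_apply]
    have h : TensorProduct.lift ((HM.fn k A V N).toLinearMap ∘ₗ G.restrictScalars k) ∘ₗ
        op k A M V (cop k A a) = (Algebra.lsmul k k N a) ∘ₗ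
          TensorProduct.lift ((HM.fn k A V N).toLinearMap ∘ₗ G.restrictScalars k) := by
      apply TensorProduct.ext'
      intro m v
      rw [LinearMap.comp_apply, kap_lin', mulL_cop, kap_tmul, one_smul]
      · rfl
      · intro a m
        change HM.fn k A V N (G (a • m)) = _
        rw [map_smul, HM.fn_smul]
        rfl
    exact LinearMap.congr_fun h x

theorem uncurryH_tm (G : M →ₗ[A] HM k A V N) (m : M) (v : V) :
    uncurryH G (TP.tm k A m v) = HM.fn k A V N (G m) v := by
  change TensorProduct.lift ((HM.fn k A V N).toLinearMap ∘ₗ G.restrictScalars k) (m ⊗ₜ[k] v) = _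
  rw [TensorProduct.lift.tmul]
  rfl

/-- the adjunction on homomorphisms -/
noncomputable def curryEquiv : (TP k A M V →ₗ[A] N) ≃ (M →ₗ[A] HM k A V N) where
  toFun := curryH
  invFun := uncurryH
  left_inv F := TP.hom_ext fun m v => by rw [uncurryH_tm, curryH_apply]
  right_inv G := by
    apply LinearMap.ext
    intro m
    apply HM.ext
    intro v
    rw [curryH_apply, uncurryH_tm]

/-- functoriality of the tensor product -/
noncomputable def TP.map (k : Type) {A : Type} [Field k] [Ring A] [HopfAlgebra k A]
    {M : Type} [AddCommGroup M] [Module A M] [Module k M] [IsScalarTower k A M]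
    {M' : Type} [AddCommGroup M'] [Module A M'] [Module k M'] [IsScalarTower k A M']
    (V : Type) [AddCommGroup V] [Module A V] [Module k V] [IsScalarTower k A V]
    (f : M →ₗ[A] M') : TP k A M V →ₗ[A] TP k A M' V where
  toFun x := TP.mk k A M' V (tmap f (LinearMap.id : V →ₗ[A] V) ((TP.mk k A M V).symm x))
  map_add' x y := by simp
  map_smul' a x := by
    obtain ⟨x, rfl⟩ := (TP.mk k A M V).surjective x
    rw [RingHom.id_apply, TP.smul_mk, LinearEquiv.symm_apply_apply, LinearEquiv.symm_apply_apply,
      tmap_op, TP.smul_mk]

theorem TP.map_tm (f : M →ₗ[A] M') (m : M) (v : V) :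
    TP.map k V f (TP.tm k A m v) = TP.tm k A (f m) v := by
  change TP.mk k A M' V (tmap f (LinearMap.id : V →ₗ[A] V) (m ⊗ₜ[k] v)) = _
  rw [tmap_tmul]
  rfl

/-- functoriality of the space of linear maps -/
noncomputable def HM.map (k : Type) {A : Type} [Field k] [Ring A] [HopfAlgebra k A]
    (V : Type) [AddCommGroup V] [Module A V] [Module k V] [IsScalarTower k A V]
    {N : Type} [AddCommGroup N] [Module A N] [Module k N] [IsScalarTower k A N]
    {N' : Type} [AddCommGroup N'] [Module A N'] [Module k N'] [IsScalarTower k A N']
    (g : N →ₗ[A] N') : HM k A V N →ₗ[A] HM k A V N' where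
  toFun f := (HM.fn k A V N').symm ((g.restrictScalars k) ∘ₗ (HM.fn k A V N f))
  map_add' x y := by
    apply HM.ext
    intro v
    simp
  map_smul' a f := by
    apply HM.ext
    intro v
    rw [RingHom.id_apply, HM.fn_smul, HM.fn_smul, LinearEquiv.apply_symm_apply,
      LinearEquiv.apply_symm_apply, LinearMap.comp_apply, hop_apply, hop_apply]
    generalize LinearMap.lTensor A (an k A) (cop k A a) = t
    induction t with
    | zero => simp
    | add x y hx hy => simp only [map_add, hx, hy]
    | tmul p q =>
      rw [kap_tmul, kap_tmul]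
      exact g.map_smul _ _

theorem HM.map_apply (g : N →ₗ[A] N') (f : HM k A V N) (v : V) :
    HM.fn k A V N' (HM.map k V g f) v = g (HM.fn k A V N f v) := rfl

end mods

section functors

open scoped ModuleCat

variable (k A : Type) [Field k] [Ring A] [HopfAlgebra k A]
variable (V : Type) [AddCommGroup V] [Module A V] [Module k V] [IsScalarTower k A V]

/-- the functor `- ⊗ V` -/
noncomputable def TF : ModuleCat.{0} A ⥤ ModuleCat.{0} A where
  obj M := ModuleCat.of A (TP k A M V)
  map f := ModuleCat.ofHom (TP.map k V f.hom)
  map_id M := by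
    apply ModuleCat.hom_ext
    exact TP.hom_ext fun m v => TP.map_tm _ m v
  map_comp {X Y Z} f g := by
    apply ModuleCat.hom_ext
    apply TP.hom_ext
    intro m v
    change TP.map k V (g.hom ∘ₗ f.hom) (TP.tm k A m v) = TP.map k V g.hom (TP.map k V f.hom (TP.tm k A m v))
    rw [TP.map_tm, TP.map_tm, TP.map_tm]
    rfl

/-- the functor `Hom_k(V, -)` -/
noncomputable def HF : ModuleCat.{0} A ⥤ ModuleCat.{0} A where
  obj N := ModuleCat.of A (HM k A V N)
  map f := ModuleCat.ofHom (HM.map k V f.hom)

/-- the adjunction -/
noncomputable def adjTH : TF k A V ⊣ HF k A V :=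
  Adjunction.mkOfHomEquiv
    { homEquiv := fun M N =>
        { toFun := fun F => ModuleCat.ofHom
            (curryEquiv (k := k) (A := A) (M := M) (V := V) (N := N) F.hom)
          invFun := fun G => ModuleCat.ofHom
            ((curryEquiv (k := k) (A := A) (M := M) (V := V) (N := N)).symm G.hom)
          left_inv := fun F => by
            apply ModuleCat.hom_ext
            exact (curryEquiv (k := k) (A := A) (M := M) (V := V) (N := N)).symm_apply_apply F.hom
          right_inv := fun G => by
            apply ModuleCat.hom_ext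
            exact (curryEquiv (k := k) (A := A) (M := M) (V := V) (N := N)).apply_symm_apply
              G.hom }
      homEquiv_naturality_left_symm := by
        intro M' M N f g
        apply ModuleCat.hom_ext
        apply TP.hom_ext
        intro m v
        change uncurryH (M := M') (V := V) (N := N) (g.hom ∘ₗ f.hom) (TP.tm k A m v) =
          uncurryH (M := M) (V := V) (N := N) g.hom (TP.map k V f.hom (TP.tm k A m v))
        rw [TP.map_tm, uncurryH_tm]
        exact (uncurryH_tm (k := k) (A := A) (V := V) (N := N) (g.hom : M →ₗ[A] HM k A V N)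
          (f.hom m) v).symm
      homEquiv_naturality_right := by
        intro M N N' f g
        apply ModuleCat.hom_ext
        apply LinearMap.ext
        intro m
        rfl }

instance : (TF k A V).Additive where
  map_add := by
    intro M N f g
    apply ModuleCat.hom_ext
    apply TP.hom_ext
    intro m v
    change TP.map k V (f.hom + g.hom) (TP.tm k A m v) =
      TP.map k V f.hom (TP.tm k A m v) + TP.map k V g.hom (TP.tm k A m v)
    rw [TP.map_tm, TP.map_tm, TP.map_tm, LinearMap.add_apply, TP.tm, TensorProduct.add_tmul,
      map_add]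

instance : (TF k A V).Linear k where
  map_smul := by
    intro M N f c
    apply ModuleCat.hom_ext
    apply TP.hom_ext
    intro m v
    change TP.map k V ((c • f).hom) (TP.tm k A m v) =
      (algebraMap k A c) • TP.map k V f.hom (TP.tm k A m v)
    rw [TP.map_tm, TP.map_tm, algebraMap_smul, ← map_smul]
    rfl

theorem TF_exact {M M' M'' : ModuleCat.{0} A} (f : M →ₗ[A] M') (g : M' →ₗ[A] M'')
    (h : Function.Exact f g) :
    Function.Exact (TP.map k V f) (TP.map k V g) := by
  have := Module.Flat.rTensor_exact (R := k) V (f := f.restrictScalars k)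
    (g := g.restrictScalars k) h
  exact this

theorem TF_preserves : PreservesFiniteLimits (TF k A V) ∧ PreservesFiniteColimits (TF k A V) := by
  have h := (Functor.exact_tfae (TF k A V)).out 1 3
  rw [← h]
  intro S hS
  rw [ShortComplex.ShortExact.moduleCat_exact_iff_function_exact] at hS ⊢
  exact TF_exact k A V _ _ hS

instance : PreservesFiniteLimits (TF k A V) := (TF_preserves k A V).1

instance : PreservesFiniteColimits (TF k A V) := (TF_preserves k A V).2

instance : (HF k A V).PreservesEpimorphisms where
  preserves := by
    intro M N f hf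
    rw [ModuleCat.epi_iff_surjective] at hf ⊢
    intro g
    obtain ⟨s, hs⟩ := LinearMap.exists_rightInverse_of_surjective (f.hom.restrictScalars k)
      (LinearMap.range_eq_top.2 hf)
    refine ⟨(HM.fn k A V M).symm (s ∘ₗ (HM.fn k A V N g)), ?_⟩
    apply HM.ext (k := k) (A := A) (V := V) (N := N)
    intro v
    exact LinearMap.congr_fun hs (HM.fn k A V N g v)

instance : (TF k A V).PreservesProjectiveObjects where
  projective_obj {P} hP := (adjTH k A V).map_projective P hP

/-- the projective dimension does not increase under tensor products -/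
theorem TF_pd (M : ModuleCat.{0} A) (n : ℕ) (h : HasProjectiveDimensionLT M n) :
    HasProjectiveDimensionLT ((TF k A V).obj M) n := by
  refine HasProjectiveDimensionLT.mk (fun i hi Y e => ?_)
  obtain ⟨ξ, rfl⟩ := (adjExt_bijective (adjTH k A V) M Y i).2 e
  rw [Abelian.Ext.eq_zero_of_hasProjectiveDimensionLT ξ n hi, map_zero]

end functors

end Pool.Agent.Helper377_AG
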