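import Pool.Agent.Helper377_AG.Defs

set_option autoImplicit false

open CategoryTheory
open scoped TensorProduct

namespace Pool.Agent.Helper377_AG

open Pool.Agent.Helper202_BG

/-- characters of the additive group `T`, as a module on the other side -/
def CM {A B : Type} [Ring A] [Ring B] (_ : Anti A B) (T : Type) [AddCommGroup T] : Type :=
  T →+ AddCircle (1 : ℚ)

section
variable {A B : Type} [Ring A] [Ring B] (τ : Anti A B) (T : Type) [AddCommGroup T]

noncomputable instance : AddCommGroup (CM τ T) :=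
  inferInstanceAs (AddCommGroup (T →+ AddCircle (1 : ℚ)))

variable {τ T}

/-- evaluation -/
def CM.ap (y : CM τ T) : T →+ AddCircle (1 : ℚ) := y

theorem CM.ext {y z : CM τ T} (h : ∀ t, y.ap t = z.ap t) : y = z := AddMonoidHom.ext h

theorem CM.add_ap (y z : CM τ T) (t : T) : (y + z).ap t = y.ap t + z.ap t := rfl

theorem CM.zero_ap (t : T) : (0 : CM τ T).ap t = 0 := rfl

theorem CM.sum_ap {ι : Type} (s : Finset ι) (y : ι → CM τ T) (t : T) :
    (∑ i ∈ s, y i).ap t = ∑ i ∈ s, (y i).ap t := by
  let e : CM τ T →+ AddCircle (1 : ℚ) :=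
    { toFun := fun y => y.ap t, map_zero' := rfl, map_add' := fun _ _ => rfl }
  exact map_sum e y s

variable [Module B T]

noncomputable instance : SMul A (CM τ T) where
  smul a y := AddMonoidHom.comp y.ap (DistribSMul.toAddMonoidHom T (τ.f a))

theorem CM.smul_ap (a : A) (y : CM τ T) (t : T) : (a • y).ap t = y.ap (τ.f a • t) := rfl

noncomputable instance : Module A (CM τ T) where
  one_smul y := CM.ext fun t => by rw [CM.smul_ap, τ.one, one_smul]
  mul_smul a b y := CM.ext fun t => by rw [CM.smul_ap, CM.smul_ap, CM.smul_ap, τ.mul, mul_smul]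
  smul_zero a := CM.ext fun t => rfl
  smul_add a y z := CM.ext fun t => rfl
  add_smul a b y := CM.ext fun t => by
    rw [CM.smul_ap, CM.add_ap, CM.smul_ap, CM.smul_ap, map_add, add_smul, map_add]
  zero_smul y := CM.ext fun t => by
    rw [CM.smul_ap, map_zero, zero_smul, map_zero, CM.zero_ap]

/-- dual of a homomorphism -/
noncomputable def CM.map {T' : Type} [AddCommGroup T'] [Module B T'] (f : T →ₗ[B] T') :
    CM τ T' →ₗ[A] CM τ T where
  toFun y := AddMonoidHom.comp y.ap f.toAddMonoidHom
  map_add' y z := rfl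
  map_smul' a y := CM.ext fun t => by
    change (a • y).ap (f t) = y.ap (f (τ.f a • t))
    rw [CM.smul_ap, LinearMap.map_smul f]

theorem CM.map_ap {T' : Type} [AddCommGroup T'] [Module B T'] (f : T →ₗ[B] T') (y : CM τ T')
    (t : T) : (CM.map f y).ap t = y.ap (f t) := rfl

/-- extension of characters -/
theorem char_ext {S T : Type} [AddCommGroup S] [AddCommGroup T] (i : S →+ T)
    (hi : Function.Injective i) (φ : S →+ AddCircle (1 : ℚ)) :
    ∃ ψ : T →+ AddCircle (1 : ℚ), ∀ s, ψ (i s) = φ s := by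
  obtain ⟨ψ, hψ⟩ := (Module.Baer.of_divisible (AddCircle (1 : ℚ))).extension_property_addMonoidHom
    i hi φ
  exact ⟨ψ, fun s => DFunLike.congr_fun hψ s⟩

/-- separation by characters -/
theorem char_sep {T : Type} [AddCommGroup T] (S : AddSubgroup T) (t : T) (ht : t ∉ S) :
    ∃ ψ : T →+ AddCircle (1 : ℚ), (∀ s ∈ S, ψ s = 0) ∧ ψ t ≠ 0 := by
  have h1 : (QuotientAddGroup.mk' S t) ≠ 0 := by
    rw [QuotientAddGroup.mk'_apply, Ne, QuotientAddGroup.eq_zero_iff]
    exact ht
  obtain ⟨c, hc⟩ := CharacterModule.exists_character_apply_ne_zero_of_ne_zero h1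
  refine ⟨AddMonoidHom.comp (c : _ →+ AddCircle (1 : ℚ)) (QuotientAddGroup.mk' S), ?_, hc⟩
  intro s hs
  have h2 : QuotientAddGroup.mk' S s = 0 := by
    rw [QuotientAddGroup.mk'_apply, QuotientAddGroup.eq_zero_iff]
    exact hs
  change c (QuotientAddGroup.mk' S s) = 0
  rw [h2]
  exact AddMonoidHom.map_zero c

/-- The dual of a projective module is injective. -/
theorem CM.baer [Module.Projective B T] : Module.Baer A (CM τ T) := by
  intro J f
  obtain ⟨s, hs⟩ := (Module.projective_def (R := B) (P := T)).1 inferInstance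
  have hΛ : ∀ x : T, ∃ ψ : B →+ AddCircle (1 : ℚ), ∀ j : J, ψ (τ.f j) = (f j).ap x := by
    intro x
    let i : J →+ B := (τ.f : A →+ B).comp J.subtype.toAddMonoidHom
    have hi : Function.Injective i := by
      intro a b hab
      exact Subtype.ext (τ.f.injective hab)
    let φ : J →+ AddCircle (1 : ℚ) :=
      { toFun := fun j => (f j).ap x
        map_zero' := by rw [map_zero]; rfl
        map_add' := fun a b => by rw [map_add]; rfl }
    exact char_ext i hi φ
  choose Λ hΛ using hΛ
  let Y : (T →₀ B) →+ AddCircle (1 : ℚ) := Finsupp.liftAddHom Λ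
  have hY : ∀ (j : J) (v : T →₀ B), Y (τ.f (j : A) • v) = (f j).ap (Finsupp.linearCombination B id v) := by
    intro j v
    induction v using Finsupp.induction_linear with
    | zero => rw [smul_zero, map_zero, map_zero, map_zero]
    | add v w hv hw => rw [smul_add, map_add, map_add, map_add, hv, hw]
    | single x b =>
      obtain ⟨a, rfl⟩ := τ.f.surjective b
      rw [Finsupp.smul_single, Finsupp.linearCombination_single, id, smul_eq_mul, ← τ.mul]
      have h1 : Y (Finsupp.single x (τ.f (a * j))) = Λ x (τ.f (a * j)) := by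
        simp [Y]
      rw [h1]
      have h2 := hΛ x (a • j)
      change Λ x (τ.f (a * j)) = _ at h2
      rw [h2, map_smul, CM.smul_ap]
  let y : CM τ T := (Y.comp s.toAddMonoidHom : T →+ AddCircle (1 : ℚ))
  have hy : ∀ t, y.ap t = Y (s t) := fun t => rfl
  refine ⟨LinearMap.toSpanSingleton A _ y, ?_⟩
  intro x hx
  rw [LinearMap.toSpanSingleton_apply]
  refine CM.ext fun t => ?_
  rw [CM.smul_ap, hy, map_smul]
  have := hY ⟨x, hx⟩ (s t)
  rw [hs t] at this
  exact this

theorem CM.ses {X Y Z : Type} [AddCommGroup X] [Module B X] [AddCommGroup Y] [Module B Y]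
    [AddCommGroup Z] [Module B Z] {i : X →ₗ[B] Y} {p : Y →ₗ[B] Z} (h : SES i p) :
    SES (CM.map (τ := τ) p) (CM.map (τ := τ) i) where
  inj := by
    intro y z hyz
    refine CM.ext fun t => ?_
    obtain ⟨u, rfl⟩ := h.surj t
    rw [← CM.map_ap, hyz, CM.map_ap]
  surj := by
    intro φ
    obtain ⟨ψ, hψ⟩ := char_ext i.toAddMonoidHom h.inj φ.ap
    exact ⟨ψ, CM.ext hψ⟩
  exact y := by
    constructor
    · intro hy
      have hk : ∀ u, p u = 0 → y.ap u = 0 := by
        intro u hu
        obtain ⟨x, rfl⟩ := (h.exact u).1 hu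
        rw [← CM.map_ap, hy]
        rfl
      have hker : p.toAddMonoidHom.ker ≤ y.ap.ker := fun u hu => hk u hu
      let g : CM τ Z := p.toAddMonoidHom.liftOfSurjective h.surj ⟨y.ap, hker⟩
      refine ⟨g, CM.ext fun t => ?_⟩
      rw [CM.map_ap]
      exact AddMonoidHom.liftOfRightInverse_comp_apply _ _ _ ⟨y.ap, hker⟩ t
    · rintro ⟨z, rfl⟩
      refine CM.ext fun t => ?_
      rw [CM.map_ap, CM.map_ap, (h.exact _).2 ⟨t, rfl⟩, map_zero, CM.zero_ap]

end

section
variable {A B : Type} [Ring A] [Ring B] (τ : Anti A B)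

theorem idlt_of_baer (A X : Type) [Ring A] [AddCommGroup X] [Module A X] (h : Module.Baer A X) :
    IDLT A X 1 := by
  have h1 : Module.Injective A X := h.injective
  have h2 : Injective (ModuleCat.of A X) := Module.injective_object_of_injective_module A X
  exact injective_iff_hasInjectiveDimensionLT_one.1 h2

theorem idlt_CM (m : ℕ) (T : Type) [AddCommGroup T] [Module B T] (h : PDLT B T (m + 1)) :
    IDLT A (CM τ T) (m + 1) := by
  induction m generalizing T with
  | zero =>
    have h1 : Projective (ModuleCat.of B T) := projective_iff_hasProjectiveDimensionLT_one.2 h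
    have h2 : Module.Projective B T := (IsProjective.iff_projective (R := B) T).2 h1
    exact idlt_of_baer A _ CM.baer
  | succ m ih =>
    let p : (T →₀ B) →ₗ[B] T := Finsupp.linearCombination B id
    have hp : Function.Surjective p := fun t => ⟨Finsupp.single t 1, by simp [p]⟩
    have hs := SES.ofSurj hp
    have hF : Projective (hs.S).X₂ :=
      (IsProjective.iff_projective (R := B) (T →₀ B)).1 inferInstance
    have h1 : PDLT B (LinearMap.ker p) (m + 1) :=
      (hs.sh.hasProjectiveDimensionLT_X₃_iff m hF).1 h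
    have h2 := ih (LinearMap.ker p) h1
    have h3 : IDLT A (CM τ (T →₀ B)) 1 := idlt_of_baer A _ CM.baer
    have h4 : IDLT A (CM τ (T →₀ B)) (m + 1 + 1) :=
      @hasInjectiveDimensionLT_of_ge _ _ _ _ 1 (m + 1 + 1) (by omega) h3
    exact (CM.ses (τ := τ) hs).sh.hasInjectiveDimensionLT_X₁ (m + 1) h2 h4

/-- the double dual -/
noncomputable def theta : A →ₗ[A] CM τ (CM τ.symm A) where
  toFun a := ({ toFun := fun φ => φ.ap a, map_zero' := rfl, map_add' := fun _ _ => rfl } :
    CM τ.symm A →+ AddCircle (1 : ℚ))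
  map_add' a b := CM.ext fun φ => map_add φ.ap a b
  map_smul' a b := CM.ext fun φ => by
    change φ.ap (a • b) = (τ.f a • φ).ap b
    rw [CM.smul_ap]
    change _ = φ.ap (τ.f.symm (τ.f a) • b)
    rw [AddEquiv.symm_apply_apply]

theorem theta_ap (a : A) (φ : CM τ.symm A) : (theta τ a).ap φ = φ.ap a := rfl

/-- purity of the double dual -/
theorem purity {r : ℕ} (L : Submodule A (Fin r → A)) (hL : L.FG) (f : L →ₗ[A] A)
    (g : (Fin r → A) →ₗ[A] CM τ (CM τ.symm A)) (hg : ∀ x : L, g x = theta τ (f x)) :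
    ∃ f' : (Fin r → A) →ₗ[A] A, ∀ x : L, f' x = f x := by
  obtain ⟨s, w, hw⟩ := Submodule.fg_iff_exists_fin_generating_family.1 hL
  have hwL : ∀ t, w t ∈ L := fun t => by
    rw [← hw]; exact Submodule.subset_span ⟨t, rfl⟩
  let v : Fin s → A := fun t => f ⟨w t, hwL t⟩
  let F : (Fin r → A) →+ (Fin s → A) :=
    { toFun := fun c t => ∑ u, w t u * c u
      map_zero' := by funext t; simp
      map_add' := fun c d => by funext t; simp [mul_add, Finset.sum_add_distrib] }
  have key : v ∈ F.range := by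
    by_contra hv
    obtain ⟨ψ, h1, h2⟩ := char_sep F.range v hv
    apply h2
    let lam : Fin s → CM τ.symm A := fun t =>
      (ψ.comp (AddMonoidHom.single (fun _ : Fin s => A) t) : A →+ AddCircle (1 : ℚ))
    have hlam : ∀ t a, (lam t).ap a = ψ (Pi.single t a) := fun t a => rfl
    have hψ : ∀ x : Fin s → A, ψ x = ∑ t, (lam t).ap (x t) := by
      intro x
      conv_lhs => rw [← Finset.univ_sum_single x]
      rw [map_sum]
      rfl
    have h3 : ∀ u, ∑ t, τ.f (w t u) • lam t = 0 := by
      intro u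
      refine CM.ext fun a => ?_
      rw [CM.sum_ap, CM.zero_ap]
      have h4 := h1 (F (Pi.single u a)) ⟨_, rfl⟩
      rw [hψ] at h4
      rw [← h4]
      refine Finset.sum_congr rfl fun t _ => ?_
      rw [CM.smul_ap]
      change (lam t).ap (τ.f.symm (τ.f (w t u)) • a) = (lam t).ap (∑ u', w t u' * (Pi.single u a : Fin r → A) u')
      rw [AddEquiv.symm_apply_apply]
      congr 1
      rw [Finset.sum_eq_single u]
      · rw [Pi.single_eq_same, smul_eq_mul]
      · intro u' _ hu'
        rw [Pi.single_eq_of_ne hu', mul_zero]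
      · intro hu; exact absurd (Finset.mem_univ u) hu
    let y : Fin r → CM τ (CM τ.symm A) := fun u => g (Pi.single u 1)
    have h5 : ∀ t, theta τ (v t) = ∑ u, w t u • y u := by
      intro t
      rw [← hg ⟨w t, hwL t⟩]
      have e1 : g (w t) = g (∑ u, Pi.single u (w t u)) := by rw [Finset.univ_sum_single]
      refine e1.trans ?_
      rw [map_sum]
      refine Finset.sum_congr rfl fun u _ => ?_
      have : (Pi.single u (w t u) : Fin r → A) = w t u • Pi.single u 1 := by
        rw [← Pi.single_smul, smul_eq_mul, mul_one]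
      rw [this, map_smul]
    rw [hψ]
    calc ∑ t, (lam t).ap (v t) = ∑ t, (theta τ (v t)).ap (lam t) := rfl
      _ = ∑ t, ∑ u, (y u).ap (τ.f (w t u) • lam t) := by
        refine Finset.sum_congr rfl fun t _ => ?_
        rw [h5, CM.sum_ap]
        rfl
      _ = ∑ u, ∑ t, (y u).ap (τ.f (w t u) • lam t) := Finset.sum_comm
      _ = ∑ u, (y u).ap (∑ t, τ.f (w t u) • lam t) := by
        refine Finset.sum_congr rfl fun u _ => ?_
        rw [map_sum]
      _ = 0 := by
        refine Finset.sum_eq_zero fun u _ => ?_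
        rw [h3, map_zero]
  obtain ⟨c, hc⟩ := key
  let f' : (Fin r → A) →ₗ[A] A :=
    { toFun := fun x => ∑ u, x u * c u
      map_add' := fun x y => by simp [add_mul, Finset.sum_add_distrib]
      map_smul' := fun a x => by simp [mul_assoc, Finset.mul_sum] }
  refine ⟨f', ?_⟩
  have hle : Submodule.span A (Set.range w) ≤
      (LinearMap.eqLocus (f' ∘ₗ L.subtype) f).map L.subtype := by
    rw [Submodule.span_le]
    rintro _ ⟨t, rfl⟩
    refine ⟨⟨w t, hwL t⟩, ?_, rfl⟩
    have := congrFun hc t
    exact this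
  intro x
  obtain ⟨z, hz, hzx⟩ := hle (by rw [hw]; exact x.2)
  have : z = x := Subtype.ext hzx
  rw [← this]
  exact hz

/-- transfer of vanishing from the double dual to `A` -/
theorem ext_transfer [IsNoetherianRing A] (n : ℕ) (N : Type) [AddCommGroup N] [Module A N]
    [Module.Finite A N] (h : ∀ ξ : E A N (CM τ (CM τ.symm A)) (n + 1), ξ = 0)
    (ξ : E A N A (n + 1)) : ξ = 0 := by
  induction n generalizing N with
  | zero =>
    obtain ⟨r, p, hp⟩ := Module.Finite.exists_fin' A N
    have hs : SES (LinearMap.ker p).subtype p := SES.ofSurj hp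
    obtain ⟨ζ, rfl⟩ := con3 hs ξ (E_proj _)
    obtain ⟨f, rfl⟩ := hom0_surj ζ
    have h1 : dr hs (hom0 (theta τ ∘ₗ f)) = 0 := h _
    obtain ⟨ζ', hζ'⟩ := con1 hs _ h1
    obtain ⟨g, rfl⟩ := hom0_surj ζ'
    rw [pre_hom0] at hζ'
    have h2 := hom0_inj hζ'
    obtain ⟨f', hf'⟩ := purity τ (LinearMap.ker p) (IsNoetherian.noetherian _) f g
      (fun x => LinearMap.congr_fun h2 x)
    have h3 : f = f' ∘ₗ (LinearMap.ker p).subtype := by
      ext x; exact (hf' x).symm
    rw [h3, ← pre_hom0, dr_pre]
  | succ n ih =>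
    obtain ⟨r, p, hp⟩ := Module.Finite.exists_fin' A N
    have hs : SES (LinearMap.ker p).subtype p := SES.ofSurj hp
    obtain ⟨ζ, rfl⟩ := con3 hs ξ (E_proj _)
    have h1 : ∀ η : E A (LinearMap.ker p) (CM τ (CM τ.symm A)) (n + 1), η = 0 := by
      intro η
      obtain ⟨η', rfl⟩ := con1 hs η (h _)
      rw [E_proj η', pre_zero]
    rw [ih (LinearMap.ker p) h1 ζ, dr_zero]

/-- injective dimension through cyclic modules -/
theorem idlt_of_cyclic (n : ℕ) (X : Type) [AddCommGroup X] [Module A X]
    (h : ∀ (J : Ideal A) (ξ : E A (A ⧸ J) X (n + 1)), ξ = 0) : IDLT A X (n + 1) := by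
  induction n generalizing X with
  | zero =>
    apply idlt_of_baer
    intro J f
    have hs : SES J.subtype J.mkQ := SES.mkQ J
    have h1 : dr hs (hom0 f) = 0 := h J _
    obtain ⟨ζ, hζ⟩ := con1 hs _ h1
    obtain ⟨g, rfl⟩ := hom0_surj ζ
    rw [pre_hom0] at hζ
    have h2 := hom0_inj hζ
    exact ⟨g, fun x hx => LinearMap.congr_fun h2 ⟨x, hx⟩⟩
  | succ n ih =>
    let I : ModuleCat.{0} A := Injective.under (ModuleCat.of A X)
    let ι : ModuleCat.of A X ⟶ I := Injective.ι (ModuleCat.of A X)
    have hι : Function.Injective ι.hom := (ModuleCat.mono_iff_injective ι).1 inferInstance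
    have hI1 : Injective (ModuleCat.of A I) := inferInstanceAs (Injective I)
    have hI2 : Module.Injective A I := Module.injective_module_of_injective_object A I
    have hI : Module.Baer A I := Module.Baer.of_injective hI2
    have hs : SES ι.hom (LinearMap.range ι.hom).mkQ := SES.ofInj hι
    have h1 : IDLT A (I ⧸ LinearMap.range ι.hom) (n + 1) := by
      apply ih
      intro J ξ
      obtain ⟨ζ, rfl⟩ := cov3 hs ξ (h J _)
      rw [E_injective hI ζ, post_zero]
    have h3 : IDLT A I 1 := idlt_of_baer A _ hI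
    have h4 : IDLT A I (n + 1 + 1) :=
      @hasInjectiveDimensionLT_of_ge _ _ _ _ 1 (n + 1 + 1) (by omega) h3
    exact hs.sh.hasInjectiveDimensionLT_X₁ (n + 1) h1 h4

end

theorem taskI : TaskI := by
  intro k A B _ _ _ _ _ τ _ hA n hI
  have h1 : Module.Injective B (CM τ.symm A) := (CM.baer (τ := τ.symm) (T := A)).injective
  have h2 : IDLT A (CM τ (CM τ.symm A)) (n + 1) := idlt_CM τ n _ (hI _ h1)
  apply idlt_of_cyclic
  intro J ξ
  apply ext_transfer τ n (A ⧸ J)
  intro η
  exact Abelian.Ext.eq_zero_of_hasInjectiveDimensionLT η (n + 1) le_rfl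

end Pool.Agent.Helper377_AG
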