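import Pool.Agent.Helper377_AG.Defs

set_option autoImplicit false

open CategoryTheory
open scoped TensorProduct

namespace Pool.Agent.Helper377_AG

open Pool.Agent.Helper202_BG

/-- lifting an additive map along a surjection with the same kernel -/
theorem taskQ_lift {G H M : Type} [AddCommGroup G] [AddCommGroup H] [AddCommGroup M]
    (Φ : G →+ H) (Ψ : G →+ M) (hs : Function.Surjective Φ) (hk : ∀ g, Φ g = 0 ↔ Ψ g = 0) :
    ∃ ι : H →+ M, Function.Injective ι ∧ ∀ g, ι (Φ g) = Ψ g := by
  let ι : H →+ M := AddMonoidHom.liftOfSurjective Φ hs ⟨Ψ, fun g hg => (hk g).1 hg⟩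
  have h1 : ∀ g, ι (Φ g) = Ψ g := by
    intro g
    exact AddMonoidHom.liftOfRightInverse_comp_apply Φ _ _ ⟨Ψ, fun g hg => (hk g).1 hg⟩ g
  refine ⟨ι, ?_, h1⟩
  rw [injective_iff_map_eq_zero]
  intro x hx
  obtain ⟨g, rfl⟩ := hs x
  rw [h1] at hx
  exact (hk g).2 hx

section
variable {A B : Type} [Ring A] [Ring B] (τ : Anti A B) {K : Type} [AddCommGroup K] [Module A K]
  {r s : ℕ} (v : Fin r → K) (w : Fin s → Fin r → A)

theorem taskQ_symm (β : B) : τ.f (τ.symm.f β) = β := by
  simp [Anti.symm]

theorem taskQ_map_sum {ι : Type} (S : Finset ι) (a b : ι → A) :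
    τ.f (∑ u ∈ S, a u * b u) = ∑ u ∈ S, τ.f (b u) * τ.f (a u) := by
  rw [map_sum]
  exact Finset.sum_congr rfl fun u _ => τ.mul _ _

/-- the generators of the relation module -/
def taskQ_gen (hw : Submodule.span A (Set.range w) =
    LinearMap.ker (Fintype.linearCombination A v)) (t : Fin s) :
    LinearMap.ker (Fintype.linearCombination A v) :=
  ⟨w t, by rw [← hw]; exact Submodule.subset_span ⟨t, rfl⟩⟩

variable (hw : Submodule.span A (Set.range w) = LinearMap.ker (Fintype.linearCombination A v))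

theorem taskQ_gen_span : Submodule.span A (Set.range (taskQ_gen v w hw)) = ⊤ := by
  apply Submodule.map_injective_of_injective
    (LinearMap.ker (Fintype.linearCombination A v)).injective_subtype
  rw [Submodule.map_span, Submodule.map_subtype_top]
  refine Eq.trans ?_ hw
  rw [← Set.range_comp]
  rfl

theorem taskQ_ext {f g : LinearMap.ker (Fintype.linearCombination A v) →ₗ[A] A}
    (h : ∀ t, f (taskQ_gen v w hw t) = g (taskQ_gen v w hw t)) : f = g := by
  apply LinearMap.ext_on_range (taskQ_gen_span v w hw) h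

/-- the tuple of values on the generators, in `B` -/
def taskQ_F : (LinearMap.ker (Fintype.linearCombination A v) →ₗ[A] A) →+ (Fin s → B) where
  toFun f t := τ.f (f (taskQ_gen v w hw t))
  map_zero' := by funext t; simp
  map_add' f g := by funext t; simp

theorem taskQ_range (f : LinearMap.ker (Fintype.linearCombination A v) →ₗ[A] A) :
    taskQ_F τ v w hw f ∈ LinearMap.range (mat τ w) ↔
      ∃ g : (Fin r → A) →ₗ[A] A,
        g ∘ₗ (LinearMap.ker (Fintype.linearCombination A v)).subtype = f := by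
  constructor
  · rintro ⟨β, hβ⟩
    refine ⟨Fintype.linearCombination A (fun u => τ.symm.f (β u)), ?_⟩
    apply taskQ_ext v w hw
    intro t
    apply τ.f.injective
    have h1 := congrFun hβ t
    rw [LinearMap.comp_apply]
    have h2 : (LinearMap.ker (Fintype.linearCombination A v)).subtype (taskQ_gen v w hw t) = w t :=
      rfl
    rw [h2, Fintype.linearCombination_apply]
    simp only [smul_eq_mul]
    rw [taskQ_map_sum]
    simp only [taskQ_symm]
    exact h1
  · rintro ⟨g, rfl⟩
    refine ⟨fun u => τ.f (g (Pi.single u 1)), ?_⟩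
    funext t
    show ∑ u, τ.f (g (Pi.single u 1)) * τ.f (w t u) = τ.f (g (w t))
    rw [← taskQ_map_sum τ Finset.univ (w t) (fun u => g (Pi.single u 1))]
    congr 1
    conv_rhs => rw [← Finset.univ_sum_single (w t), map_sum]
    refine Finset.sum_congr rfl fun u _ => ?_
    have : (Pi.single u (w t u) : Fin r → A) = w t u • Pi.single u 1 := by
      rw [← Pi.single_smul, smul_eq_mul, mul_one]
    rw [this, map_smul, smul_eq_mul]

end

section
variable {A B : Type} [Ring A] [Ring B] (τ : Anti A B) {K : Type} [AddCommGroup K] [Module A K]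
  {r s : ℕ} (v : Fin r → K) (w : Fin s → Fin r → A)
  (hw : Submodule.span A (Set.range w) = LinearMap.ker (Fintype.linearCombination A v))

theorem taskQ_ses (hv : Submodule.span A (Set.range v) = ⊤) :
    SES (LinearMap.ker (Fintype.linearCombination A v)).subtype (Fintype.linearCombination A v) := by
  apply SES.ofSurj
  rw [← LinearMap.range_eq_top, Fintype.range_linearCombination, hv]

theorem taskQ_ker (hv : Submodule.span A (Set.range v) = ⊤)
    (f : LinearMap.ker (Fintype.linearCombination A v) →ₗ[A] A) :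
    dr (taskQ_ses v hv) (hom0 f) = 0 ↔ taskQ_F τ v w hw f ∈ LinearMap.range (mat τ w) := by
  rw [taskQ_range]
  constructor
  · intro h
    obtain ⟨ζ, hζ⟩ := con1 _ _ h
    obtain ⟨g, rfl⟩ := hom0_surj ζ
    rw [pre_hom0] at hζ
    exact ⟨g, hom0_inj hζ⟩
  · rintro ⟨g, rfl⟩
    rw [← pre_hom0, dr_pre]

theorem taskQ_dr_surj (hv : Submodule.span A (Set.range v) = ⊤) (n : ℕ) (ξ : E A K A (n + 1)) :
    ∃ ζ, dr (taskQ_ses v hv) ζ = ξ :=
  con3 _ _ (E_proj _)

theorem taskQ_dr_inj (hv : Submodule.span A (Set.range v) = ⊤) (n : ℕ)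
    (ζ : E A (LinearMap.ker (Fintype.linearCombination A v)) A (n + 1))
    (h : dr (taskQ_ses v hv) ζ = 0) : ζ = 0 := by
  obtain ⟨η, hη⟩ := con1 _ _ h
  rw [← hη, E_proj η, pre_zero]

theorem taskQ_matmat {s' : ℕ} (w' : Fin s' → Fin s → A)
    (hw' : ∀ q, Fintype.linearCombination A (taskQ_gen v w hw) (w' q) = 0)
    (β : Fin r → B) : mat τ w' (mat τ w β) = 0 := by
  funext q
  show ∑ t, (∑ u, β u * τ.f (w t u)) * τ.f (w' q t) = 0
  have h1 : ∀ u, ∑ t, w' q t * w t u = 0 := by
    intro u
    have h2 := congrArg Subtype.val (hw' q)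
    rw [Fintype.linearCombination_apply] at h2
    have h3 := congrFun h2 u
    simpa [taskQ_gen] using h3
  have h4 : ∀ u, ∑ t, τ.f (w t u) * τ.f (w' q t) = 0 := by
    intro u
    rw [← taskQ_map_sum τ Finset.univ (w' q) (fun t => w t u), h1, map_zero]
  simp only [Finset.sum_mul, mul_assoc]
  rw [Finset.sum_comm]
  simp only [← Finset.mul_sum, h4, mul_zero, Finset.sum_const_zero]

theorem taskQ_desc {s' : ℕ} (w' : Fin s' → Fin s → A)
    (hw' : Submodule.span A (Set.range w') =
      LinearMap.ker (Fintype.linearCombination A (taskQ_gen v w hw)))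
    (β : Fin s → B) (hβ : mat τ w' β = 0) :
    ∃ f : LinearMap.ker (Fintype.linearCombination A v) →ₗ[A] A, taskQ_F τ v w hw f = β := by
  let g : (Fin s → A) →ₗ[A] A := Fintype.linearCombination A (fun t => τ.symm.f (β t))
  have h1 : LinearMap.ker (Fintype.linearCombination A (taskQ_gen v w hw)) ≤ LinearMap.ker g := by
    rw [← hw', Submodule.span_le]
    rintro _ ⟨q, rfl⟩
    show g (w' q) = 0
    apply τ.f.injective
    rw [map_zero]
    show τ.f (Fintype.linearCombination A (fun t => τ.symm.f (β t)) (w' q)) = 0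
    rw [Fintype.linearCombination_apply]
    simp only [smul_eq_mul]
    rw [taskQ_map_sum]
    simp only [taskQ_symm]
    exact congrFun hβ q
  have hs : Function.Surjective (Fintype.linearCombination A (taskQ_gen v w hw)) := by
    rw [← LinearMap.range_eq_top, Fintype.range_linearCombination, taskQ_gen_span]
  let e := (Fintype.linearCombination A (taskQ_gen v w hw)).quotKerEquivOfSurjective hs
  refine ⟨(Submodule.liftQ _ g h1) ∘ₗ e.symm.toLinearMap, ?_⟩
  funext t
  have h2 : e.symm (taskQ_gen v w hw t) = Submodule.Quotient.mk (Pi.single t 1) := by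
    rw [LinearEquiv.symm_apply_eq]
    show _ = Fintype.linearCombination A (taskQ_gen v w hw) (Pi.single t 1)
    rw [Fintype.linearCombination_apply_single, one_smul]
  show τ.f (Submodule.liftQ _ g h1 (e.symm (taskQ_gen v w hw t))) = β t
  rw [h2]
  show τ.f (g (Pi.single t 1)) = β t
  show τ.f (Fintype.linearCombination A (fun t => τ.symm.f (β t)) (Pi.single t 1)) = β t
  rw [Fintype.linearCombination_apply_single, one_smul, taskQ_symm]

end

theorem taskQ : TaskQ := by
  intro A B _ _ τ _ j
  induction j with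
  | zero =>
    intro K _ _ r v hv _ s w hw
    refine ⟨ModuleCat.of B ((Fin s → B) ⧸ LinearMap.range (mat τ w)),
      ⟨LinearEquiv.refl B _⟩, ?_⟩
    let Φ : (LinearMap.ker (Fintype.linearCombination A v) →ₗ[A] A) →+ E A K A 1 :=
      { toFun := fun f => dr (taskQ_ses v hv) (hom0 f)
        map_zero' := by rw [hom0_zero, dr_zero]
        map_add' := fun f g => by rw [hom0_add, dr_add] }
    let Ψ : (LinearMap.ker (Fintype.linearCombination A v) →ₗ[A] A) →+
        ((Fin s → B) ⧸ LinearMap.range (mat τ w)) :=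
      (LinearMap.range (mat τ w)).mkQ.toAddMonoidHom.comp (taskQ_F τ v w hw)
    have hs : Function.Surjective Φ := by
      intro ξ
      obtain ⟨ζ, hζ⟩ := taskQ_dr_surj v hv 0 ξ
      obtain ⟨f, rfl⟩ := hom0_surj ζ
      exact ⟨f, hζ⟩
    have hk : ∀ f, Φ f = 0 ↔ Ψ f = 0 := by
      intro f
      have h1 : Ψ f = 0 ↔ taskQ_F τ v w hw f ∈ LinearMap.range (mat τ w) :=
        Submodule.Quotient.mk_eq_zero _
      rw [h1]
      exact taskQ_ker τ v w hw hv f
    obtain ⟨ι, hι, hc⟩ := taskQ_lift Φ Ψ hs hk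
    refine ⟨ι, hι, ?_⟩
    intro a ξ
    obtain ⟨f, rfl⟩ := hs ξ
    have h1 : post (rm a) (Φ f) = Φ ((rm a) ∘ₗ f) := by
      show post (rm a) (dr (taskQ_ses v hv) (hom0 f)) = dr (taskQ_ses v hv) (hom0 _)
      rw [post_dr, post_hom0]
    have h2 : Ψ ((rm a) ∘ₗ f) = τ.f a • Ψ f := by
      show (LinearMap.range (mat τ w)).mkQ _ = τ.f a • (LinearMap.range (mat τ w)).mkQ _
      rw [← map_smul]
      congr 1
      funext t
      show τ.f (f (taskQ_gen v w hw t) • a) = τ.f a • τ.f (f (taskQ_gen v w hw t))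
      rw [smul_eq_mul, smul_eq_mul, τ.mul]
    rw [h1]
    exact (hc _).trans (h2.trans (by rw [← hc f]))
  | succ j ih =>
    intro K _ _ r v hv hE s w hw
    obtain ⟨s', w', hw'⟩ := Submodule.fg_iff_exists_fin_generating_family.1
      (IsNoetherian.noetherian (LinearMap.ker (Fintype.linearCombination A (taskQ_gen v w hw))))
    have hE' : ∀ i, 1 ≤ i → i ≤ j →
        Subsingleton (E A (LinearMap.ker (Fintype.linearCombination A v)) A i) := by
      intro i h1 h2
      obtain ⟨i, rfl⟩ : ∃ i', i = i' + 1 := ⟨i - 1, by omega⟩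
      have h3 := hE (i + 1 + 1) (by omega) (by omega)
      refine ⟨fun a b => ?_⟩
      rw [← sub_eq_zero]
      apply taskQ_dr_inj v hv i
      exact Subsingleton.elim _ _
    obtain ⟨Q, hQ, ι', hι', hc'⟩ := ih (LinearMap.ker (Fintype.linearCombination A v)) s
      (taskQ_gen v w hw) (taskQ_gen_span v w hw) hE' s' w' hw'
    have hker : LinearMap.ker (mat τ w') = LinearMap.range (mat τ w) := by
      apply le_antisymm
      · intro β hβ
        obtain ⟨f, rfl⟩ := taskQ_desc τ v w hw w' hw' β hβ
        rw [← taskQ_ker τ v w hw hv f]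
        have h3 := hE 1 (by omega) (by omega)
        exact Subsingleton.elim _ _
      · rintro _ ⟨β, rfl⟩
        apply taskQ_matmat τ v w hw w'
        intro q
        have : w' q ∈ LinearMap.ker (Fintype.linearCombination A (taskQ_gen v w hw)) := by
          rw [← hw']
          exact Submodule.subset_span ⟨q, rfl⟩
        exact this
    refine ⟨Q, ⟨s', (LinearMap.range (mat τ w)).liftQ (mat τ w') hker.ge, ?_, ?_⟩, ?_⟩
    · rw [← LinearMap.ker_eq_bot, Submodule.ker_liftQ, hker, Submodule.mkQ_map_self]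
    · rw [Submodule.range_liftQ]
      exact hQ
    · let Φ : E A (LinearMap.ker (Fintype.linearCombination A v)) A (j + 1) →+ E A K A (j + 1 + 1) :=
        { toFun := fun ζ => dr (taskQ_ses v hv) ζ
          map_zero' := by rw [dr_zero]
          map_add' := fun f g => by rw [dr_add] }
      have hs : Function.Surjective Φ := taskQ_dr_surj v hv (j + 1)
      have hk : ∀ ζ, Φ ζ = 0 ↔ ι' ζ = 0 := by
        intro ζ
        constructor
        · intro h
          rw [taskQ_dr_inj v hv j ζ h, map_zero]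
        · intro h
          have : ζ = 0 := hι' (by rw [h, map_zero])
          rw [this, map_zero]
      obtain ⟨ι, hι, hc⟩ := taskQ_lift Φ ι' hs hk
      refine ⟨ι, hι, ?_⟩
      intro a ξ
      obtain ⟨ζ, rfl⟩ := hs ξ
      have h1 : post (rm a) (Φ ζ) = Φ (post (rm a) ζ) := post_dr _ _ _
      rw [h1, hc, hc', hc]

end Pool.Agent.Helper377_AG
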