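import Pool.Agent.Helper377_AG.S
import Pool.Agent.Helper377_AG.TaskQ
import Pool.Agent.Helper377_AG.TaskI

/-!
The main theorem for a pair of anti-isomorphic Hopf algebras.
-/

set_option autoImplicit false

open CategoryTheory
open scoped TensorProduct

namespace Pool.Agent.Helper377_AG

open Pool.Agent.Helper202_BG

section scal
variable {k A : Type} [Field k] [Ring A] [Algebra k A]

/-- scalars act on Ext groups as right multiplications -/
theorem smul_eq_post {M : Type} [AddCommGroup M] [Module A M] {n : ℕ} (c : k) (ξ : E A M A n) :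
    c • ξ = post (rm (algebraMap k A c)) ξ := by
  rw [Abelian.Ext.smul_eq_comp_mk₀]
  change Abelian.Ext.comp ξ (Abelian.Ext.mk₀ _) _ = Abelian.Ext.comp ξ (Abelian.Ext.mk₀ _) _
  congr 2
  apply ModuleCat.hom_ext
  ext
  change (algebraMap k A c) • (1 : A) = (1 : A) • (algebraMap k A c)
  simp

end scal

section
variable {k A B : Type} [Field k] [Ring A] [HopfAlgebra k A] [Ring B] [HopfAlgebra k B]
variable (τ : Anti A B) (hτ : ∀ (c : k) (a : A), τ.f (c • a) = c • τ.f a)

include hτ in
theorem anti_algebraMap (c : k) : τ.f (algebraMap k A c) = algebraMap k B c := by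
  rw [Algebra.algebraMap_eq_smul_one, hτ, τ.one, ← Algebra.algebraMap_eq_smul_one]

include hτ in
theorem stepQ [IsNoetherianRing A] (n : ℕ)
    (hX : ∀ i, i < n → Subsingleton (E A (Tr (eps k A)) A i)) :
    ∃ Q : ModuleCat.{0} B, HasProjectiveDimensionLT Q (n + 1) ∧
      ∃ ι : E A (Tr (eps k A)) A n →+ Q, Function.Injective ι ∧
        (∀ (a : A) (ξ : E A (Tr (eps k A)) A n), ι (post (rm a) ξ) = τ.f a • ι ξ) ∧
        ∃ x₀ : E B Q B n, ∀ y : E B Q B n, ∃ c : k, ∀ (U : Type) [AddCommGroup U] [Module B U]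
          (i : U →ₗ[B] Q), (∀ u, ∃ ξ, ι ξ = i u) → pre i y = c • pre i x₀ := by
  let v : Fin 1 → Tr (eps k A) := fun _ => Tr.mk (eps k A) 1
  have hc : ∀ c : k, eps k A (algebraMap k A c) = c := fun c =>
    (Bialgebra.counitAlgHom k A).commutes c
  have hv : Submodule.span A (Set.range v) = ⊤ := by
    rw [eq_top_iff]
    rintro x -
    rw [Set.range_const, Submodule.mem_span_singleton]
    refine ⟨algebraMap k A (Tr.val (eps k A) x), ?_⟩
    rw [Tr.smul_mk, hc, mul_one, Tr.mk_val]
  have hε : ∀ a : A, a - algebraMap k A (eps k A a) = a - algebraMap k A (eps k A a) ∧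
      eps k A (a - algebraMap k A (eps k A a)) = 0 := by
    intro a
    refine ⟨rfl, ?_⟩
    rw [map_sub, hc, sub_self]
  cases n with
  | zero =>
    refine ⟨ModuleCat.of B (Fin 1 → B), pdlt_free 1, ?_⟩
    choose g hg using fun ξ : E A (Tr (eps k A)) A 0 => hom0_surj ξ
    have gadd : ∀ ξ η, g (ξ + η) = g ξ + g η := fun ξ η => by
      apply hom0_inj
      rw [hom0_add, hg, hg, hg]
    have gpost : ∀ (a : A) ξ, g (post (rm a) ξ) = rm a ∘ₗ g ξ := fun a ξ => by
      apply hom0_inj
      rw [hg, ← post_hom0, hg]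
    let ι : E A (Tr (eps k A)) A 0 →+ (Fin 1 → B) :=
      AddMonoidHom.mk' (fun ξ _ => τ.f (g ξ (Tr.mk (eps k A) 1))) (by
        intro ξ η
        funext t
        rw [gadd, LinearMap.add_apply, map_add]
        rfl)
    refine ⟨ι, ?_, ?_, ?_⟩
    · intro ξ η h
      have h1 := congrFun h 0
      have h2 : g ξ (Tr.mk (eps k A) 1) = g η (Tr.mk (eps k A) 1) := τ.f.injective h1
      rw [← hg ξ, ← hg η]
      congr 1
      apply LinearMap.ext_on_range hv
      intro t
      exact h2
    · intro a ξ
      funext t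
      change τ.f (g (post (rm a) ξ) (Tr.mk (eps k A) 1)) = τ.f a * τ.f (g ξ (Tr.mk (eps k A) 1))
      rw [gpost, ← τ.mul]
      rfl
    · refine ⟨hom0 (coef fun _ => 1), ?_⟩
      intro y
      obtain ⟨f, rfl⟩ := hom0_surj (V := (Fin 1 → B)) (X := B) y
      obtain ⟨b, rfl⟩ := exists_coef f
      obtain ⟨a, ha⟩ := τ.f.surjective (b 0)
      refine ⟨eps k A a, ?_⟩
      intro U _ _ i hi
      rw [smul_eq_post]
      rw [pre_hom0, pre_hom0, post_hom0]
      congr 1
      ext u
      obtain ⟨ξ, hξ⟩ := hi u
      rw [LinearMap.comp_apply, LinearMap.comp_apply, LinearMap.comp_apply, ← hξ]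
      have h1 : ∀ b : Fin 1 → B, coef b (ι ξ) = τ.f (g ξ (Tr.mk (eps k A) 1)) * b 0 := by
        intro b
        rw [coef_apply, Fin.sum_univ_one]
        rfl
      rw [h1, h1, mul_one, LinearMap.toSpanSingleton_apply, smul_eq_mul, ← ha, ← τ.mul,
        ← anti_algebraMap τ hτ, ← τ.mul]
      congr 1
      have h2 : ∀ a' : A, a' * g ξ (Tr.mk (eps k A) 1) = g ξ (Tr.mk (eps k A) (eps k A a')) := by
        intro a'
        rw [← smul_eq_mul, ← map_smul, Tr.smul_mk, mul_one]
      rw [h2, h2, hc]
  | succ j =>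
    have hfg : (LinearMap.ker (Fintype.linearCombination A v)).FG := IsNoetherian.noetherian _
    obtain ⟨s, w, hw⟩ := Submodule.fg_iff_exists_fin_generating_family.1 hfg
    obtain ⟨Q, hch, ι, hι, hι'⟩ := taskQ A B τ j (Tr (eps k A)) 1 v hv
      (fun i _ hij => hX i (by omega)) s w hw
    have hinj := mat_injective τ hv hw (hX 0 (by omega))
    have h1 : SES (mat τ w) (LinearMap.range (mat τ w)).mkQ := SES.ofInj hinj
    have hpd : HasProjectiveDimensionLT
        (ModuleCat.of B ((Fin s → B) ⧸ LinearMap.range (mat τ w))) (1 + 1) :=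
      h1.sh.hasProjectiveDimensionLT_X₃ 1 (pdlt_free 1) (pdlt_mono (by omega) (pdlt_free s))
    refine ⟨Q, pdlt_mono (by omega) (hch.pd hpd), ι, hι, hι', ?_⟩
    have hD := hch.conn 1
    rw [add_comm 1 j] at hD
    obtain ⟨D, hDs, hDp⟩ := hD
    refine ⟨D (dr h1 (hom0 (coef fun _ => 1))), ?_⟩
    intro y
    obtain ⟨ζ, rfl⟩ := hDs y
    have hP : Module.Projective B (Fin s → B) := Module.Projective.of_free
    obtain ⟨η, rfl⟩ := con3 h1 ζ (E_proj _)
    obtain ⟨f, rfl⟩ := hom0_surj η
    obtain ⟨b, rfl⟩ := exists_coef f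
    obtain ⟨a, ha⟩ := τ.f.surjective (b 0)
    refine ⟨eps k A a, ?_⟩
    intro U _ _ i _
    have key : dr h1 (hom0 (coef b)) = eps k A a • dr h1 (hom0 (coef fun _ => (1 : B))) := by
      -- the element `a - ε(a)` lies in the span of the rows
      have hmem : (fun _ => a - algebraMap k A (eps k A a) : Fin 1 → A) ∈
          Submodule.span A (Set.range w) := by
        rw [hw, LinearMap.mem_ker, Fintype.linearCombination_apply, Fin.sum_univ_one]
        change (a - algebraMap k A (eps k A a)) • Tr.mk (eps k A) 1 = 0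
        rw [Tr.smul_mk, (hε a).2, zero_mul]
        rfl
      rw [← Fintype.range_linearCombination] at hmem
      obtain ⟨α, hα⟩ := hmem
      have h2 : coef b = (rm (algebraMap k B (eps k A a)) ∘ₗ coef fun _ => (1 : B)) +
          coef (fun t => τ.f (α t)) ∘ₗ mat τ w := by
        apply LinearMap.ext
        intro β
        have h3 : (coef (fun t => τ.f (α t))) (mat τ w β) = β 0 * τ.f (∑ t, α t * w t 0) := by
          rw [coef_apply, map_sum, Finset.mul_sum]
          apply Finset.sum_congr rfl
          intro t _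
          rw [mat_apply, Fin.sum_univ_one, τ.mul, mul_assoc]
        have h4 : ∑ t, α t * w t 0 = a - algebraMap k A (eps k A a) := by
          have := congrFun hα 0
          rw [Fintype.linearCombination_apply, Finset.sum_apply] at this
          exact this
        rw [LinearMap.add_apply, LinearMap.comp_apply, LinearMap.comp_apply, h3, h4, map_sub,
          anti_algebraMap τ hτ, ha, coef_apply, coef_apply, Fin.sum_univ_one, Fin.sum_univ_one,
          LinearMap.toSpanSingleton_apply, smul_eq_mul]
        noncomm_ring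
      rw [h2, hom0_add, dr_add, ← pre_hom0 (mat τ w), dr_pre, add_zero, smul_eq_post, post_dr,
        post_hom0]
    rw [key, smul_eq_post, hDp, pre_post, ← smul_eq_post]

/-- the module structure on a stable subspace of `Ext^n(k, A)` -/
@[reducible] noncomputable def stMod {n : ℕ} (U : Submodule k (E A (Tr (eps k A)) A n))
    (hU : ∀ (a : A) (ξ : E A (Tr (eps k A)) A n), ξ ∈ U → post (rm a) ξ ∈ U) : Module B U where
  smul b u := ⟨post (rm (τ.symm.f b)) u.1, hU _ _ u.2⟩
  one_smul u := by
    apply Subtype.ext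
    change post (rm (τ.symm.f 1)) u.1 = u.1
    rw [τ.symm.one]
    have : (rm (1 : A)) = LinearMap.id := by ext; simp
    rw [this, post_id]
  mul_smul b c u := by
    apply Subtype.ext
    change post (rm (τ.symm.f (b * c))) u.1 =
      post (rm (τ.symm.f b)) (post (rm (τ.symm.f c)) u.1)
    rw [← post_comp]
    congr 1
    ext
    simp [τ.symm.mul]
  smul_zero b := by
    apply Subtype.ext
    exact post_zero _
  smul_add b u v := by
    apply Subtype.ext
    exact post_add _ _ _
  add_smul b c u := by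
    apply Subtype.ext
    change post (rm (τ.symm.f (b + c))) u.1 =
      post (rm (τ.symm.f b)) u.1 + post (rm (τ.symm.f c)) u.1
    rw [← add_post]
    congr 1
    ext
    simp
  zero_smul u := by
    apply Subtype.ext
    change post (rm (τ.symm.f 0)) u.1 = 0
    have : rm (τ.symm.f (0 : B)) = (0 : A →ₗ[A] A) := by ext; simp
    rw [this, zero_post]

include hτ in
theorem anti_symm_smul (c : k) (b : B) : τ.symm.f (c • b) = c • τ.symm.f b := by
  apply τ.f.injective
  rw [hτ, Anti.f_symm_apply, Anti.f_symm_apply]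

include hτ in
/-- The main theorem for a pair of anti-isomorphic Hopf algebras. -/
theorem main_pair (hA : IsNoetherianRing A) (hB : IsNoetherianRing B) (n : ℕ)
    (hX : ∀ i, i < n → Subsingleton (E A (Tr (eps k A)) A i))
    (U : Submodule k (E A (Tr (eps k A)) A n)) (hU0 : U ≠ ⊥) (hUf : FiniteDimensional k U)
    (hU : ∀ (a : A) (ξ : E A (Tr (eps k A)) A n), ξ ∈ U → post (rm a) ξ ∈ U) :
    IDLT A A (n + 1) ∧ IDLT B B (n + 1) ∧
      (∀ i, i < n → Subsingleton (E B (Tr (eps k B)) B i)) ∧
      Module.finrank k (E B (Tr (eps k B)) B n) = 1 := by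
  obtain ⟨Q, hQ, ι, hι, hι', x₀, hx₀⟩ := stepQ τ hτ n hX
  let _ : Module B U := stMod τ U hU
  have hsm : ∀ (b : B) (u : U), ((b • u : U) : E A (Tr (eps k A)) A n) =
      post (rm (τ.symm.f b)) (u : E A (Tr (eps k A)) A n) := fun _ _ => rfl
  have hst : IsScalarTower k B U := by
    refine ⟨fun c b u => ?_⟩
    apply Subtype.ext
    rw [hsm, Submodule.coe_smul, hsm, anti_symm_smul τ hτ, smul_eq_post, ← post_comp]
    congr 1
    ext
    simp [Algebra.smul_def, Algebra.commutes]
  -- the inclusion into `Q`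
  let i : U →ₗ[B] Q :=
    { toFun := fun u => ι u
      map_add' := fun u v => by rw [Submodule.coe_add, map_add]
      map_smul' := fun b u => by
        rw [hsm, hι', Anti.f_symm_apply, RingHom.id_apply] }
  have hi : Function.Injective i := fun u v h => Subtype.ext (hι h)
  have hnt : Nontrivial U := Submodule.nontrivial_iff_ne_bot.2 hU0
  -- Step A
  have hIA : IDLT A A (n + 1) := by
    let _ : Module k Q := ModuleCat.moduleOfAlgebraModule Q
    have _ : IsScalarTower k B Q := ModuleCat.isScalarTower_of_algebra_moduleCat Q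
    have hr : LinearMap.range i ≠ ⊥ := by
      intro h
      obtain ⟨u, hu⟩ := exists_ne (0 : U)
      apply hu
      apply hi
      rw [map_zero]
      have : i u ∈ LinearMap.range i := ⟨u, rfl⟩
      rw [h, Submodule.mem_bot] at this
      exact this
    have hfin : FiniteDimensional k (LinearMap.range i) := by
      let g : U →ₗ[k] LinearMap.range i := (i.rangeRestrict).restrictScalars k
      exact Module.Finite.of_surjective g i.surjective_rangeRestrict
    exact taskI k A B τ hτ hA n (taskT k B n Q hQ (LinearMap.range i) hr hfin)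
  -- Step B
  have hY : ∀ m, m < n → Subsingleton (E B (Tr (eps k B)) B m) := fun m hm =>
    (taskS k A B τ hτ hA hB m).1 (hX m hm)
  have hYn : Nontrivial (E B (Tr (eps k B)) B n) := by
    rw [← not_subsingleton_iff_nontrivial, ← taskS k A B τ hτ hA hB n,
      not_subsingleton_iff_nontrivial]
    exact Subtype.val_injective.nontrivial (α := U)
  -- Step C
  have hIB : IDLT B B (n + 1) := by
    have hfU : Module.Finite B U := Module.Finite.of_restrictScalars_finite k B U
    have hVU : ∀ m, m < n → Subsingleton (E B U B m) := by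
      intro m hm
      obtain ⟨e⟩ := taskD k B U m
      have := hY m hm
      exact e.toEquiv.subsingleton
    obtain ⟨Q', hQ', f, hf⟩ := taskP_of taskQ B A τ.symm n U (Tr (eps k A)) hVU hX
      U.subtype.toAddMonoidHom (fun b u => rfl) (by
        intro h
        obtain ⟨u, hu⟩ := exists_ne (0 : U)
        apply hu
        apply Subtype.ext
        exact DFunLike.congr_fun h u)
    let _ : Module k Q' := ModuleCat.moduleOfAlgebraModule Q'
    have _ : IsScalarTower k A Q' := ModuleCat.isScalarTower_of_algebra_moduleCat Q'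
    have hr : LinearMap.range f ≠ ⊥ := by
      rwa [Ne, LinearMap.range_eq_bot]
    have hfin : FiniteDimensional k (LinearMap.range f) := by
      have hTr : FiniteDimensional k (Tr (eps k A)) :=
        inferInstanceAs (FiniteDimensional k k)
      let g : Tr (eps k A) →ₗ[k] LinearMap.range f := (f.rangeRestrict).restrictScalars k
      exact Module.Finite.of_surjective g f.surjective_rangeRestrict
    exact taskI k B A τ.symm (anti_symm_smul τ hτ) hB n
      (taskT k A n Q' hQ' (LinearMap.range f) hr hfin)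
  refine ⟨hIA, hIB, hY, ?_⟩
  -- Step D
  have hcyc : ∀ y : E B U B n, ∃ c : k, y = c • pre i x₀ := by
    intro y
    have hs : SES i (LinearMap.range i).mkQ := SES.ofInj hi
    obtain ⟨z, hz⟩ := con1 hs y (Abelian.Ext.eq_zero_of_hasInjectiveDimensionLT _ (n + 1) le_rfl)
    obtain ⟨c, hc⟩ := hx₀ z
    exact ⟨c, by rw [← hz, hc U i fun u => ⟨u, rfl⟩]⟩
  obtain ⟨e⟩ := taskD k B U n
  have hd : 0 < Module.finrank k U := Module.finrank_pos
  let t₀ : Fin (Module.finrank k U) := ⟨0, hd⟩
  have hp : ∀ z : E B (Tr (eps k B)) B n, ∃ c : k, c • (e (pre i x₀) t₀) = z := by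
    intro z
    obtain ⟨c, hc⟩ := hcyc (e.symm fun _ => z)
    refine ⟨c, ?_⟩
    have h1 := congrArg e hc
    rw [LinearEquiv.apply_symm_apply, map_smul] at h1
    exact (congrFun h1 t₀).symm
  refine finrank_eq_one_iff'.2 ⟨e (pre i x₀) t₀, ?_, hp⟩
  intro h0
  obtain ⟨y₀, hy₀⟩ := exists_ne (0 : E B (Tr (eps k B)) B n)
  obtain ⟨c, hc⟩ := hp y₀
  apply hy₀
  rw [← hc, h0, smul_zero]

end

end Pool.Agent.Helper377_AG
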