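import Pool.Agent.Helper377_AG.Defs
import Pool.Agent.Helper377_AG.Adj

set_option autoImplicit false

open CategoryTheory
open scoped TensorProduct

namespace Pool.Agent.Helper377_AG

open Pool.Agent.Helper202_BG

theorem ext_iso_aux {C : Type 1} [Category.{0} C] [Abelian C] [HasExt.{0} C] {X X' Y Y' : C}
    (a : X ≅ X') (b : Y ≅ Y') (n : ℕ) (h : Subsingleton (Abelian.Ext.{0} X Y n)) :
    Subsingleton (Abelian.Ext.{0} X' Y' n) := by
  refine ⟨fun ξ η => ?_⟩
  have key : ∀ ξ : Abelian.Ext.{0} X' Y' n, ξ = 0 := by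
    intro ξ
    have h1 : (Abelian.Ext.mk₀ a.hom).comp (ξ.comp (Abelian.Ext.mk₀ b.inv) (add_zero n))
        (zero_add n) = 0 := Subsingleton.elim _ _
    have h2 : (Abelian.Ext.mk₀ a.inv).comp (((Abelian.Ext.mk₀ a.hom).comp
        (ξ.comp (Abelian.Ext.mk₀ b.inv) (add_zero n)) (zero_add n)).comp
        (Abelian.Ext.mk₀ b.hom) (add_zero n)) (zero_add n) = ξ := by
      rw [Abelian.Ext.comp_assoc (a₂₃ := n) _ _ _ (by omega) (by omega) (by omega),
        Abelian.Ext.comp_assoc (a₂₃ := 0) _ _ _ (by omega) (by omega) (by omega),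
        Abelian.Ext.mk₀_comp_mk₀, b.inv_hom_id, Abelian.Ext.comp_mk₀_id,
        ← Abelian.Ext.comp_assoc (a₁₂ := 0) _ _ _ (by omega) (by omega) (by omega),
        Abelian.Ext.mk₀_comp_mk₀, a.inv_hom_id, Abelian.Ext.mk₀_id_comp]
    rw [← h2, h1, Abelian.Ext.zero_comp, Abelian.Ext.comp_zero]
  rw [key ξ, key η]

theorem taskS2 : TaskS2 := by
  intro R S _ _ σ M _ _ M' _ _ N _ _ N' _ _ f g hf hg i
  have hf1 : ∀ (r : R) (x : M'), f.symm (σ r • x) = r • f.symm x := by
    intro r x
    apply f.injective
    rw [hf, f.apply_symm_apply, f.apply_symm_apply]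
  have hg1 : ∀ (r : R) (x : N'), g.symm (σ r • x) = r • g.symm x := by
    intro r x
    apply g.injective
    rw [hg, g.apply_symm_apply, g.apply_symm_apply]
  let F : ModuleCat.{0} S ⥤ ModuleCat.{0} R := ModuleCat.restrictScalars (σ : R →+* S)
  have : F.IsEquivalence :=
    (ModuleCat.restrictScalarsEquivalenceOfRingEquiv σ).isEquivalence_functor
  let e1 : ((ModuleCat.restrictScalars (σ : R →+* S)).obj (ModuleCat.of S M')) ≃ₗ[R] M :=
      { toFun := fun x => f.symm x
        invFun := fun x => f x
        left_inv := fun x => f.apply_symm_apply x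
        right_inv := fun x => f.symm_apply_apply x
        map_add' := fun x y => map_add f.symm _ _
        map_smul' := fun r x => hf1 r x }
  let e2 : ((ModuleCat.restrictScalars (σ : R →+* S)).obj (ModuleCat.of S N')) ≃ₗ[R] N :=
      { toFun := fun x => g.symm x
        invFun := fun x => g x
        left_inv := fun x => g.apply_symm_apply x
        right_inv := fun x => g.symm_apply_apply x
        map_add' := fun x y => map_add g.symm _ _
        map_smul' := fun r x => hg1 r x }
  let a : F.obj (ModuleCat.of S M') ≅ ModuleCat.of R M := e1.toModuleIso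
  let b : F.obj (ModuleCat.of S N') ≅ ModuleCat.of R N := e2.toModuleIso
  have hbij := F.mapExt_bijective_of_preservesProjectiveObjects (ModuleCat.of S M')
    (ModuleCat.of S N') i
  constructor
  · intro h
    have h1 := ext_iso_aux a.symm b.symm i h
    exact hbij.1.subsingleton
  · intro h
    exact ext_iso_aux a b i (hbij.2.subsingleton)


section S0
variable {A : Type} [Ring A] [IsNoetherianRing A] {ι : Type}

omit [IsNoetherianRing A] in
theorem s0_zero {K : Type} [AddCommGroup K] [Module A K]
    (h : Subsingleton (E A K A 0)) (ξ : E A K (ι →₀ A) 0) : ξ = 0 := by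
  obtain ⟨f, rfl⟩ := hom0_surj ξ
  rw [hom0_eq_zero]
  refine LinearMap.ext fun x => Finsupp.ext fun j => ?_
  have h1 : hom0 ((Finsupp.lapply j : (ι →₀ A) →ₗ[A] A) ∘ₗ f) = 0 := Subsingleton.elim _ _
  rw [hom0_eq_zero] at h1
  exact LinearMap.congr_fun h1 x

omit [IsNoetherianRing A] in
theorem s0_fin {L : Type} [AddCommGroup L] [Module A L] [Module.Finite A L]
    (f : L →ₗ[A] (ι →₀ A)) : ∃ s : Finset ι, ∀ x, (f x).support ⊆ s := by
  classical
  obtain ⟨t, ht⟩ := (Module.Finite.fg_top : (⊤ : Submodule A L).FG)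
  refine ⟨t.biUnion fun y => (f y).support, fun x => ?_⟩
  have hx : x ∈ Submodule.span A (t : Set L) := by rw [ht]; trivial
  induction hx using Submodule.span_induction with
  | mem y hy =>
    intro j hj
    rw [Finset.mem_biUnion]
    exact ⟨y, hy, hj⟩
  | zero => simp
  | add x y _ _ hx hy =>
    rw [map_add]
    exact Finsupp.support_add.trans (Finset.union_subset hx hy)
  | smul a x _ hx =>
    rw [map_smul]
    exact Finsupp.support_smul.trans hx

theorem s0_all (n : ℕ) : ∀ (K : Type) [AddCommGroup K] [Module A K] [Module.Finite A K],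
    Subsingleton (E A K A n) → ∀ ξ : E A K (ι →₀ A) n, ξ = 0 := by
  classical
  induction n with
  | zero => intro K _ _ _ h ξ; exact s0_zero h ξ
  | succ n ih =>
    intro K _ _ _ hK ξ
    obtain ⟨r, p, hp⟩ := Module.Finite.exists_fin' A K
    have h := SES.ofSurj hp
    have hL : Module.Finite A (LinearMap.ker p) := inferInstance
    obtain ⟨ζ, rfl⟩ := con3 h ξ (E_proj _)
    cases n with
    | zero =>
      obtain ⟨f, rfl⟩ := hom0_surj ζ
      obtain ⟨s, hs⟩ := s0_fin f
      have hex : ∀ j : ι, ∃ g : (Fin r → A) →ₗ[A] A,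
          g ∘ₗ (LinearMap.ker p).subtype = (Finsupp.lapply j : (ι →₀ A) →ₗ[A] A) ∘ₗ f := by
        intro j
        obtain ⟨ζ', hζ'⟩ := con1 h (hom0 ((Finsupp.lapply j : (ι →₀ A) →ₗ[A] A) ∘ₗ f))
          (Subsingleton.elim _ _)
        obtain ⟨g, rfl⟩ := hom0_surj ζ'
        rw [pre_hom0] at hζ'
        exact ⟨g, hom0_inj hζ'⟩
      choose g hg using hex
      have hG : hom0 f = pre (LinearMap.ker p).subtype
          (hom0 (∑ j ∈ s, (Finsupp.lsingle j : A →ₗ[A] (ι →₀ A)) ∘ₗ g j)) := by
        rw [pre_hom0]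
        congr 1
        refine LinearMap.ext fun x => ?_
        rw [LinearMap.comp_apply, LinearMap.sum_apply]
        have h1 : ∀ j ∈ s, ((Finsupp.lsingle j : A →ₗ[A] (ι →₀ A)) ∘ₗ g j)
            ((LinearMap.ker p).subtype x) = Finsupp.single j (f x j) := by
          intro j _
          have := LinearMap.congr_fun (hg j) x
          rw [LinearMap.comp_apply, LinearMap.comp_apply] at this
          rw [LinearMap.comp_apply, this]
          rfl
        rw [Finset.sum_congr rfl h1]
        conv_lhs => rw [← Finsupp.sum_single (f x)]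
        exact Finsupp.sum_of_support_subset _ (hs x) _ (fun j _ => Finsupp.single_zero j)
      rw [hG, dr_pre]
    | succ m =>
      have hLs : Subsingleton (E A (LinearMap.ker p) A (m + 1)) := by
        have key : ∀ η : E A (LinearMap.ker p) A (m + 1), η = 0 := by
          intro η
          obtain ⟨ζ', rfl⟩ := con1 h η (Subsingleton.elim _ _)
          rw [E_proj ζ', pre_zero]
        exact ⟨fun a b => by rw [key a, key b]⟩
      rw [ih (LinearMap.ker p) hLs ζ, dr_zero]

end S0

theorem taskS0 : TaskS0 := by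
  intro A _ _ K _ _ _ ι _ i
  constructor
  · intro h
    exact ⟨fun a b => by rw [s0_all i K h a, s0_all i K h b]⟩
  · intro h
    obtain ⟨j⟩ := (inferInstance : Nonempty ι)
    have key : ∀ ξ : E A K A i, ξ = 0 := by
      intro ξ
      have h1 : post (Finsupp.lsingle j : A →ₗ[A] (ι →₀ A)) ξ = 0 := Subsingleton.elim _ _
      have h2 : (Finsupp.lapply j : (ι →₀ A) →ₗ[A] A) ∘ₗ (Finsupp.lsingle j) = LinearMap.id := by
        refine LinearMap.ext fun x => ?_
        simp
      rw [← post_id ξ, ← h2, post_comp, h1, post_zero]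
    exact ⟨fun a b => by rw [key a, key b]⟩

end Pool.Agent.Helper377_AG
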