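import Pool.Agent.Helper377_AG.Defs
import Pool.Agent.Helper377_AG.Adj

set_option autoImplicit false

open CategoryTheory
open scoped TensorProduct

namespace Pool.Agent.Helper377_AG

open Pool.Agent.Helper202_BG

namespace S1

section Hopf

variable {k A : Type} [Field k] [Ring A] [HopfAlgebra k A]

/-- the coproduct -/
noncomputable abbrev cm (k A : Type) [Field k] [Ring A] [HopfAlgebra k A] : A →ₗ[k] A ⊗[k] A :=
  CoalgebraStruct.comul (R := k) (A := A)

/-- the antipode -/
noncomputable abbrev an (k A : Type) [Field k] [Ring A] [HopfAlgebra k A] : A →ₗ[k] A :=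
  HopfAlgebraStruct.antipode (R := k) (A := A)

theorem hopf_id {N : Type} [AddCommGroup N] [Module k N] (F : A ⊗[k] A →ₗ[k] N) (n₁ : N)
    (hF : ∀ a, F (cm k A a) = CoalgebraStruct.counit (R := k) (A := A) a • n₁) (a : A) :
    LinearMap.lTensor A F (TensorProduct.assoc k A A A
      (LinearMap.rTensor A (cm k A) (cm k A a))) = a ⊗ₜ[k] n₁ := by
  rw [Coalgebra.coassoc_apply, ← LinearMap.comp_apply, ← LinearMap.lTensor_comp]
  have h : F ∘ₗ cm k A = (LinearMap.toSpanSingleton k N n₁) ∘ₗ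
      CoalgebraStruct.counit (R := k) (A := A) := by
    ext a
    simp [hF]
  rw [h, LinearMap.lTensor_comp, LinearMap.comp_apply, Coalgebra.lTensor_counit_comul]
  simp

variable {B : Type} [Ring B] [Algebra k B] (τ : Anti A B)
  (hτ : ∀ (c : k) (a : A), τ.f (c • a) = c • τ.f a)

/-- `τ` as a linear map -/
def tl : A →ₗ[k] B where
  toFun := τ.f
  map_add' := map_add _
  map_smul' := hτ

@[simp] theorem tl_apply (a : A) : tl τ hτ a = τ.f a := rfl

theorem an_mul (a b : A) : an k A (a * b) = an k A b * an k A a :=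
  HopfAlgebra.antipode_mul_antidistrib a b

theorem an_one : an k A 1 = 1 := HopfAlgebra.antipode_one

/-- `τ S` -/
noncomputable def ts : A →ₐ[k] B :=
  AlgHom.ofLinearMap (tl τ hτ ∘ₗ an k A)
    (by rw [LinearMap.comp_apply, an_one, tl_apply, τ.one])
    (fun a b => by
      simp only [LinearMap.comp_apply, an_mul, tl_apply, τ.mul])

@[simp] theorem ts_apply (a : A) : ts τ hτ a = τ.f (an k A a) := rfl

/-- `δ` -/
noncomputable def dd : A →ₐ[k] A ⊗[k] B :=
  (Algebra.TensorProduct.map (AlgHom.id k A) (ts τ hτ)).comp (Bialgebra.comulAlgHom k A)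

theorem dd_apply (a : A) : dd τ hτ a = Algebra.TensorProduct.map (AlgHom.id k A) (ts τ hτ) (cm k A a) :=
  rfl


/-! ### the identities -/

theorem mul_an (a : A) : LinearMap.mul' k A (LinearMap.rTensor A (an k A) (cm k A a)) =
    CoalgebraStruct.counit (R := k) (A := A) a • (1 : A) := by
  rw [Algebra.smul_def, mul_one]
  exact HopfAlgebra.mul_antipode_rTensor_comul_apply a

theorem mul_an' (a : A) : LinearMap.mul' k A (LinearMap.lTensor A (an k A) (cm k A a)) =
    CoalgebraStruct.counit (R := k) (A := A) a • (1 : A) := by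
  rw [Algebra.smul_def, mul_one]
  exact HopfAlgebra.mul_antipode_lTensor_comul_apply a

/-- the general form of the computations: `∑ x₁₁ ⊗ F (x₁₂ ⊗ x₂)` -/
theorem gen3 {N : Type} [AddCommGroup N] [Module k N] (F : A ⊗[k] A →ₗ[k] N) (n₁ : N)
    (hF : ∀ a, F (cm k A a) = CoalgebraStruct.counit (R := k) (A := A) a • n₁)
    (G : A ⊗[k] A →ₗ[k] A ⊗[k] N)
    (hG : ∀ x y, G (x ⊗ₜ[k] y) = LinearMap.lTensor A (F ∘ₗ (TensorProduct.mk k A A).flip y)
      (cm k A x)) (a : A) :
    G (cm k A a) = a ⊗ₜ[k] n₁ := by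
  rw [← hopf_id F n₁ hF a]
  have key : ∀ t : A ⊗[k] A, G t = LinearMap.lTensor A F (TensorProduct.assoc k A A A
      (LinearMap.rTensor A (cm k A) t)) := by
    intro t
    induction t with
    | zero => simp
    | add x y hx hy => rw [map_add, hx, hy]; simp
    | tmul x y =>
      rw [hG, LinearMap.rTensor_tmul]
      generalize cm k A x = s
      induction s with
      | zero => simp
      | add s t hs ht => rw [map_add, hs, ht, TensorProduct.add_tmul]; simp
      | tmul p q => simp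
  exact key _

/-- `∑ (1 ⊗ τ(a₂)) δ(a₁) = a ⊗ 1` -/
theorem id_a (G : A ⊗[k] A →ₗ[k] A ⊗[k] B)
    (hG : ∀ x y, G (x ⊗ₜ[k] y) = ((1 : A) ⊗ₜ[k] τ.f y) * dd τ hτ x) (a : A) :
    G (cm k A a) = a ⊗ₜ[k] 1 := by
  refine gen3 (tl τ hτ ∘ₗ LinearMap.mul' k A ∘ₗ LinearMap.rTensor A (an k A)) 1 ?_ G ?_ a
  · intro a
    rw [LinearMap.comp_apply, LinearMap.comp_apply, mul_an, map_smul, tl_apply, τ.one]
  · intro x y
    rw [hG, dd_apply]
    generalize cm k A x = s
    induction s with
    | zero => simp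
    | add s t hs ht => rw [map_add, mul_add, hs, ht, map_add]
    | tmul p q => simp [τ.mul]

/-- `∑ δ(a₁) (1 ⊗ τ (S (S a₂))) = a ⊗ 1` -/
theorem id_b (G : A ⊗[k] A →ₗ[k] A ⊗[k] B)
    (hG : ∀ x y, G (x ⊗ₜ[k] y) = dd τ hτ x * ((1 : A) ⊗ₜ[k] τ.f (an k A (an k A y)))) (a : A) :
    G (cm k A a) = a ⊗ₜ[k] 1 := by
  refine gen3 (tl τ hτ ∘ₗ an k A ∘ₗ LinearMap.mul' k A ∘ₗ LinearMap.lTensor A (an k A)) 1 ?_ G ?_ a
  · intro a
    rw [LinearMap.comp_apply, LinearMap.comp_apply, LinearMap.comp_apply, mul_an', map_smul,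
      map_smul, an_one, tl_apply, τ.one]
  · intro x y
    rw [hG, dd_apply]
    generalize cm k A x = s
    induction s with
    | zero => simp
    | add s t hs ht => rw [map_add, add_mul, hs, ht, map_add]
    | tmul p q => simp [τ.mul, an_mul]

/-- `∑ δ'(a₁) (1 ⊗ τ (S a₂)) = a ⊗ 1` with `δ'(x) = ∑ x₁ ⊗ τ (S (S x₂))` -/
theorem id_c (G : A ⊗[k] A →ₗ[k] A ⊗[k] B)
    (hG : ∀ x y, G (x ⊗ₜ[k] y) =
      LinearMap.lTensor A (tl τ hτ ∘ₗ an k A ∘ₗ an k A) (cm k A x) * ((1 : A) ⊗ₜ[k] τ.f (an k A y)))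
    (a : A) : G (cm k A a) = a ⊗ₜ[k] 1 := by
  refine gen3 (tl τ hτ ∘ₗ an k A ∘ₗ LinearMap.mul' k A ∘ₗ LinearMap.rTensor A (an k A)) 1 ?_ G ?_ a
  · intro a
    rw [LinearMap.comp_apply, LinearMap.comp_apply, LinearMap.comp_apply, mul_an, map_smul,
      map_smul, an_one, tl_apply, τ.one]
  · intro x y
    rw [hG]
    generalize cm k A x = s
    induction s with
    | zero => simp
    | add s t hs ht => rw [map_add, add_mul, hs, ht, map_add]
    | tmul p q => simp [τ.mul, an_mul]

end Hopf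

section Mod

variable {k A B : Type} [Field k] [Ring A] [HopfAlgebra k A] [Ring B] [Algebra k B] (τ : Anti A B)
  (hτ : ∀ (c : k) (a : A), τ.f (c • a) = c • τ.f a)
variable (M : Type) [AddCommGroup M] [Module A M] [Module k M] [IsScalarTower k A M]

/-- the action of `A ⊗ A` on `M ⊗ A` -/
noncomputable def oq : A ⊗[k] A →ₐ[k] Module.End k (M ⊗[k] A) :=
  (Module.endTensorEndAlgHom (R := k) (S := k) (A := k)).comp
    (Algebra.TensorProduct.map (Algebra.lsmul k k M) (Algebra.lsmul k k A))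

theorem oq_tmul (a b : A) (m : M) (x : A) :
    oq M (a ⊗ₜ[k] b) (m ⊗ₜ[k] x) = (a • m) ⊗ₜ[k] (b * x) := by
  rw [oq, AlgHom.comp_apply, Algebra.TensorProduct.map_tmul]
  erw [Module.endTensorEndAlgHom_apply]
  rfl

/-- the diagonal action on `M ⊗ A` -/
noncomputable def dg : A →ₐ[k] Module.End k (M ⊗[k] A) :=
  (oq M).comp (Bialgebra.comulAlgHom k A)

theorem dg_apply (a : A) (t : M ⊗[k] A) : dg M a t = oq M (cm k A a) t := rfl

/-- the action of `B` on `M ⊗ A` -/
noncomputable def rg : B →ₐ[k] Module.End k (M ⊗[k] A) :=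
  AlgHom.ofLinearMap
    { toFun := fun b => LinearMap.lTensor M (LinearMap.mulRight k (τ.symm.f b))
      map_add' := fun b c => by
        rw [map_add, ← LinearMap.lTensor_add]
        congr 1
        ext; simp [mul_add]
      map_smul' := fun c b => by
        have h : τ.symm.f (c • b) = c • τ.symm.f b := by
          apply τ.f.injective
          rw [hτ]
          simp [Anti.symm]
        rw [h, RingHom.id_apply, ← LinearMap.lTensor_smul]
        congr 1
        ext; simp }
    (by
      ext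
      simp [Anti.one τ.symm])
    (fun b c => by
      ext
      simp [τ.symm.mul, mul_assoc])

theorem rg_tmul (b : B) (m : M) (x : A) :
    rg τ hτ M b (m ⊗ₜ[k] x) = m ⊗ₜ[k] (x * τ.symm.f b) := rfl

/-- the action of `A ⊗ B` on `M ⊗ A` -/
noncomputable def ac : A ⊗[k] B →ₐ[k] Module.End k (M ⊗[k] A) :=
  Algebra.TensorProduct.lift (dg M) (rg τ hτ M) (fun a b => by
    rw [commute_iff_eq]
    apply LinearMap.ext
    intro t
    change dg M a (rg τ hτ M b t) = rg τ hτ M b (dg M a t)
    rw [dg_apply, dg_apply]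
    generalize cm k A a = s
    induction s with
    | zero => simp
    | add x y hx hy => simp only [map_add, LinearMap.add_apply, hx, hy]
    | tmul p q =>
      induction t with
      | zero => simp
      | add x y hx hy => simp only [map_add, hx, hy]
      | tmul m x => rw [rg_tmul, oq_tmul, oq_tmul, rg_tmul]; simp [mul_assoc])

theorem ac_tmul (a : A) (b : B) (t : M ⊗[k] A) :
    ac τ hτ M (a ⊗ₜ[k] b) t = dg M a (rg τ hτ M b t) := by
  rw [ac, Algebra.TensorProduct.lift_tmul]
  rfl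

/-- the module `F M` -/
def FT (_ : ∀ (c : k) (a : A), τ.f (c • a) = c • τ.f a) (M : Type)
    [AddCommGroup M] [Module k M] : Type := M ⊗[k] A

noncomputable instance : AddCommGroup (FT τ hτ M) := inferInstanceAs (AddCommGroup (M ⊗[k] A))

noncomputable instance : Module k (FT τ hτ M) := inferInstanceAs (Module k (M ⊗[k] A))

noncomputable instance : Module (A ⊗[k] B) (FT τ hτ M) :=
  letI : Module (Module.End k (M ⊗[k] A)) (FT τ hτ M) :=
    inferInstanceAs (Module (Module.End k (M ⊗[k] A)) (M ⊗[k] A))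
  Module.compHom (FT τ hτ M) (ac τ hτ M).toRingHom

variable {M}

/-- elementary tensors -/
def mk (m : M) (x : A) : FT τ hτ M := m ⊗ₜ[k] x

theorem smul_def (r : A ⊗[k] B) (t : M ⊗[k] A) :
    r • (show FT τ hτ M from t) = (show FT τ hτ M from ac τ hτ M r t) := rfl

instance : IsScalarTower k (A ⊗[k] B) (FT τ hτ M) where
  smul_assoc c r t := by
    change ac τ hτ M (c • r) t = c • ac τ hτ M r t
    rw [map_smul]
    rfl

theorem one_tmul_mk (b : B) (m : M) (x : A) :
    ((1 : A) ⊗ₜ[k] b) • mk τ hτ m x = mk τ hτ m (x * τ.symm.f b) := by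
  change ac τ hτ M ((1 : A) ⊗ₜ[k] b) (m ⊗ₜ[k] x) = _
  rw [ac_tmul, map_one]
  rfl

theorem tmul_one_mk (a : A) (m : M) (x : A) :
    (a ⊗ₜ[k] (1 : B)) • mk τ hτ m x = (show FT τ hτ M from oq M (cm k A a) (m ⊗ₜ[k] x)) := by
  change ac τ hτ M (a ⊗ₜ[k] (1 : B)) (m ⊗ₜ[k] x) = _
  rw [ac_tmul, map_one]
  rfl

/-- `δ(a) (m ⊗ 1) = a m ⊗ 1` -/
theorem dd_mk (a : A) (m : M) : dd τ hτ a • mk τ hτ m 1 = mk τ hτ (a • m) 1 := by
  let G : A ⊗[k] A →ₗ[k] A ⊗[k] A := LinearMap.lTensor A (LinearMap.mul' k A) ∘ₗ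
    (TensorProduct.assoc k A A A).toLinearMap ∘ₗ TensorProduct.map (cm k A) (an k A)
  have hG : G (cm k A a) = a ⊗ₜ[k] 1 := by
    refine gen3 (LinearMap.mul' k A ∘ₗ LinearMap.lTensor A (an k A)) 1 (fun a => mul_an' a) G ?_ a
    intro x y
    simp only [G, LinearMap.comp_apply, TensorProduct.map_tmul]
    generalize cm k A x = s
    induction s with
    | zero => simp
    | add s t hs ht => rw [map_add, ← hs, ← ht, TensorProduct.add_tmul]; simp
    | tmul p q => simp
  have key : ∀ t : A ⊗[k] A,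
      ac τ hτ M (Algebra.TensorProduct.map (AlgHom.id k A) (ts τ hτ) t) (m ⊗ₜ[k] 1) =
        LinearMap.rTensor A ((LinearMap.toSpanSingleton A M m).restrictScalars k) (G t) := by
    intro t
    induction t with
    | zero => simp
    | add s t hs ht => rw [map_add, map_add, LinearMap.add_apply, hs, ht, map_add, map_add]
    | tmul x y =>
      simp only [G, LinearMap.comp_apply, TensorProduct.map_tmul, Algebra.TensorProduct.map_tmul,
        ac_tmul, rg_tmul, dg_apply, AlgHom.id_apply]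
      generalize cm k A x = s
      induction s with
      | zero => simp
      | add s t hs ht =>
        rw [map_add, LinearMap.add_apply, hs, ht, TensorProduct.add_tmul]; simp
      | tmul p q =>
        rw [oq_tmul]
        simp [Anti.symm]
  change ac τ hτ M (dd τ hτ a) (m ⊗ₜ[k] 1) = _
  rw [dd_apply, key, hG]
  simp [mk]

/-- induction on elements of `F M` -/
theorem FT_ext {N : Type} [AddCommGroup N] (f g : FT τ hτ M →+ N)
    (h : ∀ m x, f (mk τ hτ m x) = g (mk τ hτ m x)) : f = g := by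
  ext t
  change f (show FT τ hτ M from t) = g (show FT τ hτ M from t)
  have key : ∀ t : M ⊗[k] A, f (show FT τ hτ M from t) = g (show FT τ hτ M from t) := by
    intro t
    induction t with
    | zero => exact (map_zero f).trans (map_zero g).symm
    | add x y hx hy =>
      refine (map_add f (show FT τ hτ M from x) (show FT τ hτ M from y)).trans ?_
      rw [hx, hy]
      exact (map_add g (show FT τ hτ M from x) (show FT τ hτ M from y)).symm
    | tmul m x => exact h m x
  exact key t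

/-! ### the adjunction -/

/-- the module `G N` -/
def GT (_ : ∀ (c : k) (a : A), τ.f (c • a) = c • τ.f a) (N : Type) : Type := N

instance (N : Type) [AddCommGroup N] : AddCommGroup (GT τ hτ N) := inferInstanceAs (AddCommGroup N)

noncomputable instance (N : Type) [AddCommGroup N] [Module (A ⊗[k] B) N] : Module A (GT τ hτ N) :=
  letI : Module (A ⊗[k] B) (GT τ hτ N) := inferInstanceAs (Module (A ⊗[k] B) N)
  Module.compHom (GT τ hτ N) (dd τ hτ).toRingHom

variable {N : Type} [AddCommGroup N] [Module (A ⊗[k] B) N]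

theorem GT_smul (a : A) (n : N) : (a • (show GT τ hτ N from n)) = (show GT τ hτ N from dd τ hτ a • n) :=
  rfl

/-- functoriality of `G` -/
def Gm {N' : Type} [AddCommGroup N'] [Module (A ⊗[k] B) N'] (g : N →ₗ[A ⊗[k] B] N') :
    GT τ hτ N →ₗ[A] GT τ hτ N' where
  toFun := g
  map_add' := map_add g
  map_smul' a n := map_smul g (dd τ hτ a) (show N from n)

/-- from `F M → N` to `M → G N` -/
noncomputable def ad1 (f : FT τ hτ M →ₗ[A ⊗[k] B] N) : M →ₗ[A] GT τ hτ N where
  toFun m := f (mk τ hτ m 1)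
  map_add' m m' :=
    (congrArg f (TensorProduct.add_tmul m m' (1 : A))).trans (map_add f (mk τ hτ m 1) (mk τ hτ m' 1))
  map_smul' a m := by
    rw [← dd_mk, map_smul]
    rfl

variable [Module k N] [IsScalarTower k (A ⊗[k] B) N]

theorem phi_smul (φ : M →ₗ[A] GT τ hτ N) (c : k) (m : M) :
    (show N from φ (c • m)) = c • (show N from φ m) := by
  have h1 : c • m = (algebraMap k A c) • m := (algebraMap_smul A c m).symm
  rw [h1, map_smul]
  change dd τ hτ (algebraMap k A c) • (show N from φ m) = _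
  rw [AlgHom.commutes]
  exact algebraMap_smul (A ⊗[k] B) c (show N from φ m)

/-- from `M → G N` to `F M → N`, as a linear map over `k` -/
noncomputable def ad2k (φ : M →ₗ[A] GT τ hτ N) : M ⊗[k] A →ₗ[k] N :=
  TensorProduct.lift (LinearMap.mk₂ k
    (fun (m : M) (x : A) => ((1 : A) ⊗ₜ[k] τ.f x : A ⊗[k] B) • (show N from φ m))
    (fun m m' x => by
      rw [map_add]
      exact smul_add _ _ _)
    (fun c m x => by
      have : SMulCommClass (A ⊗[k] B) k N := IsScalarTower.to_smulCommClass'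
      rw [phi_smul τ hτ φ c m, smul_comm])
    (fun m x y => by
      rw [map_add, TensorProduct.tmul_add, add_smul])
    (fun c m x => by
      rw [hτ, TensorProduct.tmul_smul, smul_assoc]))

theorem ad2k_tmul (φ : M →ₗ[A] GT τ hτ N) (m : M) (x : A) :
    ad2k τ hτ φ (m ⊗ₜ[k] x) = ((1 : A) ⊗ₜ[k] τ.f x : A ⊗[k] B) • (show N from φ m) := by
  rw [ad2k, TensorProduct.lift.tmul]
  rfl

theorem ad2k_rg (φ : M →ₗ[A] GT τ hτ N) (b : B) (t : M ⊗[k] A) :
    ad2k τ hτ φ (rg τ hτ M b t) = ((1 : A) ⊗ₜ[k] b : A ⊗[k] B) • ad2k τ hτ φ t := by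
  induction t with
  | zero => simp
  | add x y hx hy => rw [map_add, map_add, hx, hy, map_add, smul_add]
  | tmul m x =>
    rw [rg_tmul, ad2k_tmul, ad2k_tmul, ← mul_smul]
    congr 1
    simp [τ.mul, Anti.symm]

theorem ad2k_dg (φ : M →ₗ[A] GT τ hτ N) (a : A) (t : M ⊗[k] A) :
    ad2k τ hτ φ (dg M a t) = (a ⊗ₜ[k] (1 : B) : A ⊗[k] B) • ad2k τ hτ φ t := by
  induction t with
  | zero => simp
  | add x y hx hy => rw [map_add, map_add, hx, hy, map_add, smul_add]
  | tmul m x =>
    let G : A ⊗[k] A →ₗ[k] A ⊗[k] B := TensorProduct.lift (LinearMap.mk₂ k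
      (fun (p q : A) => ((1 : A) ⊗ₜ[k] τ.f q : A ⊗[k] B) * dd τ hτ p)
      (fun p p' q => by rw [map_add, mul_add])
      (fun c p q => by rw [map_smul, mul_smul_comm])
      (fun p q q' => by rw [map_add, TensorProduct.tmul_add, add_mul])
      (fun c p q => by rw [hτ, TensorProduct.tmul_smul, smul_mul_assoc]))
    have hG : ∀ p q, G (p ⊗ₜ[k] q) = ((1 : A) ⊗ₜ[k] τ.f q) * dd τ hτ p := by
      intro p q
      rw [TensorProduct.lift.tmul]
      rfl
    have hGa := id_a τ hτ G hG a
    have key : ∀ t : A ⊗[k] A, ad2k τ hτ φ (oq M t (m ⊗ₜ[k] x)) =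
        (((1 : A) ⊗ₜ[k] τ.f x : A ⊗[k] B) * G t) • (show N from φ m) := by
      intro t
      induction t with
      | zero => rw [map_zero, LinearMap.zero_apply, map_zero, map_zero, mul_zero, zero_smul]
      | add s t hs ht => rw [map_add, LinearMap.add_apply, map_add, hs, ht, map_add, mul_add, add_smul]
      | tmul p q =>
        rw [oq_tmul, ad2k_tmul, hG, map_smul]
        change _ • (dd τ hτ p • (show N from φ m)) = _
        rw [← mul_smul, ← mul_assoc]
        simp [τ.mul]
    rw [dg_apply, key, hGa, ad2k_tmul, ← mul_smul]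
    simp

theorem ad2k_ac (φ : M →ₗ[A] GT τ hτ N) (r : A ⊗[k] B) (t : M ⊗[k] A) :
    ad2k τ hτ φ (ac τ hτ M r t) = r • ad2k τ hτ φ t := by
  induction r with
  | zero => simp
  | add x y hx hy => rw [map_add, LinearMap.add_apply, map_add, hx, hy, add_smul]
  | tmul a b =>
    rw [ac_tmul, ad2k_dg, ad2k_rg, ← mul_smul]
    simp

/-- from `M → G N` to `F M → N` -/
noncomputable def ad2 (φ : M →ₗ[A] GT τ hτ N) : FT τ hτ M →ₗ[A ⊗[k] B] N where
  toFun := ad2k τ hτ φ
  map_add' := map_add (ad2k τ hτ φ)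
  map_smul' r t := ad2k_ac τ hτ φ r t

theorem ad2_mk (φ : M →ₗ[A] GT τ hτ N) (m : M) (x : A) :
    ad2 τ hτ φ (mk τ hτ m x) = ((1 : A) ⊗ₜ[k] τ.f x : A ⊗[k] B) • (show N from φ m) :=
  ad2k_tmul τ hτ φ m x

theorem ad1_ad2 (φ : M →ₗ[A] GT τ hτ N) : ad1 τ hτ (ad2 τ hτ φ) = φ := by
  ext m
  change ad2 τ hτ φ (mk τ hτ m 1) = _
  rw [ad2_mk, τ.one]
  exact one_smul (A ⊗[k] B) (show N from φ m)

theorem hom_ext {f g : FT τ hτ M →ₗ[A ⊗[k] B] N}
    (h : ∀ m, f (mk τ hτ m 1) = g (mk τ hτ m 1)) : f = g := by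
  have h1 : f.toAddMonoidHom = g.toAddMonoidHom := by
    apply FT_ext
    intro m x
    have e : mk τ hτ m x = ((1 : A) ⊗ₜ[k] τ.f x : A ⊗[k] B) • mk τ hτ m 1 := by
      rw [one_tmul_mk]
      simp [Anti.symm]
    change f _ = g _
    rw [e, map_smul, map_smul, h]
  exact LinearMap.toAddMonoidHom_injective h1

/-- the unit -/
noncomputable def un : M →ₗ[A] GT τ hτ (FT τ hτ M) := ad1 τ hτ LinearMap.id

variable {M' : Type} [AddCommGroup M'] [Module A M'] [Module k M'] [IsScalarTower k A M']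

/-- functoriality of `F` -/
noncomputable def Fm (f : M →ₗ[A] M') : FT τ hτ M →ₗ[A ⊗[k] B] FT τ hτ M' :=
  ad2 τ hτ (un τ hτ ∘ₗ f)

theorem Fm_mk (f : M →ₗ[A] M') (m : M) (x : A) : Fm τ hτ f (mk τ hτ m x) = mk τ hτ (f m) x := by
  rw [Fm, ad2_mk]
  change ((1 : A) ⊗ₜ[k] τ.f x : A ⊗[k] B) • mk τ hτ (f m) 1 = _
  rw [one_tmul_mk]
  simp [Anti.symm]

theorem Fm_eq (f : M →ₗ[A] M') (t : M ⊗[k] A) :
    Fm τ hτ f (show FT τ hτ M from t) =
      (show FT τ hτ M' from LinearMap.rTensor A (f.restrictScalars k) t) := by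
  have h : (Fm τ hτ f).toAddMonoidHom =
      (show FT τ hτ M →+ FT τ hτ M' from
        (LinearMap.rTensor A (f.restrictScalars k)).toAddMonoidHom) := by
    apply FT_ext
    intro m x
    exact Fm_mk τ hτ f m x
  exact DFunLike.congr_fun h t

variable {M'' : Type} [AddCommGroup M''] [Module A M''] [Module k M''] [IsScalarTower k A M'']

theorem SES_F {i : M →ₗ[A] M'} {p : M' →ₗ[A] M''} (h : SES i p) : SES (Fm τ hτ i) (Fm τ hτ p) where
  inj := by
    have h1 : Function.Injective (LinearMap.rTensor A (i.restrictScalars k)) :=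
      Module.Flat.rTensor_preserves_injective_linearMap _ h.inj
    intro x y hxy
    apply h1
    have hx := Fm_eq τ hτ i x
    have hy := Fm_eq τ hτ i y
    exact hx.symm.trans (hxy.trans hy)
  surj := by
    have h1 : Function.Surjective (LinearMap.rTensor A (p.restrictScalars k)) :=
      LinearMap.rTensor_surjective A h.surj
    intro y
    obtain ⟨x, hx⟩ := h1 y
    exact ⟨x, (Fm_eq τ hτ p x).trans hx⟩
  exact := by
    have h1 : Function.Exact (LinearMap.rTensor A (i.restrictScalars k))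
        (LinearMap.rTensor A (p.restrictScalars k)) :=
      rTensor_exact A (fun y => (h.exact y)) h.surj
    intro y
    constructor
    · intro hy
      obtain ⟨x, hx⟩ := (h1 y).mp ((Fm_eq τ hτ p y).symm.trans hy)
      exact ⟨x, (Fm_eq τ hτ i x).trans hx⟩
    · rintro ⟨x, hx⟩
      refine (Fm_eq τ hτ p y).trans ((h1 y).mpr ⟨x, ?_⟩)
      exact (Fm_eq τ hτ i x).symm.trans hx

variable (M) in
/-- `F` preserves projective modules -/
theorem proj_F [Module.Projective A M] : Module.Projective (A ⊗[k] B) (FT τ hτ M) := by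
  apply Module.Projective.of_lifting_property''
  intro f hf
  have h1 : Function.Surjective (Gm τ hτ f) := hf
  obtain ⟨g, hg⟩ := Module.projective_lifting_property (Gm τ hτ f) (un (M := M) τ hτ) h1
  refine ⟨ad2 τ hτ g, ?_⟩
  apply hom_ext
  intro m
  change f (ad2 τ hτ g (mk τ hτ m 1)) = mk τ hτ m 1
  have h2 : ad2 τ hτ g (mk τ hτ m 1) = g m := LinearMap.congr_fun (ad1_ad2 τ hτ g) m
  have h3 : f (g m) = mk τ hτ m 1 := LinearMap.congr_fun hg m
  rw [h2]
  exact h3

end Mod

/-! ### Ext groups -/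

section ExtG

variable {A : Type} [Ring A] {X Y Z V : Type} [AddCommGroup X] [Module A X] [AddCommGroup Y]
  [Module A Y] [AddCommGroup Z] [Module A Z] [AddCommGroup V] [Module A V]

theorem sub0 : Subsingleton (E A X V 0) ↔ ∀ f : X →ₗ[A] V, f = 0 := by
  constructor
  · intro h f
    exact hom0_eq_zero.mp (Subsingleton.elim _ _)
  · intro h
    refine ⟨fun ξ η => ?_⟩
    obtain ⟨f, rfl⟩ := hom0_surj ξ
    obtain ⟨g, rfl⟩ := hom0_surj η
    rw [h f, h g]

theorem sub1 {i : X →ₗ[A] Y} {p : Y →ₗ[A] Z} (h : SES i p) [Module.Projective A Y] :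
    Subsingleton (E A Z V 1) ↔ ∀ f : X →ₗ[A] V, ∃ g : Y →ₗ[A] V, g ∘ₗ i = f := by
  constructor
  · intro hs f
    obtain ⟨ζ, hζ⟩ := con1 h (hom0 f) (Subsingleton.elim _ _)
    obtain ⟨g, rfl⟩ := hom0_surj ζ
    rw [pre_hom0] at hζ
    exact ⟨g, hom0_inj hζ⟩
  · intro hf
    refine subsingleton_of_forall_eq 0 fun ξ => ?_
    obtain ⟨ζ, rfl⟩ := con3 h ξ (E_proj _)
    obtain ⟨f, rfl⟩ := hom0_surj ζ
    obtain ⟨g, rfl⟩ := hf f
    rw [← pre_hom0, dr_pre]

theorem sub2 {i : X →ₗ[A] Y} {p : Y →ₗ[A] Z} (h : SES i p) [Module.Projective A Y] (n : ℕ) :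
    Subsingleton (E A Z V (n + 2)) ↔ Subsingleton (E A X V (n + 1)) := by
  constructor
  · intro hs
    refine subsingleton_of_forall_eq 0 fun ξ => ?_
    obtain ⟨ζ, rfl⟩ := con1 h ξ (Subsingleton.elim _ _)
    rw [E_proj ζ, pre_zero]
  · intro hs
    refine subsingleton_of_forall_eq 0 fun ξ => ?_
    obtain ⟨ζ, rfl⟩ := con3 h ξ (E_proj _)
    rw [Subsingleton.elim ζ 0, dr_zero]

theorem sub_iso_pre (e : X ≃ₗ[A] Y) (n : ℕ) : Subsingleton (E A X V n) ↔ Subsingleton (E A Y V n) := by
  constructor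
  · intro hs
    refine subsingleton_of_forall_eq 0 fun ξ => ?_
    have h1 : pre e.symm.toLinearMap (pre e.toLinearMap ξ) = ξ := by
      rw [← pre_comp]
      have : e.toLinearMap ∘ₗ e.symm.toLinearMap = LinearMap.id := by ext; simp
      rw [this, pre_id]
    rw [← h1, Subsingleton.elim (pre e.toLinearMap ξ) 0, pre_zero]
  · intro hs
    refine subsingleton_of_forall_eq 0 fun ξ => ?_
    have h1 : pre e.toLinearMap (pre e.symm.toLinearMap ξ) = ξ := by
      rw [← pre_comp]
      have : e.symm.toLinearMap ∘ₗ e.toLinearMap = LinearMap.id := by ext; simp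
      rw [this, pre_id]
    rw [← h1, Subsingleton.elim (pre e.symm.toLinearMap ξ) 0, pre_zero]

theorem sub_iso_post (e : X ≃ₗ[A] Y) (n : ℕ) : Subsingleton (E A V X n) ↔ Subsingleton (E A V Y n) := by
  constructor
  · intro hs
    refine subsingleton_of_forall_eq 0 fun ξ => ?_
    have h1 : post e.toLinearMap (post e.symm.toLinearMap ξ) = ξ := by
      rw [← post_comp]
      have : e.toLinearMap ∘ₗ e.symm.toLinearMap = LinearMap.id := by ext; simp
      rw [this, post_id]
    rw [← h1, Subsingleton.elim (post e.symm.toLinearMap ξ) 0, post_zero]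
  · intro hs
    refine subsingleton_of_forall_eq 0 fun ξ => ?_
    have h1 : post e.symm.toLinearMap (post e.toLinearMap ξ) = ξ := by
      rw [← post_comp]
      have : e.symm.toLinearMap ∘ₗ e.toLinearMap = LinearMap.id := by ext; simp
      rw [this, post_id]
    rw [← h1, Subsingleton.elim (post e.toLinearMap ξ) 0, post_zero]

end ExtG

section Main

variable {k A B : Type} [Field k] [Ring A] [HopfAlgebra k A] [Ring B] [Algebra k B] (τ : Anti A B)
  (hτ : ∀ (c : k) (a : A), τ.f (c • a) = c • τ.f a)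
variable (N : Type) [AddCommGroup N] [Module (A ⊗[k] B) N] [Module k N]
  [IsScalarTower k (A ⊗[k] B) N]

theorem main (n : ℕ) : ∀ (M : Type) [AddCommGroup M] [Module A M] [Module k M]
    [IsScalarTower k A M],
    Subsingleton (E A M (GT τ hτ N) n) ↔ Subsingleton (E (A ⊗[k] B) (FT τ hτ M) N n) := by
  induction n with
  | zero =>
    intro M _ _ _ _
    rw [sub0, sub0]
    constructor
    · intro h f
      apply hom_ext
      intro m
      exact LinearMap.congr_fun (h (ad1 τ hτ f)) m
    · intro h φ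
      rw [← ad1_ad2 τ hτ φ, h (ad2 τ hτ φ)]
      rfl
  | succ n ih =>
    intro M _ _ _ _
    let p : (M →₀ A) →ₗ[A] M := Finsupp.linearCombination A id
    have hp : Function.Surjective p := Finsupp.linearCombination_id_surjective A M
    have hS := SES.ofSurj hp
    have hF := SES_F τ hτ hS
    have hP : Module.Projective (A ⊗[k] B) (FT τ hτ (M →₀ A)) := proj_F τ hτ (M →₀ A)
    cases n with
    | zero =>
      rw [zero_add, sub1 hS, sub1 hF]
      constructor
      · intro h f
        obtain ⟨g, hg⟩ := h (ad1 τ hτ f)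
        refine ⟨ad2 τ hτ g, ?_⟩
        apply hom_ext
        intro m
        change ad2 τ hτ g (Fm τ hτ _ (mk τ hτ m 1)) = f (mk τ hτ m 1)
        rw [Fm_mk]
        exact (LinearMap.congr_fun (ad1_ad2 τ hτ g) _).trans (LinearMap.congr_fun hg m)
      · intro h φ
        obtain ⟨g, hg⟩ := h (ad2 (M := ↥(LinearMap.ker p)) (N := N) τ hτ φ)
        refine ⟨ad1 τ hτ g, LinearMap.ext fun m => ?_⟩
        have e1 := LinearMap.congr_fun (ad1_ad2 (M := ↥(LinearMap.ker p)) (N := N) τ hτ φ) m
        have e2 := LinearMap.congr_fun hg (mk (M := ↥(LinearMap.ker p)) τ hτ m 1)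
        refine Eq.trans ?_ (e2.trans e1)
        change g (mk τ hτ _ 1) = g (Fm τ hτ _ (mk τ hτ m 1))
        rw [Fm_mk]
    | succ n =>
      rw [sub2 hS, sub2 hF]
      exact ih _

instance : IsScalarTower k A (Tr (eps k A)) where
  smul_assoc c a x := by
    change (eps k A (c • a)) • (show k from x) = c • ((eps k A a) • (show k from x))
    have : eps k A (c • a) = c * eps k A a := by
      change (Bialgebra.counitAlgHom k A) (c • a) = c * (Bialgebra.counitAlgHom k A) a
      rw [map_smul, smul_eq_mul]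
    rw [this, mul_smul, smul_eq_mul, smul_eq_mul]

/-- the contraction -/
noncomputable def cl (k A : Type) [Field k] [Ring A] [HopfAlgebra k A] : A ⊗[k] A →ₗ[k] A :=
  (TensorProduct.lid k A).toLinearMap ∘ₗ
    LinearMap.rTensor A (CoalgebraStruct.counit (R := k) (A := A))

theorem cl_cm (a : A) : cl k A (cm k A a) = a := by
  rw [cl, LinearMap.comp_apply, Coalgebra.rTensor_counit_comul]
  simp

theorem lid_oq (t : A ⊗[k] A) (c : Tr (eps k A)) (y : A) :
    TensorProduct.lid k A (show k ⊗[k] A from oq (k := k) (Tr (eps k A)) t (c ⊗ₜ[k] y)) =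
      (show k from c) • (cl k A t * y) := by
  induction t with
  | zero =>
    rw [map_zero, map_zero, zero_mul, smul_zero]
    exact map_zero (TensorProduct.lid k A)
  | add s t hs ht =>
    rw [map_add, map_add, add_mul, smul_add, ← hs, ← ht]
    exact map_add (TensorProduct.lid k A) _ _
  | tmul p q =>
    rw [oq_tmul]
    refine (TensorProduct.lid_tmul (R := k) (q * y) _).trans ?_
    change ((eps k A p) • (show k from c)) • (q * y) = _
    have : cl k A (p ⊗ₜ[k] q) = (eps k A p) • q := by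
      rw [cl, LinearMap.comp_apply, LinearMap.rTensor_tmul]
      exact TensorProduct.lid_tmul _ _
    rw [this, smul_mul_assoc, smul_smul, smul_eq_mul, mul_comm]

/-- `F k` is the regular bimodule -/
noncomputable def triv : FT τ hτ (Tr (eps k A)) ≃ₗ[A ⊗[k] B] Reg τ hτ where
  toFun t := TensorProduct.lid k A (show k ⊗[k] A from t)
  map_add' x y := map_add (TensorProduct.lid k A) (show k ⊗[k] A from x) (show k ⊗[k] A from y)
  map_smul' r t := by
    change TensorProduct.lid k A (show k ⊗[k] A from ac τ hτ (Tr (eps k A)) r t) =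
      regHom τ hτ r (TensorProduct.lid k A (show k ⊗[k] A from t))
    have key : ∀ t : Tr (eps k A) ⊗[k] A,
        TensorProduct.lid k A (show k ⊗[k] A from ac τ hτ (Tr (eps k A)) r t) =
          regHom τ hτ r (TensorProduct.lid k A (show k ⊗[k] A from t)) := by
      intro t
      induction r with
      | zero =>
        rw [map_zero, map_zero]
        exact map_zero (TensorProduct.lid k A)
      | add x y hx hy =>
        rw [map_add, map_add, LinearMap.add_apply]
        exact (map_add (TensorProduct.lid k A) _ _).trans (congrArg₂ (· + ·) hx hy)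
      | tmul a b =>
        induction t with
        | zero =>
          rw [map_zero]
          exact (map_zero (TensorProduct.lid k A)).trans
            ((congrArg _ (map_zero (TensorProduct.lid k A))).trans (map_zero _)).symm
        | add x y hx hy =>
          rw [map_add]
          refine (map_add (TensorProduct.lid k A) _ _).trans ?_
          refine (congrArg₂ (· + ·) hx hy).trans ?_
          refine (map_add (regHom τ hτ (a ⊗ₜ[k] b)) _ _).symm.trans ?_
          exact congrArg _ (map_add (TensorProduct.lid k A) _ _).symm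
        | tmul c x =>
          rw [ac_tmul, rg_tmul, dg_apply, lid_oq, cl_cm]
          refine Eq.trans ?_ (congrArg (regHom τ hτ (a ⊗ₜ[k] b))
            (TensorProduct.lid_tmul (R := k) x (show k from c)).symm)
          rw [map_smul, regHom_tmul]
    exact key t
  invFun x := (TensorProduct.lid k A).symm (show A from x)
  left_inv x := (TensorProduct.lid k A).symm_apply_apply (show k ⊗[k] A from x)
  right_inv x := (TensorProduct.lid k A).apply_symm_apply (show A from x)

/-! ### freeness -/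

/-- `x ⊗ y ↦ δ(x) (1 ⊗ y)` -/
noncomputable def ps (D : A →ₗ[k] A ⊗[k] B) : A ⊗[k] B →ₗ[k] A ⊗[k] B :=
  TensorProduct.lift (LinearMap.mk₂ k
    (fun (x : A) (y : B) => D x * ((1 : A) ⊗ₜ[k] y))
    (fun x x' y => by rw [map_add, add_mul])
    (fun c x y => by rw [map_smul, smul_mul_assoc])
    (fun x y y' => by rw [TensorProduct.tmul_add, mul_add])
    (fun c x y => by rw [TensorProduct.tmul_smul, mul_smul_comm]))

theorem ps_tmul (D : A →ₗ[k] A ⊗[k] B) (x : A) (y : B) :
    ps D (x ⊗ₜ[k] y) = D x * ((1 : A) ⊗ₜ[k] y) := by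
  rw [ps, TensorProduct.lift.tmul]
  rfl

theorem ps_mul (D : A →ₗ[k] A ⊗[k] B) (t : A ⊗[k] B) (y : B) :
    ps D (t * ((1 : A) ⊗ₜ[k] y)) = ps D t * ((1 : A) ⊗ₜ[k] y) := by
  induction t with
  | zero => simp
  | add s t hs ht => rw [add_mul, map_add, hs, ht, map_add, add_mul]
  | tmul p q =>
    rw [Algebra.TensorProduct.tmul_mul_tmul, mul_one, ps_tmul, ps_tmul, mul_assoc,
      Algebra.TensorProduct.tmul_mul_tmul, one_mul]

/-- `δ` and `δ'` as linear maps -/
noncomputable def d1 : A →ₗ[k] A ⊗[k] B := (dd τ hτ).toLinearMap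

noncomputable def d2 : A →ₗ[k] A ⊗[k] B :=
  LinearMap.lTensor A (tl τ hτ ∘ₗ an k A ∘ₗ an k A) ∘ₗ cm k A

theorem ps_21 (t : A ⊗[k] B) : ps (d2 τ hτ) (ps (d1 τ hτ) t) = t := by
  induction t with
  | zero => simp
  | add s t hs ht => rw [map_add, map_add, hs, ht]
  | tmul x y =>
    rw [ps_tmul, ps_mul]
    have h := id_c τ hτ (ps (d2 τ hτ) ∘ₗ
      (Algebra.TensorProduct.map (AlgHom.id k A) (ts τ hτ)).toLinearMap) (fun p q => by
        rw [LinearMap.comp_apply]
        change ps (d2 τ hτ) (Algebra.TensorProduct.map (AlgHom.id k A) (ts τ hτ) (p ⊗ₜ[k] q)) = _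
        rw [Algebra.TensorProduct.map_tmul, ps_tmul]
        rfl) x
    have h' : ps (d2 τ hτ) (d1 τ hτ x) = x ⊗ₜ[k] 1 := h
    rw [h']
    simp

theorem ps_12 (t : A ⊗[k] B) : ps (d1 τ hτ) (ps (d2 τ hτ) t) = t := by
  induction t with
  | zero => simp
  | add s t hs ht => rw [map_add, map_add, hs, ht]
  | tmul x y =>
    rw [ps_tmul, ps_mul]
    have h := id_b τ hτ (ps (d1 τ hτ) ∘ₗ
      LinearMap.lTensor A (tl τ hτ ∘ₗ an k A ∘ₗ an k A)) (fun p q => by
        rw [LinearMap.comp_apply, LinearMap.lTensor_tmul, ps_tmul]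
        rfl) x
    have h' : ps (d1 τ hτ) (d2 τ hτ x) = x ⊗ₜ[k] 1 := h
    rw [h']
    simp

/-- `A ⊗ B ≃ G (A ⊗ B)` over `A` -/
noncomputable def fr : A ⊗[k] B ≃ₗ[A] GT τ hτ (A ⊗[k] B) where
  toFun t := ps (d1 τ hτ) t
  map_add' := map_add _
  map_smul' a t := by
    change ps (d1 τ hτ) (a • t) = dd τ hτ a * ps (d1 τ hτ) t
    induction t with
    | zero => simp
    | add s t hs ht => rw [smul_add, map_add, hs, ht, map_add, mul_add]
    | tmul x y =>
      rw [TensorProduct.smul_tmul', ps_tmul, ps_tmul, smul_eq_mul]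
      change dd τ hτ (a * x) * _ = dd τ hτ a * (dd τ hτ x * _)
      rw [map_mul, mul_assoc]
  invFun t := ps (d2 τ hτ) t
  left_inv := ps_21 τ hτ
  right_inv := ps_12 τ hτ

end Main

end S1

theorem taskS1 : TaskS1 := by
  intro k A B _ _ _ _ _ τ hτ i
  let b := Module.Basis.ofVectorSpace k B
  have hA : Nontrivial A := (eps k A).domain_nontrivial
  have hB : Nontrivial B := τ.f.symm.toEquiv.nontrivial
  have hι : Nonempty (Module.Basis.ofVectorSpaceIndex k B) := b.index_nonempty
  refine ⟨Module.Basis.ofVectorSpaceIndex k B, hι, ?_⟩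
  rw [S1.sub_iso_post (((Algebra.TensorProduct.basis A b).repr.symm).trans (S1.fr τ hτ)),
    S1.main, S1.sub_iso_pre (S1.triv τ hτ)]

end Pool.Agent.Helper377_AG
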