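import Pool.Agent.Helper377_AG.D
import Pool.Agent.Helper377_AG.TaskS1
import Pool.Agent.Helper377_AG.TaskS02

/-!
Task S: the groups `Ext^i(k, H)` on the left and on the right vanish simultaneously.
-/

set_option autoImplicit false

open CategoryTheory
open scoped TensorProduct

namespace Pool.Agent.Helper377_AG

open Pool.Agent.Helper202_BG

theorem finite_Tr {k A : Type} [Field k] [Ring A] [HopfAlgebra k A] :
    Module.Finite A (Tr (eps k A)) := by
  apply Module.Finite.of_surjective
    (LinearMap.toSpanSingleton A (Tr (eps k A)) (Tr.mk (eps k A) 1))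
  intro x
  refine ⟨algebraMap k A (Tr.val (eps k A) x), ?_⟩
  rw [LinearMap.toSpanSingleton_apply, Tr.smul_mk]
  have : eps k A (algebraMap k A (Tr.val (eps k A) x)) = (Tr.val (eps k A) x) :=
    (Bialgebra.counitAlgHom k A).commutes _
  rw [this, mul_one, Tr.mk_val]

theorem taskS_aux (k A B : Type) [Field k] [Ring A] [HopfAlgebra k A] [Ring B] [Algebra k B]
    (τ : Anti A B) (hτ : ∀ (c : k) (a : A), τ.f (c • a) = c • τ.f a) (hA : IsNoetherianRing A)
    (i : ℕ) : Subsingleton (E A (Tr (eps k A)) A i) ↔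
      Subsingleton (E (A ⊗[k] B) (Reg τ hτ) (A ⊗[k] B) i) := by
  obtain ⟨ι, hι, h⟩ := taskS1 k A B τ hτ i
  rw [← h]
  have := finite_Tr (k := k) (A := A)
  exact taskS0 A (Tr (eps k A)) ι i

theorem taskS : TaskS := by
  intro k A B _ _ _ _ _ τ hτ hA hB i
  have hτ' : ∀ (c : k) (b : B), τ.symm.f (c • b) = c • τ.symm.f b := by
    intro c b
    apply τ.f.injective
    rw [hτ]
    change τ.f (τ.f.symm (c • b)) = c • τ.f (τ.f.symm b)
    simp
  rw [taskS_aux k A B τ hτ hA i, taskS_aux k B A τ.symm hτ' hB i]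
  have key : ∀ (t : A ⊗[k] B) (x : A), τ.f (regHom τ hτ t x) =
      regHom τ.symm hτ' (Algebra.TensorProduct.comm k A B t) (τ.f x) := by
    intro t x
    induction t with
    | zero => simp
    | add s t hs ht => simp only [map_add, LinearMap.add_apply, hs, ht]
    | tmul a b =>
      rw [Algebra.TensorProduct.comm_tmul, regHom_tmul, regHom_tmul, τ.mul, τ.mul, mul_assoc]
      change τ.f (τ.f.symm b) * _ = _
      rw [AddEquiv.apply_symm_apply]
      rfl
  refine taskS2 (A ⊗[k] B) (B ⊗[k] A) (Algebra.TensorProduct.comm k A B).toRingEquiv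
    (Reg τ hτ) (Reg τ.symm hτ') (A ⊗[k] B) (B ⊗[k] A) τ.f
    (Algebra.TensorProduct.comm k A B).toRingEquiv.toAddEquiv ?_ ?_ i
  · intro t x
    exact key t x
  · intro t x
    exact map_mul (Algebra.TensorProduct.comm k A B) t x

end Pool.Agent.Helper377_AG
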