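import Pool.Agent.Helper377_AG.Hopf2

/-!
Task T: a module of finite projective dimension with a nonzero finite-dimensional submodule
bounds the projective dimension of all injective modules.
-/

set_option autoImplicit false

open CategoryTheory CategoryTheory.Limits
open scoped TensorProduct

namespace Pool.Agent.Helper377_AG

open Pool.Agent.Helper202_BG

section dual
variable (k A : Type) [Field k] [Ring A] [HopfAlgebra k A]
variable (U : Type) [AddCommGroup U] [Module A U] [Module k U] [IsScalarTower k A U]

/-- the dual space as a module over the Hopf algebra -/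
def DM (k A U : Type) [Field k] [Ring A] [HopfAlgebra k A] [AddCommGroup U] [Module A U]
    [Module k U] [IsScalarTower k A U] : Type := Module.Dual k U

noncomputable instance : AddCommGroup (DM k A U) := inferInstanceAs (AddCommGroup (Module.Dual k U))

noncomputable instance : Module k (DM k A U) := inferInstanceAs (Module k (Module.Dual k U))

/-- the underlying functional -/
noncomputable def DM.fn : DM k A U ≃ₗ[k] Module.Dual k U := LinearEquiv.refl k (Module.Dual k U)

noncomputable instance : Module A (DM k A U) where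
  smul a φ := (DM.fn k A U).symm (DM.fn k A U φ ∘ₗ Algebra.lsmul k k U (an k A a))
  one_smul φ := by
    change (DM.fn k A U).symm (DM.fn k A U φ ∘ₗ Algebra.lsmul k k U (an k A 1)) = φ
    rw [an, HopfAlgebra.antipode_one, map_one]
    rfl
  mul_smul a b φ := by
    change (DM.fn k A U).symm (DM.fn k A U φ ∘ₗ Algebra.lsmul k k U (an k A (a * b))) =
      (DM.fn k A U).symm ((DM.fn k A U φ ∘ₗ Algebra.lsmul k k U (an k A b)) ∘ₗ
        Algebra.lsmul k k U (an k A a))
    rw [an, HopfAlgebra.antipode_mul_antidistrib, map_mul]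
    rfl
  smul_zero a := by
    change (DM.fn k A U).symm (DM.fn k A U 0 ∘ₗ Algebra.lsmul k k U (an k A a)) = 0
    simp
  smul_add a φ ψ := by
    change (DM.fn k A U).symm (DM.fn k A U (φ + ψ) ∘ₗ Algebra.lsmul k k U (an k A a)) =
      (DM.fn k A U).symm (DM.fn k A U φ ∘ₗ Algebra.lsmul k k U (an k A a)) +
      (DM.fn k A U).symm (DM.fn k A U ψ ∘ₗ Algebra.lsmul k k U (an k A a))
    rw [map_add, LinearMap.add_comp, map_add]
  add_smul a b φ := by
    change (DM.fn k A U).symm (DM.fn k A U φ ∘ₗ Algebra.lsmul k k U (an k A (a + b))) =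
      (DM.fn k A U).symm (DM.fn k A U φ ∘ₗ Algebra.lsmul k k U (an k A a)) +
      (DM.fn k A U).symm (DM.fn k A U φ ∘ₗ Algebra.lsmul k k U (an k A b))
    rw [map_add, map_add, LinearMap.comp_add, map_add]
  zero_smul φ := by
    change (DM.fn k A U).symm (DM.fn k A U φ ∘ₗ Algebra.lsmul k k U (an k A 0)) = 0
    rw [map_zero, map_zero, LinearMap.comp_zero, map_zero]

theorem DM.fn_smul (a : A) (φ : DM k A U) (u : U) :
    DM.fn k A U (a • φ) u = DM.fn k A U φ (an k A a • u) := rfl

instance : IsScalarTower k A (DM k A U) where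
  smul_assoc c a φ := by
    apply (DM.fn k A U).injective
    ext u
    rw [DM.fn_smul, map_smul (an k A), smul_assoc, map_smul (DM.fn k A U φ)]
    rfl

/-- `U ⊗ U^* → End U` -/
noncomputable def th : U ⊗[k] DM k A U →ₗ[k] (U →ₗ[k] U) :=
  dualTensorHom k U U ∘ₗ (TensorProduct.comm k U (Module.Dual k U)).toLinearMap

theorem th_tmul (u : U) (φ : DM k A U) (v : U) :
    th k A U (u ⊗ₜ[k] φ) v = DM.fn k A U φ v • u := rfl

theorem th_op (c d : A) (x : U ⊗[k] DM k A U) (v : U) :
    th k A U (op k A U (DM k A U) (c ⊗ₜ[k] d) x) v = c • (th k A U x (an k A d • v)) := by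
  induction x with
  | zero => simp
  | add x y hx hy => simp only [map_add, LinearMap.add_apply, hx, hy, smul_add]
  | tmul u φ =>
    rw [op_tmul, th_tmul, th_tmul, DM.fn_smul, smul_comm]

variable [FiniteDimensional k U]

theorem th_bij : Function.Bijective (th k A U) := by
  have h : th k A U = ((TensorProduct.comm k U (Module.Dual k U)).trans
      (dualTensorHomEquiv k U U)).toLinearMap := by
    ext u φ
    rfl
  rw [h]
  exact ((TensorProduct.comm k U (Module.Dual k U)).trans (dualTensorHomEquiv k U U)).bijective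

/-- the invariant element -/
theorem exists_coev : ∃ z : TP k A U (DM k A U),
    (∀ a : A, a • z = (Coalgebra.counit (R := k) a : k) • z) ∧ (Nontrivial U → z ≠ 0) := by
  obtain ⟨x, hx⟩ := (th_bij k A U).2 LinearMap.id
  refine ⟨TP.mk k A U (DM k A U) x, ?_, ?_⟩
  · intro a
    rw [TP.smul_mk, ← map_smul]
    congr 1
    apply (th_bij k A U).1
    have key : ∀ t : A ⊗[k] A, th k A U (op k A U (DM k A U) t x) =
        (Algebra.lsmul k k U) (LinearMap.mul' k A (LinearMap.lTensor A (an k A) t)) := by
      intro t
      induction t with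
      | zero => simp
      | add x y hx hy => simp only [map_add, LinearMap.add_apply, hx, hy]
      | tmul c d =>
        ext v
        rw [th_op, hx]
        simp
    rw [key, map_smul, hx]
    have h2 : LinearMap.mul' k A (LinearMap.lTensor A (an k A) (cop k A a)) =
        algebraMap k A (Coalgebra.counit a) := HopfAlgebra.mul_antipode_lTensor_comul_apply a
    rw [h2]
    ext v
    simp
  · rintro ⟨u, v, huv⟩ h0
    have h1 : x = 0 := (TP.mk k A U (DM k A U)).injective (by rw [h0, map_zero])
    rw [h1, map_zero] at hx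
    apply huv
    have := fun w : U => LinearMap.congr_fun hx w
    simp at this
    rw [← this u, ← this v]

end dual

section emb

open scoped ModuleCat

variable {k A : Type} [Field k] [Ring A] [HopfAlgebra k A]

theorem exists_emb {W : Type} [AddCommGroup W] [Module A W] [Module k W] [IsScalarTower k A W]
    (z : W) (hz : z ≠ 0) (hinv : ∀ a : A, a • z = (Coalgebra.counit (R := k) a : k) • z)
    (I : Type) [AddCommGroup I] [Module A I] [Module k I] [IsScalarTower k A I] :
    ∃ j : I →ₗ[A] TP k A W I, (∀ x, j x = TP.tm k A z x) ∧ Function.Injective j := by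
  have key : ∀ (t : A ⊗[k] A) (x : I), op k A W I t (z ⊗ₜ[k] x) =
      z ⊗ₜ[k] ((TensorProduct.lid k A (LinearMap.rTensor A Coalgebra.counit t)) • x) := by
    intro t x
    induction t with
    | zero => simp
    | add x y hx hy => simp only [map_add, LinearMap.add_apply, hx, hy, add_smul,
        TensorProduct.tmul_add]
    | tmul c d =>
      rw [op_tmul, hinv]
      simp [TensorProduct.smul_tmul]
  refine ⟨⟨⟨fun x => TP.tm k A z x, ?_⟩, ?_⟩, fun _ => rfl, ?_⟩
  · intro x y
    simp [TP.tm, TensorProduct.tmul_add]
  · intro a x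
    change TP.tm k A z (a • x) = a • TP.tm k A z x
    rw [TP.tm, TP.tm, TP.smul_mk, key]
    have : LinearMap.rTensor A Coalgebra.counit (cop k A a) = (1 : k) ⊗ₜ[k] a :=
      Coalgebra.rTensor_counit_comul a
    rw [this]
    simp
  · intro x y hxy
    have h1 : z ⊗ₜ[k] x = z ⊗ₜ[k] y := (TP.mk k A W I).injective hxy
    obtain ⟨f, hf⟩ : ∃ f : W →ₗ[k] k, f z = 1 := by
      obtain ⟨f, hf, -⟩ := Submodule.exists_le_ker_of_notMem (K := k) (p := (⊥ : Submodule k W))
        (v := z) (by simpa using hz)
      exact ⟨(f z)⁻¹ • f, by simp [hf]⟩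
    have h2 := congrArg (fun t => TensorProduct.lid k I (LinearMap.rTensor I f t)) h1
    simpa [hf] using h2

theorem TP.map_injective {M M' V : Type} [AddCommGroup M] [Module A M] [Module k M]
    [IsScalarTower k A M] [AddCommGroup M'] [Module A M'] [Module k M'] [IsScalarTower k A M']
    [AddCommGroup V] [Module A V] [Module k V] [IsScalarTower k A V] (f : M →ₗ[A] M')
    (hf : Function.Injective f) : Function.Injective (TP.map k V f) := by
  have h1 : Function.Injective (LinearMap.rTensor V (f.restrictScalars k)) :=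
    Module.Flat.rTensor_preserves_injective_linearMap _ hf
  have h2 : ∀ x : M ⊗[k] V, tmap f (LinearMap.id : V →ₗ[A] V) x =
      LinearMap.rTensor V (f.restrictScalars k) x := fun x => rfl
  intro x y hxy
  obtain ⟨x, rfl⟩ := (TP.mk k A M V).surjective x
  obtain ⟨y, rfl⟩ := (TP.mk k A M V).surjective y
  have h3 := (TP.mk k A M' V).injective hxy
  rw [h2, h2] at h3
  have h4 := h1 h3
  rw [LinearEquiv.symm_apply_apply, LinearEquiv.symm_apply_apply] at h4
  rw [h4]

/-- the case of derived scalars -/
theorem taskT_aux (n : ℕ) (Q : ModuleCat.{0} A) (hQ : HasProjectiveDimensionLT Q (n + 1))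
    (U : Submodule A Q) (hU : U ≠ ⊥) (hfin : FiniteDimensional k U)
    (I : ModuleCat.{0} A) (hI : Module.Injective A I) : HasProjectiveDimensionLT I (n + 1) := by
  obtain ⟨z, hz, hz0⟩ := exists_coev k A U
  have hnt : Nontrivial U := Submodule.nontrivial_iff_ne_bot.2 hU
  let W : ModuleCat.{0} A := (TF k A (DM k A U)).obj Q
  have hW : HasProjectiveDimensionLT W (n + 1) := TF_pd k A (DM k A U) Q (n + 1) hQ
  let w : W := TP.map k (DM k A U) U.subtype z
  have hw0 : w ≠ 0 := by
    intro h
    apply hz0 hnt
    apply TP.map_injective (k := k) (V := DM k A U) U.subtype U.injective_subtype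
    rw [map_zero]
    exact h
  have hwinv : ∀ a : A, a • w = (Coalgebra.counit (R := k) a : k) • w := by
    intro a
    change a • TP.map k (DM k A U) U.subtype z = algebraMap k A (Coalgebra.counit (R := k) a) •
      TP.map k (DM k A U) U.subtype z
    rw [← map_smul, hz a, ← map_smul]
    rw [algebraMap_smul]
  obtain ⟨j, -, hj⟩ := exists_emb (k := k) (W := W) w hw0 hwinv I
  have hZ : HasProjectiveDimensionLT ((TF k A I).obj W) (n + 1) := TF_pd k A I W (n + 1) hW
  obtain ⟨h, hh⟩ := hI.out j hj LinearMap.id
  have hr : Retract I ((TF k A I).obj W) :=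
    { i := ModuleCat.ofHom j
      r := ModuleCat.ofHom h
      retract := by
        apply ModuleCat.hom_ext
        ext x
        exact hh x }
  exact hr.hasProjectiveDimensionLT (n + 1)

end emb

theorem taskT : TaskT := by
  intro k B _ _ _ n Q _ _ i1 i2 hQ U hU hfin I _ _ hI
  have h : i1 = ModuleCat.moduleOfAlgebraModule (k := k) (ModuleCat.of B Q) := by
    apply Module.ext'
    intro c x
    exact (algebraMap_smul B c x).symm
  subst h
  exact taskT_aux (k := k) n (ModuleCat.of B Q) hQ U hU hfin (ModuleCat.of B I) hI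

end Pool.Agent.Helper377_AG
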